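import Pool.Agent.Lib.MP_4d044e_co.CF.Spec

section
/-!
# MP_4d044e_co, module DGR: neighbourhoods in a claw-free graph with a maximal independent set
-/
open Classical Finset

namespace Pool.Agent.Lib.MP4d044e

namespace DGRM

variable {V : Type} [Fintype V]

theorem mem_inb (G : SimpleGraph V) (I : Finset V) (v i : V) :
    i ∈ inb G I v ↔ i ∈ I ∧ G.Adj v i := by
  unfold inb
  rw [Finset.mem_filter]

theorem mem_V1 (G : SimpleGraph V) (I : Finset V) (v : V) :
    v ∈ V1 G I ↔ v ∉ I ∧ (inb G I v).card = 1 := by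
  unfold V1
  simp

theorem mem_V2 (G : SimpleGraph V) (I : Finset V) (v : V) :
    v ∈ V2 G I ↔ v ∉ I ∧ (inb G I v).card = 2 := by
  unfold V2
  simp

theorem part1 (G : SimpleGraph V) (I : Finset V) (hc : ClawFree G) (hI : MaxInd G I)
    (v : V) (hv : v ∉ I) : v ∈ V1 G I ∨ v ∈ V2 G I := by
  rw [mem_V1, mem_V2]
  obtain ⟨i, hi, hvi⟩ := hI.2 v hv
  have h1 : 0 < (inb G I v).card := Finset.card_pos.2 ⟨i, (mem_inb G I v i).2 ⟨hi, hvi⟩⟩
  have h2 : ¬ 2 < (inb G I v).card := by
    intro h
    obtain ⟨a, b, c, ha, hb, hc', hab, hac, hbc⟩ := Finset.two_lt_card_iff.1 h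
    rw [mem_inb] at ha hb hc'
    rcases hc v a b c ha.2 hb.2 hc'.2 hab hac hbc with h | h | h
    · exact hI.1 a ha.1 b hb.1 h
    · exact hI.1 a ha.1 c hc'.1 h
    · exact hI.1 b hb.1 c hc'.1 h
  have h3 : (inb G I v).card = 1 ∨ (inb G I v).card = 2 := by omega
  rcases h3 with h3 | h3
  · exact Or.inl ⟨hv, h3⟩
  · exact Or.inr ⟨hv, h3⟩

theorem claw2 (G : SimpleGraph V) (I : Finset V) (hc : ClawFree G) (hI : MaxInd G I)
    (v w : V) (i j : V) (hi : i ∈ I) (hj : j ∈ I) (hij : i ≠ j) (hvi : G.Adj v i)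
    (hvj : G.Adj v j) (hvw : G.Adj v w) (hwi : w ≠ i) (hwj : w ≠ j) :
    G.Adj w i ∨ G.Adj w j := by
  rcases hc v i j w hvi hvj hvw hij (fun h => hwi h.symm) (fun h => hwj h.symm) with h | h | h
  · exact absurd h (hI.1 i hi j hj)
  · exact Or.inl h.symm
  · exact Or.inr h.symm

theorem V2_common (G : SimpleGraph V) (I : Finset V) (hc : ClawFree G) (hI : MaxInd G I)
    (v w : V) (hv : v ∈ V2 G I) (hw : w ∉ I) (hvw : G.Adj v w) :
    ∃ i ∈ I, G.Adj v i ∧ G.Adj w i := by
  rw [mem_V2] at hv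
  obtain ⟨i, j, hij, hin⟩ := Finset.card_eq_two.1 hv.2
  have hi : i ∈ inb G I v := by rw [hin]; simp
  have hj : j ∈ inb G I v := by rw [hin]; simp
  rw [mem_inb] at hi hj
  rcases claw2 G I hc hI v w i j hi.1 hj.1 hij hi.2 hj.2 hvw
    (fun h => hw (h ▸ hi.1)) (fun h => hw (h ▸ hj.1)) with h | h
  · exact ⟨i, hi.1, hi.2, h⟩
  · exact ⟨j, hj.1, hj.2, h⟩

theorem part2 (G : SimpleGraph V) (I : Finset V) (hc : ClawFree G) (hI : MaxInd G I)
    (v w : V) (hv : v ∉ I) (hw : w ∉ I) (hvw : G.Adj v w) :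
    (∃ i ∈ I, G.Adj v i ∧ G.Adj w i) ∨ (G1 G I).Adj v w := by
  rcases part1 G I hc hI v hv with h1 | h1
  · rcases part1 G I hc hI w hw with h2 | h2
    · by_cases he : inb G I v = inb G I w
      · left
        obtain ⟨i, hi, hvi⟩ := hI.2 v hv
        have h3 : i ∈ inb G I w := by rw [← he]; exact (mem_inb G I v i).2 ⟨hi, hvi⟩
        rw [mem_inb] at h3
        exact ⟨i, hi, hvi, h3.2⟩
      · right
        exact ⟨h1, h2, hvw, he⟩
    · left
      obtain ⟨i, hi, ha, hb⟩ := V2_common G I hc hI w v h2 hv hvw.symm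
      exact ⟨i, hi, hb, ha⟩
  · left
    exact V2_common G I hc hI v w h1 hw hvw

theorem part3 (G : SimpleGraph V) (I : Finset V) (hc : ClawFree G) (hI : MaxInd G I)
    (v : V) (_hv : v ∈ V2 G I) (i : V) (hi : i ∈ I) (j : V) (hj : j ∈ I) (hij : i ≠ j)
    (hvi : G.Adj v i) (hvj : G.Adj v j) :
    ∃ l : ℕ, (cm G i v + 2) + (cm G j v + 2) = dg G v + 2 + l ∧
      l + 1 ≤ (univ.filter fun w => G.Adj w i ∧ G.Adj w j).card := by
  set A := univ.filter fun w => G.Adj v w ∧ G.Adj i w with hA
  set B := univ.filter fun w => G.Adj v w ∧ G.Adj j w with hB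
  have hN : (univ.filter fun w => G.Adj v w) = insert i (insert j (A ∪ B)) := by
    ext w
    simp only [hA, hB, mem_filter, mem_univ, true_and, mem_insert, mem_union]
    constructor
    · intro h
      by_cases h1 : w = i
      · exact Or.inl h1
      · by_cases h2 : w = j
        · exact Or.inr (Or.inl h2)
        · rcases claw2 G I hc hI v w i j hi hj hij hvi hvj h h1 h2 with h3 | h3
          · exact Or.inr (Or.inr (Or.inl ⟨h, h3.symm⟩))
          · exact Or.inr (Or.inr (Or.inr ⟨h, h3.symm⟩))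
    · rintro (h | h | h | h)
      · rw [h]; exact hvi
      · rw [h]; exact hvj
      · exact h.1
      · exact h.1
  have hjn : j ∉ A ∪ B := by
    simp only [hA, hB, mem_filter, mem_univ, true_and, mem_union]
    rintro (h | h)
    · exact hI.1 i hi j hj h.2
    · exact G.loopless.irrefl j h.2
  have hin : i ∉ insert j (A ∪ B) := by
    simp only [hA, hB, mem_filter, mem_univ, true_and, mem_union, mem_insert]
    rintro (h | h | h)
    · exact hij h
    · exact G.loopless.irrefl i h.2
    · exact hI.1 j hj i hi h.2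
  have hdg : dg G v = (A ∪ B).card + 2 := by
    unfold dg
    rw [hN, Finset.card_insert_of_notMem hin, Finset.card_insert_of_notMem hjn]
  have hcard := Finset.card_union_add_card_inter A B
  refine ⟨(A ∩ B).card, ?_, ?_⟩
  · have h1 : cm G i v = A.card := rfl
    have h2 : cm G j v = B.card := rfl
    rw [h1, h2, hdg]
    omega
  · have hv' : v ∉ A ∩ B := by
      simp only [hA, hB, mem_filter, mem_univ, true_and, mem_inter]
      intro h
      exact G.loopless.irrefl v h.1.1
    rw [← Finset.card_insert_of_notMem hv']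
    apply Finset.card_le_card
    intro w hw
    simp only [hA, hB, mem_filter, mem_univ, true_and, mem_inter, mem_insert] at hw ⊢
    rcases hw with h | h
    · rw [h]; exact ⟨hvi, hvj⟩
    · exact ⟨h.1.2.symm, h.2.2.symm⟩

theorem part4 (G : SimpleGraph V) (I : Finset V) (hc : ClawFree G) (hI : MaxInd G I)
    (p : V) (hp : p ∈ V1 G I) (i : V) (hi : i ∈ I) (hpi : G.Adj p i) :
    dg G p = 1 + cm G i p + (univ.filter fun q => (G1 G I).Adj p q).card := by
  have hp' := (mem_V1 G I p).1 hp
  have hinb : inb G I p = {i} := by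
    obtain ⟨j, hj⟩ := Finset.card_eq_one.1 hp'.2
    have h1 : i ∈ inb G I p := (mem_inb G I p i).2 ⟨hi, hpi⟩
    rw [hj, Finset.mem_singleton] at h1
    rw [hj, h1]
  have hN : (univ.filter fun w => G.Adj p w) = insert i ((univ.filter fun w => G.Adj p w ∧ G.Adj i w) ∪
      (univ.filter fun q => (G1 G I).Adj p q)) := by
    ext w
    simp only [mem_filter, mem_univ, true_and, mem_insert, mem_union]
    constructor
    · intro h
      by_cases h1 : w = i
      · exact Or.inl h1
      · right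
        by_cases h2 : G.Adj i w
        · exact Or.inl ⟨h, h2⟩
        · right
          have hw : w ∉ I := by
            intro hw
            have h3 : w ∈ inb G I p := (mem_inb G I p w).2 ⟨hw, h⟩
            rw [hinb, Finset.mem_singleton] at h3
            exact h1 h3
          rcases part2 G I hc hI p w hp'.1 hw h with ⟨k, hk, hk1, hk2⟩ | h3
          · have h3 : k ∈ inb G I p := (mem_inb G I p k).2 ⟨hk, hk1⟩
            rw [hinb, Finset.mem_singleton] at h3
            rw [h3] at hk2
            exact absurd hk2.symm h2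
          · exact h3
    · rintro (h | h | h)
      · rw [h]; exact hpi
      · exact h.1
      · exact h.2.2.1
  have hd : Disjoint (univ.filter fun w => G.Adj p w ∧ G.Adj i w)
      (univ.filter fun q => (G1 G I).Adj p q) := by
    rw [Finset.disjoint_left]
    intro w h1 h2
    simp only [mem_filter, mem_univ, true_and] at h1 h2
    have h3 : w ∈ V1 G I := h2.2.1
    have h4 : inb G I p ≠ inb G I w := h2.2.2.2
    have h5 := (mem_V1 G I w).1 h3
    obtain ⟨j, hj⟩ := Finset.card_eq_one.1 h5.2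
    have h6 : i ∈ inb G I w := (mem_inb G I w i).2 ⟨hi, h1.2.symm⟩
    rw [hj, Finset.mem_singleton] at h6
    apply h4
    rw [hinb, hj, h6]
  have hin : i ∉ (univ.filter fun w => G.Adj p w ∧ G.Adj i w) ∪
      (univ.filter fun q => (G1 G I).Adj p q) := by
    simp only [mem_filter, mem_univ, true_and, mem_union]
    rintro (h | h)
    · exact G.loopless.irrefl i h.2
    · have h3 : i ∈ V1 G I := h.2.1
      exact ((mem_V1 G I i).1 h3).1 hi
  unfold dg cm
  rw [hN, Finset.card_insert_of_notMem hin, Finset.card_union_of_disjoint hd]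
  omega

end DGRM

theorem specDGR : SpecDGR := by
  intro V _ G I hc hI
  refine ⟨DGRM.part1 G I hc hI, ?_, ?_, ?_⟩
  · intro v hv w hw hvw
    exact DGRM.part2 G I hc hI v w hv hw hvw
  · intro v hv i hi j hj hij hvi hvj
    exact DGRM.part3 G I hc hI v hv i hi j hj hij hvi hvj
  · intro p hp i hi hpi
    exact DGRM.part4 G I hc hI p hp i hi hpi

end Pool.Agent.Lib.MP4d044e
end

section
/-!
# MP_4d044e_co, module BLK: the block system of a maximal independent set of a claw-free graph
-/
open Classical Finset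

namespace Pool.Agent.Lib.MP4d044e

namespace BLKM

variable {V : Type} [Fintype V]

theorem mem_inl (G : SimpleGraph V) (I : Finset V) (i : {i // i ∈ I}) (v : V) :
    v ∈ W G I (Sum.inl i) ↔ v = i.1 ∨ G.Adj i.1 v := by
  simp [W]

theorem mem_inr (G : SimpleGraph V) (I : Finset V) (X : {X // X ∈ UU G I}) (v : V) :
    v ∈ W G I (Sum.inr X) ↔ v ∈ X.1 := Iff.rfl

theorem mem_cp (G : SimpleGraph V) (I : Finset V) (p q : V) :
    q ∈ cp G I p ↔ (G1 G I).Reachable p q := by
  unfold cp
  simp

theorem self_cp (G : SimpleGraph V) (I : Finset V) (p : V) : p ∈ cp G I p := by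
  rw [mem_cp]

theorem cp_UU (G : SimpleGraph V) (I : Finset V) (p : V) (hp : p ∈ V1 G I) : cp G I p ∈ UU G I := by
  unfold UU
  exact Finset.mem_image_of_mem _ hp

/-- The element of `I` adjacent to `p ∈ V1`. -/
theorem V1_inb (G : SimpleGraph V) (I : Finset V) (p : V) (hp : p ∈ V1 G I) :
    p ∉ I ∧ ∃ i ∈ I, G.Adj p i ∧ inb G I p = {i} := by
  rw [DGRM.mem_V1] at hp
  obtain ⟨i, hi⟩ := Finset.card_eq_one.1 hp.2
  have h1 : i ∈ inb G I p := by rw [hi]; simp
  rw [DGRM.mem_inb] at h1
  exact ⟨hp.1, i, h1.1, h1.2, hi⟩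

theorem V2_inb (G : SimpleGraph V) (I : Finset V) (p : V) (hp : p ∈ V2 G I) :
    p ∉ I ∧ ∃ i ∈ I, ∃ j ∈ I, i ≠ j ∧ G.Adj p i ∧ G.Adj p j ∧ inb G I p = {i, j} := by
  rw [DGRM.mem_V2] at hp
  obtain ⟨i, j, hij, hin⟩ := Finset.card_eq_two.1 hp.2
  have h1 : i ∈ inb G I p := by rw [hin]; simp
  have h2 : j ∈ inb G I p := by rw [hin]; simp
  rw [DGRM.mem_inb] at h1 h2
  exact ⟨hp.1, i, h1.1, j, h2.1, hij, h1.2, h2.2, hin⟩

theorem V1_V2 (G : SimpleGraph V) (I : Finset V) (p : V) (h1 : p ∈ V1 G I) (h2 : p ∈ V2 G I) :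
    False := by
  rw [DGRM.mem_V1] at h1
  rw [DGRM.mem_V2] at h2
  omega

/-- The blocks of `v ∈ I`. -/
theorem blocks_I (hCMP : SpecCMP) (G : SimpleGraph V) (I : Finset V) (hc : ClawFree G)
    (hI : MaxInd G I) (v : V) (hv : v ∈ I) :
    (univ.filter fun z => v ∈ W G I z) = {Sum.inl ⟨v, hv⟩} := by
  ext z
  simp only [mem_filter, mem_univ, true_and, mem_singleton]
  constructor
  · intro h
    rcases z with i | X
    · rw [mem_inl] at h
      rcases h with h | h
      · have : i = ⟨v, hv⟩ := Subtype.ext h.symm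
        rw [this]
      · exact absurd h (hI.1 i.1 i.2 v hv)
    · rw [mem_inr] at h
      have h1 := ((hCMP V G I hc hI X.1 X.2).1.1 h)
      exact absurd hv ((DGRM.mem_V1 G I v).1 h1).1
  · intro h
    rw [h, mem_inl]
    exact Or.inl rfl

/-- The blocks of `v ∈ V1`. -/
theorem blocks_V1 (hCMP : SpecCMP) (G : SimpleGraph V) (I : Finset V) (hc : ClawFree G)
    (hI : MaxInd G I) (v : V) (hv : v ∈ V1 G I) (i : V) (hi : i ∈ I) (hvi : G.Adj v i)
    (hin : inb G I v = {i}) :
    (univ.filter fun z => v ∈ W G I z) =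
      {Sum.inl ⟨i, hi⟩, Sum.inr ⟨cp G I v, cp_UU G I v hv⟩} := by
  have hvI := ((DGRM.mem_V1 G I v).1 hv).1
  ext z
  simp only [mem_filter, mem_univ, true_and, mem_singleton, mem_insert]
  constructor
  · intro h
    rcases z with j | X
    · left
      rw [mem_inl] at h
      rcases h with h | h
      · exact absurd (h ▸ j.2) hvI
      · have h1 : j.1 ∈ inb G I v := (DGRM.mem_inb G I v j.1).2 ⟨j.2, h.symm⟩
        rw [hin, mem_singleton] at h1
        have : j = ⟨i, hi⟩ := Subtype.ext h1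
        rw [this]
    · right
      rw [mem_inr] at h
      by_cases he : cp G I v = X.1
      · have : X = ⟨cp G I v, cp_UU G I v hv⟩ := Subtype.ext he.symm
        rw [this]
      · have h1 := (hCMP V G I hc hI X.1 X.2).1.2.2.2 (cp G I v) (cp_UU G I v hv) he
        have h2 : v ∈ X.1 ∩ cp G I v := Finset.mem_inter.2 ⟨h, self_cp G I v⟩
        rw [h1] at h2
        exact absurd h2 (Finset.notMem_empty v)
  · rintro (h | h)
    · rw [h, mem_inl]
      exact Or.inr hvi.symm
    · rw [h, mem_inr]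
      exact self_cp G I v

/-- The blocks of `v ∈ V2`. -/
theorem blocks_V2 (hCMP : SpecCMP) (G : SimpleGraph V) (I : Finset V) (hc : ClawFree G)
    (hI : MaxInd G I) (v : V) (hv : v ∈ V2 G I) (i : V) (hi : i ∈ I) (j : V) (hj : j ∈ I)
    (hvi : G.Adj v i) (hvj : G.Adj v j) (hin : inb G I v = {i, j}) :
    (univ.filter fun z => v ∈ W G I z) = {Sum.inl ⟨i, hi⟩, Sum.inl ⟨j, hj⟩} := by
  have hvI := ((DGRM.mem_V2 G I v).1 hv).1
  ext z
  simp only [mem_filter, mem_univ, true_and, mem_singleton, mem_insert]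
  constructor
  · intro h
    rcases z with k | X
    · rw [mem_inl] at h
      rcases h with h | h
      · exact absurd (h ▸ k.2) hvI
      · have h1 : k.1 ∈ inb G I v := (DGRM.mem_inb G I v k.1).2 ⟨k.2, h.symm⟩
        rw [hin, mem_insert, mem_singleton] at h1
        rcases h1 with h1 | h1
        · have : k = ⟨i, hi⟩ := Subtype.ext h1
          rw [this]; exact Or.inl rfl
        · have : k = ⟨j, hj⟩ := Subtype.ext h1
          rw [this]; exact Or.inr rfl
    · rw [mem_inr] at h
      exact (V1_V2 G I v ((hCMP V G I hc hI X.1 X.2).1.1 h) hv).elim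
  · rintro (h | h)
    · rw [h, mem_inl]
      exact Or.inr hvi.symm
    · rw [h, mem_inl]
      exact Or.inr hvj.symm

/-- The number of blocks of `v`. -/
theorem card_blocks (hDGR : SpecDGR) (hCMP : SpecCMP) (G : SimpleGraph V) (I : Finset V)
    (hc : ClawFree G) (hI : MaxInd G I) (v : V) :
    (v ∈ I ∧ (univ.filter fun z => v ∈ W G I z).card = 1) ∨
      (v ∉ I ∧ (univ.filter fun z => v ∈ W G I z).card = 2) := by
  by_cases hv : v ∈ I
  · left
    refine ⟨hv, ?_⟩
    rw [blocks_I hCMP G I hc hI v hv, Finset.card_singleton]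
  · right
    refine ⟨hv, ?_⟩
    rcases (hDGR V G I hc hI).1 v hv with h | h
    · obtain ⟨_, i, hi, hvi, hin⟩ := V1_inb G I v h
      rw [blocks_V1 hCMP G I hc hI v h i hi hvi hin, Finset.card_pair]
      intro h'
      cases h'
    · obtain ⟨_, i, hi, j, hj, hij, hvi, hvj, hin⟩ := V2_inb G I v h
      rw [blocks_V2 hCMP G I hc hI v h i hi j hj hvi hvj hin, Finset.card_pair]
      intro h'
      apply hij
      have := Sum.inl_injective h'
      exact congrArg Subtype.val this

theorem card_nbr (G : SimpleGraph V) (d : ℕ) (hd : ∀ v, dg G v ≤ d) (a b : V) (X : Finset V)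
    (hX : ∀ x ∈ X, G.Adj a x ∨ G.Adj b x) : X.card ≤ 2 * d := by
  have h1 : X ⊆ (univ.filter fun w => G.Adj a w) ∪ (univ.filter fun w => G.Adj b w) := by
    intro x hx
    simp only [mem_union, mem_filter, mem_univ, true_and]
    exact hX x hx
  have h2 := Finset.card_le_card h1
  have h3 := Finset.card_union_le (univ.filter fun w => G.Adj a w) (univ.filter fun w => G.Adj b w)
  have h4 := hd a
  have h5 := hd b
  unfold dg at h4 h5
  omega

theorem card_inr (hCMP : SpecCMP) (G : SimpleGraph V) (I : Finset V) (d : ℕ) (h1d : 1 ≤ d)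
    (hc : ClawFree G) (hI : MaxInd G I) (hd : ∀ v, dg G v ≤ d) (X : {X // X ∈ UU G I}) :
    X.1.card ≤ 2 * d := by
  obtain ⟨⟨hXV, _, _, _⟩, h⟩ := hCMP V G I hc hI X.1 X.2
  rcases h with h | ⟨_, ⟨i, hi, j, hj, hij, hcl⟩, _⟩ | ⟨hadj, p, hp, q, hq, r, hr, hpq, hpr, hqr⟩
  · omega
  · apply card_nbr G d hd i j
    intro x hx
    rcases hcl x hx with h | h
    · left
      have : i ∈ inb G I x := by rw [h]; simp
      exact ((DGRM.mem_inb G I x i).1 this).2.symm
    · right
      have : j ∈ inb G I x := by rw [h]; simp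
      exact ((DGRM.mem_inb G I x j).1 this).2.symm
  · apply card_nbr G d hd p q
    intro x hx
    by_cases hxp : inb G I p = inb G I x
    · right
      exact (hadj q hq x hx (fun h => hpq (hxp.trans h.symm))).2.2.1
    · left
      exact (hadj p hp x hx hxp).2.2.1

theorem isBS (hDGR : SpecDGR) (hCMP : SpecCMP) (G : SimpleGraph V) (I : Finset V) (d : ℕ)
    (h1d : 1 ≤ d) (hc : ClawFree G) (hI : MaxInd G I) (hd : ∀ v, dg G v ≤ d) :
    BS G (W G I) (2 * d) where
  one v := by
    rcases card_blocks hDGR hCMP G I hc hI v with h | h <;> omega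
  two v := by
    rcases card_blocks hDGR hCMP G I hc hI v with h | h <;> omega
  edge v w hvw := by
    by_cases hv : v ∈ I
    · refine ⟨Sum.inl ⟨v, hv⟩, ?_, ?_⟩
      · rw [mem_inl]; exact Or.inl rfl
      · rw [mem_inl]; exact Or.inr hvw
    · by_cases hw : w ∈ I
      · refine ⟨Sum.inl ⟨w, hw⟩, ?_, ?_⟩
        · rw [mem_inl]; exact Or.inr hvw.symm
        · rw [mem_inl]; exact Or.inl rfl
      · rcases (hDGR V G I hc hI).2.1 v hv w hw hvw with ⟨i, hi, h1, h2⟩ | h
        · refine ⟨Sum.inl ⟨i, hi⟩, ?_, ?_⟩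
          · rw [mem_inl]; exact Or.inr h1.symm
          · rw [mem_inl]; exact Or.inr h2.symm
        · refine ⟨Sum.inr ⟨cp G I v, cp_UU G I v h.1⟩, ?_, ?_⟩
          · rw [mem_inr]; exact self_cp G I v
          · rw [mem_inr, mem_cp]
            exact h.reachable
  ne z := by
    rcases z with i | X
    · exact ⟨i.1, (mem_inl G I i i.1).2 (Or.inl rfl)⟩
    · obtain ⟨x, hx⟩ := (hCMP V G I hc hI X.1 X.2).1.2.1
      exact ⟨x, (mem_inr G I X x).2 hx⟩
  le z := by
    rcases z with i | X
    · have h1 : W G I (Sum.inl i) ⊆ insert i.1 (univ.filter fun w => G.Adj i.1 w) := by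
        intro x hx
        rw [mem_inl] at hx
        simp only [mem_insert, mem_filter, mem_univ, true_and]
        exact hx
      have h2 := Finset.card_le_card h1
      have h3 := Finset.card_insert_le i.1 (univ.filter fun w => G.Adj i.1 w)
      have h4 := hd i.1
      unfold dg at h4
      omega
    · exact card_inr hCMP G I d h1d hc hI hd X

end BLKM

theorem specBLK (hDGR : SpecDGR) (hCMP : SpecCMP) : SpecBLK := by
  intro V _ G I d h1d hc hI hd
  refine ⟨BLKM.isBS hDGR hCMP G I d h1d hc hI hd, ?_, ?_, ?_, ?_⟩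
  · unfold n1
    congr 1
    ext v
    simp only [mem_filter, mem_univ, true_and]
    rcases BLKM.card_blocks hDGR hCMP G I hc hI v with h | h
    · exact ⟨fun _ => h.1, fun _ => h.2⟩
    · constructor
      · intro h'
        omega
      · intro h'
        exact absurd h' h.1
  · intro X Y h
    obtain ⟨hne, hint⟩ := h
    have h1 : Y.1 ≠ X.1 := by
      intro h'
      apply hne
      rw [Subtype.ext h'.symm]
    have h2 := (hCMP V G I hc hI X.1 X.2).1.2.2.2 Y.1 Y.2 h1
    obtain ⟨x, hx⟩ := hint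
    have h3 : x ∈ X.1 ∩ Y.1 := hx
    rw [h2] at h3
    exact absurd h3 (Finset.notMem_empty x)
  · intro i j hij
    ext w
    simp only [mem_inter, BLKM.mem_inl, mem_filter, mem_univ, true_and]
    constructor
    · rintro ⟨h1, h2⟩
      rcases h1 with h1 | h1
      · rcases h2 with h2 | h2
        · exact absurd (Subtype.ext (h1.symm.trans h2)) hij
        · rw [h1] at h2
          exact absurd h2 (hI.1 j.1 j.2 i.1 i.2)
      · rcases h2 with h2 | h2
        · rw [h2] at h1
          exact absurd h1 (hI.1 i.1 i.2 j.1 j.2)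
        · exact ⟨h1.symm, h2.symm⟩
    · rintro ⟨h1, h2⟩
      exact ⟨Or.inr h1.symm, Or.inr h2.symm⟩
  · intro i X
    ext p
    simp only [mem_inter, BLKM.mem_inl, BLKM.mem_inr, mem_filter]
    constructor
    · rintro ⟨h1, h2⟩
      refine ⟨h1, ?_⟩
      obtain ⟨hpI, k, hk, hpk, hin⟩ := BLKM.V1_inb G I p ((hCMP V G I hc hI X.1 X.2).1.1 h1)
      rcases h2 with h2 | h2
      · exact absurd (h2 ▸ i.2) hpI
      · have h3 : i.1 ∈ inb G I p := (DGRM.mem_inb G I p i.1).2 ⟨i.2, h2.symm⟩
        rw [hin, mem_singleton] at h3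
        rw [hin, h3]
    · rintro ⟨h1, h2⟩
      refine ⟨h1, Or.inr ?_⟩
      have h3 : i.1 ∈ inb G I p := by rw [h2]; simp
      exact ((DGRM.mem_inb G I p i.1).1 h3).2.symm

end Pool.Agent.Lib.MP4d044e
end

section
/-!
# MP_4d044e_co, module CMP: the components of `G1`
-/
open Classical Finset

namespace Pool.Agent.Lib.MP4d044e.CMPM

/-- An abstract form: a graph with a class function such that adjacent vertices have different classes
and two neighbours of a vertex with different classes are adjacent. -/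
structure Star {V α : Type} (H : SimpleGraph V) (c : V → α) : Prop where
  ne : ∀ p q, H.Adj p q → c p ≠ c q
  st : ∀ z p q, H.Adj z p → H.Adj z q → c p ≠ c q → H.Adj p q

section
variable {V α : Type} {H : SimpleGraph V} {c : V → α}

theorem reach_ind {P : V → Prop} {p : V} (h0 : P p)
    (hs : ∀ q q', H.Reachable p q → P q → H.Adj q q' → P q') :
    ∀ q, H.Reachable p q → P q := by
  intro q hq
  obtain ⟨w⟩ := hq
  have key : ∀ (a b : V) (w : H.Walk a b), H.Reachable p a → P a → P b := by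
    intro a b w
    induction w with
    | nil => exact fun _ h => h
    | cons h w ih =>
      intro h1 h2
      exact ih (h1.trans h.reachable) (hs _ _ h1 h2 h)
  exact key p q w (SimpleGraph.Reachable.refl p) h0

/-- (b) -/
theorem exists_two (S : Star H c) {p q r z : V} (hq : H.Reachable z q) (hp : H.Reachable z p)
    (hr : H.Reachable z r) (h1 : c p ≠ c q) (h2 : c p ≠ c r) (h3 : c q ≠ c r) :
    ∃ w, H.Reachable z w ∧ ∃ a b, H.Adj w a ∧ H.Adj w b ∧ c a ≠ c b := by
  by_contra hcon
  push Not at hcon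
  -- `z` has a neighbour
  have hnb : ∃ y, H.Adj z y := by
    by_contra hn
    push Not at hn
    have : ∀ w, H.Reachable z w → w = z := by
      intro w hw
      obtain ⟨w⟩ := hw
      cases w with
      | nil => rfl
      | cons h _ => exact absurd h (hn _)
    exact h1 (by rw [this p hp, this q hq])
  obtain ⟨y, hy⟩ := hnb
  have key : ∀ w, H.Reachable z w →
      ((c w = c z ∧ ∀ t, H.Adj w t → c t = c y) ∨ (c w = c y ∧ ∀ t, H.Adj w t → c t = c z)) := by
    apply reach_ind
    · left
      exact ⟨rfl, fun t ht => hcon z (SimpleGraph.Reachable.refl z) t y ht hy⟩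
    · intro w w' hw hP hww
      have hw' : H.Reachable z w' := hw.trans hww.reachable
      rcases hP with ⟨e1, e2⟩ | ⟨e1, e2⟩
      · right
        refine ⟨e2 w' hww, fun t ht => ?_⟩
        rw [hcon w' hw' t w ht hww.symm, e1]
      · left
        refine ⟨e2 w' hww, fun t ht => ?_⟩
        rw [hcon w' hw' t w ht hww.symm, e1]
  have kp : c p = c z ∨ c p = c y := (key p hp).imp And.left And.left
  have kq : c q = c z ∨ c q = c y := (key q hq).imp And.left And.left
  have kr : c r = c z ∨ c r = c y := (key r hr).imp And.left And.left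
  rcases kp with e1 | e1 <;> rcases kq with e2 | e2 <;> rcases kr with e3 | e3 <;>
    first
      | exact h1 (e1.trans e2.symm)
      | exact h2 (e1.trans e3.symm)
      | exact h3 (e2.trans e3.symm)

/-- (c) -/
theorem all_two (S : Star H c) {z : V}
    (h : ∃ w, H.Reachable z w ∧ ∃ a b, H.Adj w a ∧ H.Adj w b ∧ c a ≠ c b) :
    ∀ w, H.Reachable z w → ∃ a b, H.Adj w a ∧ H.Adj w b ∧ c a ≠ c b := by
  obtain ⟨w0, hw0, hab⟩ := h
  intro w hw
  have hr : H.Reachable w0 w := hw0.symm.trans hw
  revert w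
  intro w _ hr
  refine reach_ind (P := fun w => ∃ a b, H.Adj w a ∧ H.Adj w b ∧ c a ≠ c b) hab ?_ w hr
  rintro q t - ⟨a, b, ha, hb, hne⟩ hqt
  by_cases hta : c t = c a
  · have htb : c t ≠ c b := by rw [hta]; exact hne
    have h1 : H.Adj t b := S.st q t b hqt hb htb
    exact ⟨q, b, hqt.symm, h1, S.ne _ _ hb⟩
  · have h1 : H.Adj t a := S.st q t a hqt ha hta
    exact ⟨q, a, hqt.symm, h1, S.ne _ _ ha⟩

/-- (d) -/
theorem three_step (S : Star H c) {p z w t : V}
    (hz : ∃ a b, H.Adj z a ∧ H.Adj z b ∧ c a ≠ c b)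
    (h1 : H.Adj p z) (h2 : H.Adj z w) (h3 : H.Adj w t) (hne : c p ≠ c t) : H.Adj p t := by
  by_cases hpw : c p = c w
  · by_cases hzt : c z = c t
    · obtain ⟨y, hy, hyp⟩ : ∃ y, H.Adj z y ∧ c y ≠ c p := by
        obtain ⟨a, b, ha, hb, hab⟩ := hz
        by_cases h : c a = c p
        · exact ⟨b, hb, fun h' => hab (h.trans h'.symm)⟩
        · exact ⟨a, ha, h⟩
      have hyp' : H.Adj y p := S.st z y p hy h1.symm hyp
      have hyw : H.Adj y w := S.st z y w hy h2 (by rw [← hpw]; exact hyp)
      have hyt : H.Adj y t := by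
        refine S.st w y t hyw.symm h3 ?_
        rw [← hzt]
        exact (S.ne _ _ hy).symm
      exact S.st y p t hyp' hyt hne
    · have hzt' : H.Adj z t := S.st w z t h2.symm h3 hzt
      exact S.st z p t h1.symm hzt' hne
  · have hpw' : H.Adj p w := S.st z p w h1.symm h2 hpw
    exact S.st w p t hpw'.symm h3 hne

/-- (e) -/
theorem complete (S : Star H c) {z : V}
    (h : ∀ w, H.Reachable z w → ∃ a b, H.Adj w a ∧ H.Adj w b ∧ c a ≠ c b)
    {p q : V} (hp : H.Reachable z p) (hq : H.Reachable z q) (hne : c p ≠ c q) : H.Adj p q := by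
  have hr : H.Reachable p q := hp.symm.trans hq
  have key : ∀ q, H.Reachable p q →
      (H.Adj p q ∨ (c q = c p ∧ (q = p ∨ ∃ y, H.Adj p y ∧ H.Adj y q))) := by
    apply reach_ind
    · exact Or.inr ⟨rfl, Or.inl rfl⟩
    · intro q q' hpq hP hqq
      rcases hP with h1 | ⟨h1, rfl | ⟨y, h2, h3⟩⟩
      · by_cases he : c q' = c p
        · exact Or.inr ⟨he, Or.inr ⟨q, h1, hqq⟩⟩
        · exact Or.inl (S.st q p q' h1.symm hqq (fun h => he h.symm))
      · exact Or.inl hqq
      · left
        have hy : H.Reachable z y := hp.trans h2.reachable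
        refine three_step S (h y hy) h2 h3 hqq ?_
        rw [← h1]
        exact S.ne _ _ hqq
  rcases key q hr with h1 | ⟨h1, _⟩
  · exact h1
  · exact absurd h1.symm hne

/-- Three classes in a component: complete multipartite. -/
theorem multipartite (S : Star H c) {z p q r : V} (hp : H.Reachable z p) (hq : H.Reachable z q)
    (hr : H.Reachable z r) (h1 : c p ≠ c q) (h2 : c p ≠ c r) (h3 : c q ≠ c r)
    {a b : V} (ha : H.Reachable z a) (hb : H.Reachable z b) (hne : c a ≠ c b) : H.Adj a b :=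
  complete S (all_two S (exists_two S hq hp hr h1 h2 h3)) ha hb hne

end

section
variable {V : Type} [Fintype V] {G : SimpleGraph V} {I : Finset V}

theorem mem_V1 {p : V} : p ∈ V1 G I ↔ p ∉ I ∧ (inb G I p).card = 1 := by
  simp [V1]

theorem mem_inb {p i : V} : i ∈ inb G I p ↔ i ∈ I ∧ G.Adj p i := by
  simp [inb]

theorem mem_cp {p q : V} : q ∈ cp G I p ↔ (G1 G I).Reachable p q := by
  simp [cp]

/-- The graph `G1` has the star property for the classes. -/
theorem star (hc : ClawFree G) : Star (G1 G I) (fun p => inb G I p) where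
  ne := fun p q h => h.2.2.2
  st := by
    intro z p q hp hq hne
    obtain ⟨hz1, hp1, hzp, hn1⟩ := hp
    obtain ⟨_, hq1, hzq, hn2⟩ := hq
    refine ⟨hp1, hq1, ?_, hne⟩
    obtain ⟨i, hi⟩ := Finset.card_eq_one.1 (mem_V1.1 hz1).2
    obtain ⟨j, hj⟩ := Finset.card_eq_one.1 (mem_V1.1 hp1).2
    obtain ⟨k, hk⟩ := Finset.card_eq_one.1 (mem_V1.1 hq1).2
    have hiI : i ∈ I ∧ G.Adj z i := mem_inb.1 (by rw [hi]; exact Finset.mem_singleton_self i)
    have hpi : ¬ G.Adj p i := by
      intro h
      have : i ∈ inb G I p := mem_inb.2 ⟨hiI.1, h⟩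
      rw [hj, Finset.mem_singleton] at this
      exact hn1 (by rw [hi, hj, this])
    have hqi : ¬ G.Adj q i := by
      intro h
      have : i ∈ inb G I q := mem_inb.2 ⟨hiI.1, h⟩
      rw [hk, Finset.mem_singleton] at this
      exact hn2 (by rw [hi, hk, this])
    have hip : i ≠ p := fun h => (mem_V1.1 hp1).1 (h ▸ hiI.1)
    have hiq : i ≠ q := fun h => (mem_V1.1 hq1).1 (h ▸ hiI.1)
    have hpq : p ≠ q := fun h => hne (by rw [h])
    rcases hc z i p q hiI.2 hzp hzq hip hiq hpq with h | h | h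
    · exact absurd h.symm hpi
    · exact absurd h.symm hqi
    · exact h

end

end Pool.Agent.Lib.MP4d044e.CMPM

namespace Pool.Agent.Lib.MP4d044e

open CMPM

theorem specCMP : SpecCMP := by
  intro V _ G I hc hI X hX
  obtain ⟨p0, hp0, rfl⟩ := Finset.mem_image.1 hX
  have hsub : ∀ q, (G1 G I).Reachable p0 q → q ∈ V1 G I :=
    reach_ind hp0 (fun q q' _ _ h => h.2.1)
  refine ⟨⟨fun q hq => hsub q (mem_cp.1 hq), ⟨p0, mem_cp.2 (SimpleGraph.Reachable.refl _)⟩,
    fun p hp q hpq => mem_cp.2 ((mem_cp.1 hp).trans hpq.reachable), ?_⟩, ?_⟩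
  · intro Y hY hne
    obtain ⟨p1, hp1, rfl⟩ := Finset.mem_image.1 hY
    by_contra hcon
    obtain ⟨q, hq⟩ := Finset.nonempty_iff_ne_empty.2 hcon
    have h1 : (G1 G I).Reachable p0 q := mem_cp.1 (Finset.mem_inter.1 hq).1
    have h2 : (G1 G I).Reachable p1 q := mem_cp.1 (Finset.mem_inter.1 hq).2
    apply hne
    ext r
    rw [mem_cp, mem_cp]
    exact ⟨fun h => (h1.trans h2.symm).trans h, fun h => (h2.trans h1.symm).trans h⟩
  · by_cases hcard : (cp G I p0).card = 1
    · exact Or.inl hcard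
    right
    have hpos : 0 < (cp G I p0).card :=
      Finset.card_pos.2 ⟨p0, mem_cp.2 (SimpleGraph.Reachable.refl _)⟩
    have h2 : 2 ≤ (cp G I p0).card := by omega
    have hnb : ∀ p ∈ cp G I p0, ∃ q, (G1 G I).Adj p q := by
      intro p hp
      obtain ⟨q, hq, hqp⟩ := Finset.exists_mem_ne (show 1 < (cp G I p0).card by omega) p
      have hr : (G1 G I).Reachable p q := (mem_cp.1 hp).symm.trans (mem_cp.1 hq)
      obtain ⟨w⟩ := hr
      cases w with
      | nil => exact absurd rfl hqp
      | cons h _ => exact ⟨_, h⟩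
    by_cases h3 : ∃ p ∈ cp G I p0, ∃ q ∈ cp G I p0, ∃ r ∈ cp G I p0,
        inb G I p ≠ inb G I q ∧ inb G I p ≠ inb G I r ∧ inb G I q ≠ inb G I r
    · right
      refine ⟨?_, h3⟩
      obtain ⟨p, hp, q, hq, r, hr, e1, e2, e3⟩ := h3
      intro a ha b hb hne
      exact multipartite (star hc) (mem_cp.1 hp) (mem_cp.1 hq) (mem_cp.1 hr) e1 e2 e3
        (mem_cp.1 ha) (mem_cp.1 hb) hne
    · left
      refine ⟨h2, ?_, hnb⟩
      have hp0' : p0 ∈ cp G I p0 := mem_cp.2 (SimpleGraph.Reachable.refl _)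
      obtain ⟨q, hq⟩ := hnb p0 hp0'
      have hq' : q ∈ cp G I p0 := mem_cp.2 hq.reachable
      obtain ⟨i, hi⟩ := Finset.card_eq_one.1 (mem_V1.1 hp0).2
      obtain ⟨j, hj⟩ := Finset.card_eq_one.1 (mem_V1.1 hq.2.1).2
      have hne : inb G I p0 ≠ inb G I q := hq.2.2.2
      refine ⟨i, (mem_inb.1 (by rw [hi]; exact Finset.mem_singleton_self i)).1, j,
        (mem_inb.1 (by rw [hj]; exact Finset.mem_singleton_self j)).1, ?_, ?_⟩
      · intro hij
        exact hne (by rw [hi, hj, hij])
      · intro r hr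
        by_contra hcon
        push Not at hcon
        refine h3 ⟨p0, hp0', q, hq', r, hr, hne, ?_, ?_⟩
        · rw [hi]
          exact fun h => hcon.1 h.symm
        · rw [hj]
          exact fun h => hcon.2 h.symm

end Pool.Agent.Lib.MP4d044e
end

section
/-!
# MP_4d044e_co, claw-free graphs: module CN1 (the connected case)
-/
open Classical Finset

namespace Pool.Agent.Lib.MP4d044e

namespace CN1M

theorem exists_maxInd {V : Type} [Fintype V] (G : SimpleGraph V) : ∃ I : Finset V, MaxInd G I := by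
  obtain ⟨I, hI, hmax⟩ := Finset.exists_max_image
    (univ.filter fun I : Finset V => ∀ v ∈ I, ∀ w ∈ I, ¬ G.Adj v w) (fun I => I.card)
    ⟨∅, by simp⟩
  rw [mem_filter] at hI
  refine ⟨I, hI.2, ?_⟩
  intro v hv
  by_contra hcon
  push Not at hcon
  have h1 : insert v I ∈ univ.filter fun I : Finset V => ∀ v ∈ I, ∀ w ∈ I, ¬ G.Adj v w := by
    rw [mem_filter]
    refine ⟨mem_univ _, ?_⟩
    intro a ha b hb hab
    rw [mem_insert] at ha hb
    rcases ha with rfl | ha <;> rcases hb with rfl | hb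
    · exact hab.ne rfl
    · exact hcon b hb hab
    · exact hcon a ha hab.symm
    · exact hI.2 a ha b hb hab
  have h2 := hmax _ h1
  rw [card_insert_of_notMem hv] at h2
  omega

end CN1M

open CN1M in
theorem specCN1 (hBLK : SpecBLK) (hINE : SpecINE) (hMST : SpecMST) (hFRG : SpecFRG)
    (hSUM : SpecSUM) (hCON : SpecCON) : SpecCN1 := by
  intro V _ G d k hd hk hconn hcf hdeg
  obtain ⟨I, hI⟩ := exists_maxInd G
  obtain ⟨hBS, hn1, hind, -, -⟩ := hBLK V G I d (by omega) hcf hI hdeg
  have hBc := hCON V (Nd G I) G (W G I) (2 * d) hconn hBS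
  obtain ⟨F, hF, hFt, hFm⟩ := hMST (Nd G I) (BG (W G I))
    (fun x y => (W G I x ∩ W G I y).card) hBc (fun x y => by rw [inter_comm])
  obtain ⟨M, hM1, hM2, hM3⟩ := hSUM V (Nd G I) G (W G I) F (2 * d) hBS hFt hF hFm
  obtain ⟨S, hS, hSk⟩ := hFRG V (Nd G I) G (W G I) F (2 * d) k hk hBS hFt hF
  refine ⟨S, hS, ?_⟩
  have hA := hM3 (univ.map ⟨Sum.inr, Sum.inr_injective⟩) (by
    intro x hx y hy
    simp only [mem_map, mem_univ, true_and, Function.Embedding.coeFn_mk] at hx hy
    obtain ⟨X, rfl⟩ := hx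
    obtain ⟨Y, rfl⟩ := hy
    exact hind X Y)
  rw [sum_map] at hA
  simp only [Function.Embedding.coeFn_mk] at hA
  have hmain := hINE V G I d hd hcf hI hdeg (M : ℝ) (by exact_mod_cast hA) (by exact_mod_cast hM2)
  have hn2 : n2 (W G I) F ≤ Fintype.card V := card_le_univ _
  have hk0 : (0 : ℝ) < k := by exact_mod_cast hk
  have h1 : (n2 (W G I) F : ℝ) + 1 = M + Fintype.card (Nd G I) := by exact_mod_cast hM1
  have h2 : (k : ℝ) * ((n1 (W G I) : ℝ) + n2 (W G I) F) ≤ k * S.card + n2 (W G I) F := by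
    exact_mod_cast hSk
  have h3 : (n2 (W G I) F : ℝ) ≤ Fintype.card V := by exact_mod_cast hn2
  rw [hn1] at h2
  have h4 : phi (d + 2) * (Fintype.card V : ℝ) ≤ (I.card : ℝ) + n2 (W G I) F + 1 := by linarith
  have h5 : (I.card : ℝ) + n2 (W G I) F ≤ S.card + (Fintype.card V : ℝ) / k := by
    have h6 : (k : ℝ) * ((I.card : ℝ) + n2 (W G I) F) ≤
        k * (S.card + (Fintype.card V : ℝ) / k) := by
      have h7 : (k : ℝ) * (S.card + (Fintype.card V : ℝ) / k) = k * S.card + Fintype.card V := by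
        field_simp
      rw [h7]; linarith
    exact le_of_mul_le_mul_left h6 hk0
  linarith

end Pool.Agent.Lib.MP4d044e
end

section
/-!
# MP_4d044e_co, module CON (the file name CON is reserved): the block graph is connected
-/
open Classical Finset

namespace Pool.Agent.Lib.MP4d044e

namespace CONM

variable {V Z : Type} [Fintype Z] {G : SimpleGraph V} {W : Z → Finset V} {D : ℕ}

/-- Two blocks of the same vertex are reachable from each other. -/
theorem same (v : V) (x y : Z) (hx : v ∈ W x) (hy : v ∈ W y) : (BG W).Reachable x y := by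
  by_cases h : x = y
  · subst h
    exact SimpleGraph.Reachable.refl x
  · exact SimpleGraph.Adj.reachable ⟨h, v, Finset.mem_inter.2 ⟨hx, hy⟩⟩

theorem walk [Fintype V] (h : BS G W D) : ∀ {v w : V}, G.Walk v w → ∀ x y : Z, v ∈ W x → w ∈ W y →
    (BG W).Reachable x y := by
  intro v w p
  induction p with
  | nil => exact fun x y hx hy => same _ x y hx hy
  | cons hadj _ ih =>
    intro x y hx hy
    obtain ⟨z, hz1, hz2⟩ := h.edge _ _ hadj
    exact (same _ x z hx hz1).trans (ih z y hz2 hy)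

end CONM

open CONM in
theorem specCON : SpecCON := by
  intro V Z _ _ G W D hG h
  have hp := hG.preconnected
  have hnz : Nonempty Z := by
    obtain ⟨v⟩ := hG.nonempty
    have h1 := h.one v
    obtain ⟨z, -⟩ := Finset.card_pos.1 (Nat.lt_of_lt_of_le Nat.zero_lt_one h1)
    exact ⟨z⟩
  have := hnz
  refine ⟨?_⟩
  intro x y
  obtain ⟨v, hv⟩ := h.ne x
  obtain ⟨w, hw⟩ := h.ne y
  obtain ⟨p⟩ := hp v w
  exact walk h p x y hv hw

end Pool.Agent.Lib.MP4d044e
end

section
/-!
# MP_4d044e_co, module COR: counting in systems of large girth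
-/
open Classical Finset

namespace Pool.Agent.Lib.MP4d044e

theorem COR_erase {E X : Type} (A : E → X) {S : Finset E} {e : E} (he : e ∈ S)
    (h : ∀ e' ∈ S, A e' = A e → e' = e) :
    ((S.erase e).image A).card + 1 ≤ (S.image A).card := by
  have h1 : A e ∉ (S.erase e).image A := by
    rw [Finset.mem_image]
    rintro ⟨e', he', hA⟩
    rw [Finset.mem_erase] at he'
    exact he'.1 (h e' he'.2 hA)
  have h2 : insert (A e) ((S.erase e).image A) ⊆ S.image A := by
    intro x hx
    rw [Finset.mem_insert] at hx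
    rcases hx with rfl | hx
    · exact Finset.mem_image_of_mem _ he
    · exact Finset.image_subset_image (Finset.erase_subset _ _) hx
  have h3 := Finset.card_le_card h2
  rwa [Finset.card_insert_of_notMem h1] at h3

theorem COR_core (hRED : SpecRED) {E X Y : Type} (A : E → X) (B : E → Y) (g C : ℕ)
    (hG : Gir A B g) (hC : C ≤ 2 * g) (α : Type) (l : E → α) :
    ∀ n : ℕ, ∀ S : Finset E, S.card = n → (∀ v ∈ S, ∀ w ∈ S, (LG A B).Adj v w → l v = l w) →
      (∀ x : α, (S.filter fun v => l v = x).card ≤ C) →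
      S.card ≤ (S.image A).card + (S.image B).card := by
  intro n
  induction n with
  | zero =>
    intro S hS _ _
    omega
  | succ n ih =>
    intro S hS hl hc
    have hstep : ∀ e ∈ S, (S.erase e).card ≤
        ((S.erase e).image A).card + ((S.erase e).image B).card := by
      intro e he
      refine ih _ ?_ ?_ ?_
      · rw [Finset.card_erase_of_mem he]
        omega
      · intro v hv w hw
        exact hl v (Finset.mem_of_mem_erase hv) w (Finset.mem_of_mem_erase hw)
      · intro x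
        refine le_trans (Finset.card_le_card ?_) (hc x)
        exact Finset.filter_subset_filter _ (Finset.erase_subset _ _)
    by_cases h1 : ∃ e ∈ S, ∀ e' ∈ S, A e' = A e → e' = e
    · obtain ⟨e, he, h⟩ := h1
      have a1 := COR_erase A he h
      have a2 := hstep e he
      have a3 : ((S.erase e).image B).card ≤ (S.image B).card :=
        Finset.card_le_card (Finset.image_subset_image (Finset.erase_subset _ _))
      have a4 := Finset.card_erase_of_mem he
      omega
    by_cases h2 : ∃ e ∈ S, ∀ e' ∈ S, B e' = B e → e' = e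
    · obtain ⟨e, he, h⟩ := h2
      have a1 := COR_erase B he h
      have a2 := hstep e he
      have a3 : ((S.erase e).image A).card ≤ (S.image A).card :=
        Finset.card_le_card (Finset.image_subset_image (Finset.erase_subset _ _))
      have a4 := Finset.card_erase_of_mem he
      omega
    exfalso
    push Not at h1 h2
    choose! fa fa1 fa2 fa3 using h1
    choose! fb fb1 fb2 fb3 using h2
    obtain ⟨e0, he0⟩ : S.Nonempty := by
      rw [← Finset.card_pos]
      omega
    let s : ℕ → E := fun k => Nat.rec e0 (fun k e => if Even k then fa e else fb e) k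
    have hs1 : ∀ k, s (k + 1) = if Even k then fa (s k) else fb (s k) := fun k => rfl
    have hsS : ∀ k, s k ∈ S := by
      intro k
      induction k with
      | zero => exact he0
      | succ k ihk =>
        rw [hs1]
        split_ifs
        · exact fa1 _ ihk
        · exact fb1 _ ihk
    have hRW : RW A B s := by
      intro i
      rw [hs1]
      refine ⟨?_, ?_, ?_⟩
      · split_ifs
        · exact (fa3 _ (hsS i)).symm
        · exact (fb3 _ (hsS i)).symm
      · intro hE
        rw [if_pos hE]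
        exact (fa2 _ (hsS i)).symm
      · intro hO
        rw [if_neg (Nat.not_even_iff_odd.2 hO)]
        exact (fb2 _ (hsS i)).symm
    have hlab : ∀ k, l (s k) = l (s 0) := by
      intro k
      induction k with
      | zero => rfl
      | succ k ihk =>
        rw [← ihk]
        refine (hl _ (hsS k) _ (hsS (k + 1)) ⟨(hRW k).1, ?_⟩).symm
        rcases Nat.even_or_odd k with hk | hk
        · exact Or.inl ((hRW k).2.1 hk)
        · exact Or.inr ((hRW k).2.2 hk)
    have hcard : (S.filter fun v => l v = l (s 0)).card < (Finset.range (C + 1)).card := by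
      rw [Finset.card_range]
      have := hc (l (s 0))
      omega
    obtain ⟨i, hi, j, hj, hij, heq⟩ := Finset.exists_ne_map_eq_of_card_lt_of_maps_to hcard
      (f := s) (fun k _ => Finset.mem_filter.2 ⟨hsS k, hlab k⟩)
    rw [Finset.mem_range] at hi hj
    rcases lt_or_gt_of_ne hij with hlt | hlt
    · exact hRED E X Y A B g hG s hRW i j hlt (by omega) heq
    · exact hRED E X Y A B g hG s hRW j i hlt (by omega) heq.symm

theorem specCOR (hRED : SpecRED) : SpecCOR := by
  rintro E X Y _ _ _ A B g C hG hC S ⟨α, l, hl, hc⟩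
  refine (COR_core hRED A B g C hG hC α l S.card S rfl hl hc).trans ?_
  exact Nat.add_le_add (Finset.card_le_univ _) (Finset.card_le_univ _)

end Pool.Agent.Lib.MP4d044e
end

section
/-!
# MP_4d044e_co, claw-free graphs: COV (the cover)
-/
open Classical Finset

namespace Pool.Agent.Lib.MP4d044e

theorem specCOV (hRED : SpecRED) : SpecCOV := by
  intro E X Y _ A B a b g hG hA hB
  refine ⟨?_, ?_, ?_⟩
  · intro s' hs' m hm1 hm2 hper
    -- the projections
    set s : ℕ → E := fun i => (s' i).1 with hs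
    set h : ℕ → E → ZMod 2 := fun i => (s' i).2 with hh
    have heven : ∀ i, Even i → A (s i) = A (s (i + 1)) ∧ h i = h (i + 1) := by
      intro i hi
      have hi' := (hs' i).2.1 hi
      have h1 : (A (s' i).1, (s' i).2) = (A (s' (i + 1)).1, (s' (i + 1)).2) := hi'
      rw [Prod.mk.injEq] at h1
      exact h1
    have hodd : ∀ i, Odd i → B (s i) = B (s (i + 1)) ∧
        h i + Pi.single (s i) 1 = h (i + 1) + Pi.single (s (i + 1)) 1 := by
      intro i hi
      have hi' := (hs' i).2.2 hi
      have h1 : (B (s' i).1, (s' i).2 + Pi.single (s' i).1 1) =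
        (B (s' (i + 1)).1, (s' (i + 1)).2 + Pi.single (s' (i + 1)).1 1) := hi'
      rw [Prod.mk.injEq] at h1
      exact h1
    have hne : ∀ i, s i ≠ s (i + 1) := by
      intro i he
      apply (hs' i).1
      apply Prod.ext he
      rcases Nat.even_or_odd i with hi | hi
      · exact (heven i hi).2
      · have := (hodd i hi).2
        rw [he] at this
        exact add_right_cancel this
    have hRW : RW A B s := fun i => ⟨hne i, fun hi => (heven i hi).1, fun hi => (hodd i hi).1⟩
    have hsper : ∀ i, s (i + 2 * m) = s i := fun i => congrArg Prod.fst (hper i)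
    have hhper : ∀ i, h (i + 2 * m) = h i := fun i => congrArg Prod.snd (hper i)
    have hmg : m = g + 1 := by
      by_contra hc
      exact hG s hRW m hm1 (by omega) hsper
    -- `e = s (2 m)` occurs only at the end
    have hdist : ∀ i, 1 ≤ i → i < 2 * m → s i ≠ s (2 * m) := by
      intro i h1 h2
      rcases Nat.lt_or_ge i 2 with h3 | h3
      · have hi : i = 1 := by omega
        subst hi
        intro he
        have h4 := hsper 1
        have h5 := hne (2 * m)
        rw [show 1 + 2 * m = 2 * m + 1 by ring] at h4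
        rw [h4] at h5
        exact h5 he.symm
      · exact hRED E X Y A B g hG s hRW i (2 * m) h2 (by omega)
    -- the coordinate `e`
    have hstep : ∀ k, h (2 * (k + 1)) (s (2 * m)) = h (2 * k) (s (2 * m)) +
        ((if s (2 * k + 1) = s (2 * m) then 1 else 0) +
          (if s (2 * k + 2) = s (2 * m) then 1 else 0)) := by
      intro k
      have h1 := (heven (2 * k) (even_two_mul k)).2
      have h2 := (hodd (2 * k + 1) (odd_two_mul_add_one k)).2
      have h3 := congrFun h2 (s (2 * m))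
      rw [Pi.add_apply, Pi.add_apply, Pi.single_apply, Pi.single_apply, ← h1] at h3
      rw [show 2 * (k + 1) = 2 * k + 1 + 1 by ring, show 2 * k + 2 = 2 * k + 1 + 1 by ring]
      have h4 : ∀ z : ZMod 2, z + z = 0 := by decide
      have h5 : h (2 * k + 1 + 1) (s (2 * m)) = h (2 * k + 1 + 1) (s (2 * m)) +
          ((if s (2 * m) = s (2 * k + 1 + 1) then 1 else 0) +
            (if s (2 * m) = s (2 * k + 1 + 1) then 1 else 0)) := by
        rw [h4, add_zero]
      rw [h5, ← add_assoc, ← h3]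
      simp only [eq_comm (a := s (2 * m)), add_assoc]
    have hconst : ∀ k, k + 1 ≤ m → h (2 * k) (s (2 * m)) = h 0 (s (2 * m)) := by
      intro k
      induction k with
      | zero => intro _; rfl
      | succ k ih =>
        intro hk
        rw [hstep k, ih (by omega), if_neg (hdist _ (by omega) (by omega)),
          if_neg (hdist _ (by omega) (by omega)), add_zero, add_zero]
    obtain ⟨k, rfl⟩ : ∃ k, m = k + 1 := ⟨m - 1, by omega⟩
    have h1 := hstep k
    rw [hconst k le_rfl, if_neg (hdist _ (by omega) (by omega)),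
      if_pos (by rw [show 2 * k + 2 = 2 * (k + 1) by ring]), zero_add] at h1
    have h2 := congrFun (hhper 0) (s (2 * (k + 1)))
    rw [zero_add, h1] at h2
    have h3 : ∀ z : ZMod 2, z + 1 ≠ z := by decide
    exact h3 _ h2
  · rintro ⟨x, φ⟩
    rw [← hA x]
    refine Finset.card_nbij' (fun p => p.1) (fun e => (e, φ)) ?_ ?_ ?_ ?_
    · intro p hp
      simp only [Finset.coe_filter, Finset.mem_univ, true_and, Set.mem_ofPred_eq, cA,
        Prod.mk.injEq] at hp ⊢
      exact hp.1
    · intro e he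
      simp only [Finset.coe_filter, Finset.mem_univ, true_and, Set.mem_ofPred_eq, cA,
        Prod.mk.injEq] at he ⊢
      exact ⟨he, trivial⟩
    · rintro ⟨e, ψ⟩ hp
      simp only [Finset.coe_filter, Finset.mem_univ, true_and, Set.mem_ofPred_eq, cA,
        Prod.mk.injEq] at hp
      change (e, φ) = (e, ψ)
      rw [hp.2]
    · intro e _
      rfl
  · rintro ⟨y, φ⟩
    rw [← hB y]
    refine Finset.card_nbij' (fun p => p.1) (fun e => (e, φ - Pi.single e 1)) ?_ ?_ ?_ ?_
    · intro p hp
      simp only [Finset.coe_filter, Finset.mem_univ, true_and, Set.mem_ofPred_eq, cB,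
        Prod.mk.injEq] at hp ⊢
      exact hp.1
    · intro e he
      simp only [Finset.coe_filter, Finset.mem_univ, true_and, Set.mem_ofPred_eq, cB,
        Prod.mk.injEq] at he ⊢
      exact ⟨he, sub_add_cancel _ _⟩
    · rintro ⟨e, ψ⟩ hp
      simp only [Finset.coe_filter, Finset.mem_univ, true_and, Set.mem_ofPred_eq, cB,
        Prod.mk.injEq] at hp
      change (e, φ - Pi.single e 1) = (e, ψ)
      rw [← hp.2, add_sub_cancel_right]
    · intro e _
      rfl

end Pool.Agent.Lib.MP4d044e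
end

section
/-!
# MP_4d044e_co, claw-free graphs: module CUT (cutting a rooted tree)
-/
set_option autoImplicit false

open Classical Finset

namespace Pool.Agent.Lib.MP4d044e

namespace CUTM

theorem geo (D k : ℕ) : ∑ j ∈ range k, D ^ j ≤ (D + 1) ^ k := by
  induction k with
  | zero => simp
  | succ k ih =>
    rw [Finset.sum_range_succ']
    have h1 : ∑ j ∈ range k, D ^ (j + 1) = D * ∑ j ∈ range k, D ^ j := by
      rw [Finset.mul_sum]
      exact Finset.sum_congr rfl fun j _ => by ring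
    rw [h1, pow_zero]
    have h2 : 1 ≤ (D + 1) ^ k := Nat.one_le_pow _ _ (by omega)
    have h3 : D * ∑ j ∈ range k, D ^ j ≤ D * (D + 1) ^ k := Nat.mul_le_mul_left _ ih
    have h4 : (D + 1) ^ (k + 1) = D * (D + 1) ^ k + (D + 1) ^ k := by ring
    omega

theorem level {Z : Type} [Fintype Z] (r : Z) (par : Z → Z) (h : Z → ℕ) (D : ℕ)
    (h0 : h r = 0) (h1 : ∀ z, z ≠ r → h z = h (par z) + 1)
    (hD : ∀ x, (univ.filter fun z => z ≠ r ∧ par z = x).card ≤ D) (j : ℕ) :
    ∀ t, (univ.filter fun z => j ≤ h z ∧ par^[j] z = t).card ≤ D ^ j := by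
  induction j with
  | zero =>
    intro t
    have e : (univ.filter fun z => 0 ≤ h z ∧ par^[0] z = t) ⊆ {t} := by
      intro z hz
      simpa using hz
    simpa using Finset.card_le_card e
  | succ j ih =>
    intro t
    have e : (univ.filter fun z => j + 1 ≤ h z ∧ par^[j + 1] z = t) ⊆
        (univ.filter fun y => j ≤ h y ∧ par^[j] y = t).biUnion
          (fun y => univ.filter fun z => z ≠ r ∧ par z = y) := by
      intro z hz
      rw [Finset.mem_filter] at hz
      have hz1 : z ≠ r := by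
        intro hzr
        rw [hzr, h0] at hz
        omega
      rw [Finset.mem_biUnion]
      refine ⟨par z, ?_, ?_⟩
      · rw [Finset.mem_filter]
        refine ⟨mem_univ _, ?_, ?_⟩
        · have := h1 z hz1
          omega
        · rw [← Function.iterate_succ_apply]
          exact hz.2.2
      · rw [Finset.mem_filter]
        exact ⟨mem_univ _, hz1, rfl⟩
    calc _ ≤ _ := Finset.card_le_card e
      _ ≤ (univ.filter fun y => j ≤ h y ∧ par^[j] y = t).card * D :=
        Finset.card_biUnion_le_card_mul _ _ _ (fun y _ => hD y)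
      _ ≤ D ^ j * D := Nat.mul_le_mul_right _ (ih t)
      _ = D ^ (j + 1) := by ring

end CUTM

open CUTM in
theorem specCUT : SpecCUT := by
  intro Z _ r par h m D k hk h0 h1 hD
  -- the choice of the residue
  have hρ : ∃ ρ ∈ range k, k * ∑ z ∈ (univ.erase r).filter (fun z => h z % k = ρ), m z ≤
      ∑ z ∈ univ.erase r, m z := by
    apply Finset.exists_le_of_sum_le (s := range k)
      (f := fun ρ => k * ∑ z ∈ (univ.erase r).filter (fun z => h z % k = ρ), m z)
      (g := fun _ => ∑ z ∈ univ.erase r, m z)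
    · exact ⟨0, by simp; omega⟩
    · rw [← Finset.mul_sum, Finset.sum_fiberwise_of_maps_to]
      · simp
      · intro z _
        exact mem_range.2 (Nat.mod_lt _ (by omega))
  obtain ⟨ρ, hρk, hρs⟩ := hρ
  rw [mem_range] at hρk
  refine ⟨(univ.erase r).filter (fun z => h z % k = ρ),
    fun z => par^[min (h z) ((h z + k - ρ) % k)] z, ?_, ?_, ?_, hρs⟩
  · simp
  · intro z hz hzR
    have hz2 : h z % k ≠ ρ := by
      intro e
      apply hzR
      rw [mem_filter, mem_erase]
      exact ⟨⟨hz, mem_univ _⟩, e⟩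
    have hz3 := h1 z hz
    -- residues
    have hm : (h z + k - ρ) % k = (h (par z) + k - ρ) % k + 1 := by
      have e1 : h z + k - ρ = (h (par z) + k - ρ) + 1 := by omega
      rw [e1]
      have hlt : (h (par z) + k - ρ) % k < k := Nat.mod_lt _ (by omega)
      rw [Nat.add_mod]
      by_cases hk1 : k = 1
      · exfalso
        subst hk1
        apply hz2
        omega
      · have e2 : 1 % k = 1 := Nat.mod_eq_of_lt (by omega)
        rw [e2]
        by_cases h4 : (h (par z) + k - ρ) % k + 1 < k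
        · exact Nat.mod_eq_of_lt h4
        · exfalso
          apply hz2
          have h5 : (h (par z) + k - ρ) % k + 1 = k := by omega
          -- then k divides h z + k - ρ
          have h6 : (h z + k - ρ) % k = 0 := by
            rw [e1, Nat.add_mod, e2, h5, Nat.mod_self]
          have h7 : k ∣ h z + k - ρ := Nat.dvd_of_mod_eq_zero h6
          obtain ⟨q, hq⟩ := h7
          have h8 : h z + k = k * q + ρ := by omega
          have h9 : (h z + k) % k = ρ := by
            rw [h8, Nat.mul_add_mod]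
            exact Nat.mod_eq_of_lt hρk
          rwa [Nat.add_mod_right] at h9
    have hj : min (h z) ((h z + k - ρ) % k) =
        min (h (par z)) ((h (par z) + k - ρ) % k) + 1 := by
      rw [hm, hz3]
      omega
    simp only
    rw [hj, Function.iterate_succ_apply]
  · intro t
    have e : (univ.filter fun z => par^[min (h z) ((h z + k - ρ) % k)] z = t) ⊆
        (range k).biUnion (fun j => univ.filter fun z => j ≤ h z ∧ par^[j] z = t) := by
      intro z hz
      rw [mem_filter] at hz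
      rw [mem_biUnion]
      refine ⟨min (h z) ((h z + k - ρ) % k), ?_, ?_⟩
      · rw [mem_range]
        exact lt_of_le_of_lt (min_le_right _ _) (Nat.mod_lt _ (by omega))
      · rw [mem_filter]
        exact ⟨mem_univ _, min_le_left _ _, hz.2⟩
    calc _ ≤ _ := Finset.card_le_card e
      _ ≤ ∑ j ∈ range k, (univ.filter fun z => j ≤ h z ∧ par^[j] z = t).card :=
        Finset.card_biUnion_le
      _ ≤ ∑ j ∈ range k, D ^ j :=
        Finset.sum_le_sum fun j _ => level r par h D h0 h1 hD j t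
      _ ≤ (D + 1) ^ k := geo D k

end Pool.Agent.Lib.MP4d044e
end

section
/-!
# MP_4d044e_co, module DEF: the deficit of a component
-/
open Classical Finset

namespace Pool.Agent.Lib.MP4d044e

namespace DEFM

variable {V : Type} [Fintype V]

/-- The `G1`-degree. -/
noncomputable def u1 (G : SimpleGraph V) (I : Finset V) (p : V) : ℕ :=
  (univ.filter fun q => (G1 G I).Adj p q).card

/-- The class of `p` in `X`. -/
noncomputable def cl (G : SimpleGraph V) (I : Finset V) (X : Finset V) (p : V) : ℕ :=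
  (X.filter fun q => inb G I q = inb G I p).card

/-- The inner sum. -/
noncomputable def T (G : SimpleGraph V) (I : Finset V) (p : V) : ℝ :=
  ∑ i ∈ inb G I p, 1 / ((cm G i p : ℝ) + 2)

theorem T_eq (hDGR : SpecDGR) (G : SimpleGraph V) (I : Finset V) (hc : ClawFree G)
    (hI : MaxInd G I) (p : V) (hp : p ∈ V1 G I) :
    ∃ a : ℕ, a + u1 G I p = dg G p + 1 ∧ 2 ≤ a ∧ T G I p = 1 / (a : ℝ) := by
  obtain ⟨_, i, hi, hpi, hin⟩ := BLKM.V1_inb G I p hp
  have h := (hDGR V G I hc hI).2.2.2 p hp i hi hpi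
  refine ⟨cm G i p + 2, ?_, by omega, ?_⟩
  · unfold u1
    omega
  · unfold T
    rw [hin, Finset.sum_singleton]
    push_cast
    rfl

theorem sz_ge {Z : Type} [Fintype Z] (W : Z → Finset V) (z y : Z) (h : y ≠ z) :
    (W z ∩ W y).card - 1 ≤ sz W z := by
  unfold sz
  have h1 := Finset.le_sup (f := fun y : Z => if y = z then 0 else (W z ∩ W y).card - 1)
    (Finset.mem_univ y)
  simp only [if_neg h] at h1
  exact h1

theorem cl_le (hBLK : SpecBLK) (G : SimpleGraph V) (I : Finset V) (d : ℕ) (h1d : 1 ≤ d)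
    (hc : ClawFree G) (hI : MaxInd G I) (hd : ∀ v, dg G v ≤ d) (X : {X // X ∈ UU G I})
    (i : V) (hi : i ∈ I) :
    (X.1.filter fun q => inb G I q = {i}).card ≤ sz (W G I) (Sum.inr X) + 1 := by
  have h : W G I (Sum.inr X) ∩ W G I (Sum.inl ⟨i, hi⟩) = X.1.filter fun q => inb G I q = {i} :=
    (hBLK V G I d h1d hc hI hd).2.2.2.2 ⟨i, hi⟩ X
  have h2 := sz_ge (W G I) (Sum.inr X) (Sum.inl ⟨i, hi⟩) (by intro h'; cases h')
  rw [h] at h2
  omega

end DEFM

theorem specDEF (hPHI : SpecPHI) (hDGR : SpecDGR) (hCMP : SpecCMP) (hBLK : SpecBLK) : SpecDEF := by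
  intro V _ G I d h4 hc hI hd X
  obtain ⟨hP1, hP2, hP3, hP4, _, _⟩ := hPHI
  obtain ⟨hd0, hd1, hfd, hf1, hk1, hk2⟩ := hP4 d h4
  obtain ⟨⟨hXV, hXne, hXcl, _⟩, hcase⟩ := hCMP V G I hc hI X.1 X.2
  have h1d : 1 ≤ d := by omega
  set s := sz (W G I) (Sum.inr X) with hs
  have hs0 : (0 : ℝ) ≤ (s : ℝ) := Nat.cast_nonneg s
  have hdd : (0 : ℝ) ≤ (d : ℝ) * dl d := mul_nonneg (Nat.cast_nonneg d) hd0
  have hhalf : (0 : ℝ) ≤ 1 - d * dl d / 2 := by linarith
  have hhs : (0 : ℝ) ≤ (1 - d * dl d / 2) * (s : ℝ) := mul_nonneg hhalf hs0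
  change phi (d + 2) * (X.1.card : ℝ) ≤ (∑ p ∈ X.1, DEFM.T G I p) + 1 + (1 - d * dl d / 2) * (s : ℝ)
  rcases hcase with h | ⟨h2, ⟨i, hi, j, hj, hij, hcl⟩, hnb⟩ | ⟨hadj, p, hp, q, hq, r, hr, hpq, hpr, hqr⟩
  · -- one element
    obtain ⟨p, hp⟩ := Finset.card_eq_one.1 h
    have hpX : p ∈ X.1 := by rw [hp]; simp
    obtain ⟨a, ha, ha2, hT⟩ := DEFM.T_eq hDGR G I hc hI p (hXV hpX)
    have hu : DEFM.u1 G I p = 0 := by
      unfold DEFM.u1
      rw [Finset.card_eq_zero, Finset.filter_eq_empty_iff]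
      intro q _ hq
      have h3 := hXcl p hpX q hq
      rw [hp, mem_singleton] at h3
      rw [h3] at hq
      exact (G1 G I).loopless.irrefl p hq
    rw [h, hp, Finset.sum_singleton, hT]
    have h5 := hP1 a 1 (by omega) (le_refl 1)
    have h6 := (hP2 (a + 1) (d + 2) (by omega) (by have := hd p; omega)).1
    simp only [Nat.cast_one, div_one] at h5
    push_cast
    linarith
  · -- two classes
    have hT : ∀ p ∈ X.1, 1 / (d : ℝ) ≤ DEFM.T G I p := by
      intro p hp
      obtain ⟨a, ha, ha2, hT⟩ := DEFM.T_eq hDGR G I hc hI p (hXV hp)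
      obtain ⟨q, hq⟩ := hnb p hp
      have hu : 1 ≤ DEFM.u1 G I p := by
        unfold DEFM.u1
        exact Finset.card_pos.2 ⟨q, by simpa using hq⟩
      have h5 := hd p
      have had : a ≤ d := by omega
      rw [hT]
      apply one_div_le_one_div_of_le
      · have : (0 : ℕ) < a := by omega
        exact_mod_cast this
      · exact_mod_cast had
    have hsum : (X.1.card : ℝ) * (1 / (d : ℝ)) ≤ ∑ p ∈ X.1, DEFM.T G I p := by
      have := Finset.card_nsmul_le_sum X.1 (DEFM.T G I) (1 / (d : ℝ)) hT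
      rwa [nsmul_eq_mul] at this
    have hcard : X.1.card ≤ 2 * (s + 1) := by
      have h5 := DEFM.cl_le hBLK G I d h1d hc hI hd X i hi
      have h6 := DEFM.cl_le hBLK G I d h1d hc hI hd X j hj
      have h7 : X.1 ⊆ (X.1.filter fun q => inb G I q = {i}) ∪
          (X.1.filter fun q => inb G I q = {j}) := by
        intro x hx
        simp only [mem_union, mem_filter]
        rcases hcl x hx with h | h
        · exact Or.inl ⟨hx, h⟩
        · exact Or.inr ⟨hx, h⟩
      have h8 := Finset.card_le_card h7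
      have h9 := Finset.card_union_le (X.1.filter fun q => inb G I q = {i})
          (X.1.filter fun q => inb G I q = {j})
      omega
    have hcard' : (X.1.card : ℝ) ≤ 2 * ((s : ℝ) + 1) := by exact_mod_cast hcard
    have h10 : (X.1.card : ℝ) * (phi (d + 2) - 1 / (d : ℝ)) ≤
        2 * ((s : ℝ) + 1) * (phi (d + 2) - 1 / (d : ℝ)) :=
      mul_le_mul_of_nonneg_right hcard' (by linarith)
    have h11 : ((s : ℝ) + 1) * (2 * (phi (d + 2) - 1 / (d : ℝ))) ≤
        ((s : ℝ) + 1) * (1 - d * dl d / 2) :=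
      mul_le_mul_of_nonneg_left hk1 (by linarith)
    nlinarith [h10, h11, hsum]
  · -- three classes
    have hucl : ∀ p ∈ X.1, DEFM.u1 G I p + DEFM.cl G I X.1 p = X.1.card := by
      intro p hp
      have h5 : (univ.filter fun q => (G1 G I).Adj p q) = X.1.filter fun q => ¬ inb G I q = inb G I p := by
        ext q
        simp only [mem_filter, mem_univ, true_and]
        constructor
        · intro h
          exact ⟨hXcl p hp q h, fun h' => h.2.2.2 h'.symm⟩
        · rintro ⟨h6, h7⟩
          exact hadj p hp q h6 (fun h' => h7 h'.symm)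
      unfold DEFM.u1 DEFM.cl
      rw [h5, add_comm]
      exact Finset.card_filter_add_card_filter_not (s := X.1) (fun q => inb G I q = inb G I p)
    have hcls : ∀ p ∈ X.1, 1 ≤ DEFM.cl G I X.1 p ∧ DEFM.cl G I X.1 p ≤ s + 1 := by
      intro p hp
      obtain ⟨_, i, hi, hpi, hin⟩ := BLKM.V1_inb G I p (hXV hp)
      constructor
      · unfold DEFM.cl
        exact Finset.card_pos.2 ⟨p, by simp [hp]⟩
      · have h5 := DEFM.cl_le hBLK G I d h1d hc hI hd X i hi
        unfold DEFM.cl
        rw [hin]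
        exact h5
    have hX0 : 0 < X.1.card := Finset.card_pos.2 hXne
    have hXR : (0 : ℝ) < (X.1.card : ℝ) := by exact_mod_cast hX0
    have hT : ∀ p ∈ X.1, phi (d + 2) - (s : ℝ) * dl d - 1 / (X.1.card : ℝ) ≤ DEFM.T G I p := by
      intro p hp
      obtain ⟨a, ha, ha2, hT⟩ := DEFM.T_eq hDGR G I hc hI p (hXV hp)
      obtain ⟨hc1, hc2⟩ := hcls p hp
      have h5 := hucl p hp
      obtain ⟨l, hl⟩ : ∃ l, DEFM.cl G I X.1 p = l + 1 := ⟨DEFM.cl G I X.1 p - 1, by omega⟩
      have h6 : a + X.1.card = dg G p + 2 + l := by omega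
      have h7 := hP1 a X.1.card (by omega) hX0
      rw [h6] at h7
      have h8 := (hP2 (dg G p + 2 + l) (d + 2 + l) (by omega) (by have := hd p; omega)).1
      have h9 := hP3 (d + 2) l (by omega)
      have h10 : (l : ℝ) * dl d ≤ (s : ℝ) * dl d := by
        apply mul_le_mul_of_nonneg_right _ hd0
        have : l ≤ s := by omega
        exact_mod_cast this
      have h11 : dl d = phi (d + 2) - phi (d + 2 + 1) := rfl
      rw [← h11] at h9
      rw [hT]
      linarith
    have hsum : (X.1.card : ℝ) * (phi (d + 2) - (s : ℝ) * dl d - 1 / (X.1.card : ℝ)) ≤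
        ∑ p ∈ X.1, DEFM.T G I p := by
      have := Finset.card_nsmul_le_sum X.1 (DEFM.T G I) _ hT
      rwa [nsmul_eq_mul] at this
    have hsum' : (X.1.card : ℝ) * (phi (d + 2) - (s : ℝ) * dl d - 1 / (X.1.card : ℝ)) =
        (X.1.card : ℝ) * phi (d + 2) - (X.1.card : ℝ) * (s : ℝ) * dl d - 1 := by
      field_simp
    -- the smallest class
    have hthree : DEFM.cl G I X.1 p + DEFM.cl G I X.1 q + DEFM.cl G I X.1 r ≤ X.1.card := by
      unfold DEFM.cl
      have hd1' : Disjoint (X.1.filter fun x => inb G I x = inb G I p)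
          (X.1.filter fun x => inb G I x = inb G I q) := by
        rw [Finset.disjoint_left]
        intro x h5 h6
        simp only [mem_filter] at h5 h6
        exact hpq (h5.2.symm.trans h6.2)
      have hd2' : Disjoint ((X.1.filter fun x => inb G I x = inb G I p) ∪
          (X.1.filter fun x => inb G I x = inb G I q))
          (X.1.filter fun x => inb G I x = inb G I r) := by
        rw [Finset.disjoint_left]
        intro x h5 h6
        simp only [mem_filter, mem_union] at h5 h6
        rcases h5 with h5 | h5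
        · exact hpr (h5.2.symm.trans h6.2)
        · exact hqr (h5.2.symm.trans h6.2)
      rw [← Finset.card_union_of_disjoint hd1', ← Finset.card_union_of_disjoint hd2']
      apply Finset.card_le_card
      intro x hx
      simp only [mem_filter, mem_union] at hx
      rcases hx with (hx | hx) | hx <;> exact hx.1
    have hud : ∀ p ∈ X.1, DEFM.u1 G I p + 1 ≤ d := by
      intro p hp
      obtain ⟨_, i, hi, hpi, hin⟩ := BLKM.V1_inb G I p (hXV hp)
      have h5 := (hDGR V G I hc hI).2.2.2 p (hXV hp) i hi hpi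
      have h6 := hd p
      unfold DEFM.u1
      omega
    have hX3 : 2 * X.1.card ≤ 3 * (d - 1) := by
      have a1 := hucl p hp
      have a2 := hucl q hq
      have a3 := hucl r hr
      have b1 := hud p hp
      have b2 := hud q hq
      have b3 := hud r hr
      omega
    have hX3' : 2 * (X.1.card : ℝ) ≤ 3 * ((d : ℝ) - 1) := by
      have : ((2 * X.1.card : ℕ) : ℝ) ≤ ((3 * (d - 1) : ℕ) : ℝ) := by exact_mod_cast hX3
      rw [Nat.cast_mul, Nat.cast_mul, Nat.cast_sub h1d] at this
      push_cast at this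
      exact this
    have h12 : (X.1.card : ℝ) * dl d ≤ 1 - d * dl d / 2 := by
      have : 2 * (X.1.card : ℝ) * dl d ≤ 3 * ((d : ℝ) - 1) * dl d :=
        mul_le_mul_of_nonneg_right hX3' hd0
      linarith
    have h13 : (X.1.card : ℝ) * (s : ℝ) * dl d ≤ (1 - d * dl d / 2) * (s : ℝ) := by
      have := mul_le_mul_of_nonneg_right h12 hs0
      calc (X.1.card : ℝ) * (s : ℝ) * dl d = (X.1.card : ℝ) * dl d * (s : ℝ) := by ring
        _ ≤ _ := this
    linarith

end Pool.Agent.Lib.MP4d044e
end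

section
/-!
# MP_4d044e_co, module FRG: cutting a block system along a tree
-/
open Classical Finset

namespace Pool.Agent.Lib.MP4d044e

namespace FRGM

variable {V Z : Type} [Fintype V] [Fintype Z] {G : SimpleGraph V} {W : Z → Finset V} {D : ℕ}

omit [Fintype V] in
/-- A vertex in two different blocks is in no third block. -/
theorem three (hB : BS G W D) {v : V} {x y w : Z} (hx : v ∈ W x) (hy : v ∈ W y) (hw : v ∈ W w)
    (hxy : x ≠ y) : w = x ∨ w = y := by
  by_contra hcon
  push Not at hcon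
  have h3 : 2 < (univ.filter fun z => v ∈ W z).card := by
    rw [Finset.two_lt_card]
    exact ⟨x, by simp [hx], y, by simp [hy], w, by simp [hw], hxy, hcon.1.symm, hcon.2.symm⟩
  have := hB.two v
  omega

theorem cut {F : SimpleGraph Z} {k : ℕ} {r : Z} {par : Z → Z} {h : Z → ℕ} (hCUT : SpecCUT)
    (hk : 1 ≤ k) (hB : BS G W D) (hFB : F ≤ BG W) (hr : h r = 0)
    (hpar : ∀ z, z ≠ r → F.Adj z (par z) ∧ h z = h (par z) + 1)
    (hedge : ∀ x y, F.Adj x y → (x ≠ r ∧ par x = y) ∨ (y ≠ r ∧ par y = x)) :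
    ∃ S : Finset V, Frag G S (D * (D + 1) ^ k) ∧ k * (n1 W + n2 W F) ≤ k * S.card + n2 W F := by
  have hne : ∀ z, z ≠ r → z ≠ par z := fun z hz => (hpar z hz).1.ne
  have huniq : ∀ v z z', z ≠ r → z' ≠ r → v ∈ W z ∩ W (par z) → v ∈ W z' ∩ W (par z') → z = z' := by
    intro v z z' hz hz' hv hv'
    rw [Finset.mem_inter] at hv hv'
    by_contra hzz
    have e1 : z' = par z := by
      rcases three hB hv.1 hv.2 hv'.1 (hne z hz) with h1 | h1
      · exact absurd h1.symm hzz
      · exact h1
    have e2 : z = par z' := by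
      rcases three hB hv'.1 hv'.2 hv.1 (hne z' hz') with h1 | h1
      · exact absurd h1 hzz
      · exact h1
    have a1 := (hpar z hz).2
    have a2 := (hpar z' hz').2
    rw [← e1] at a1
    rw [← e2] at a2
    omega
  have hdis : ∀ A : Finset Z, r ∉ A →
      (A.biUnion fun z => W z ∩ W (par z)).card = ∑ z ∈ A, (W z ∩ W (par z)).card := by
    intro A hA
    refine Finset.card_biUnion ?_
    intro z hz z' hz' hzz
    rw [Function.onFun, Finset.disjoint_left]
    intro v hv hv'
    exact hzz (huniq v z z' (fun e => hA (e ▸ hz)) (fun e => hA (e ▸ hz')) hv hv')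
  have hn2 : n2 W F = ∑ z ∈ univ.erase r, (W z ∩ W (par z)).card := by
    rw [← hdis _ (by simp)]
    unfold n2
    congr 1
    ext v
    simp only [mem_filter, mem_univ, true_and, mem_biUnion, mem_erase, and_true, mem_inter]
    constructor
    · rintro ⟨x, y, hxy, hx, hy⟩
      rcases hedge x y hxy with ⟨h1, h2⟩ | ⟨h1, h2⟩
      · exact ⟨x, h1, hx, h2 ▸ hy⟩
      · exact ⟨y, h1, hy, h2 ▸ hx⟩
    · rintro ⟨z, hz, h1, h2⟩
      exact ⟨z, par z, (hpar z hz).1, h1, h2⟩
  -- children
  have hch : ∀ x, (univ.filter fun z => z ≠ r ∧ par z = x).card ≤ D := by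
    intro x
    have hex : ∀ z, z ≠ r ∧ par z = x → ∃ v, v ∈ W z ∩ W x := by
      rintro z ⟨hz, rfl⟩
      exact (hFB (hpar z hz).1).2
    have : Nonempty V := by
      obtain ⟨v, -⟩ := hB.ne r
      exact ⟨v⟩
    choose! f hf using hex
    refine le_trans ?_ (hB.le x)
    refine Finset.card_le_card_of_injOn f ?_ ?_
    · intro z hz
      have hz' : z ≠ r ∧ par z = x := by simpa using hz
      exact (Finset.mem_inter.1 (hf z hz')).2
    · intro z hz z' hz' e
      have hz1 : z ≠ r ∧ par z = x := by simpa using hz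
      have hz2 : z' ≠ r ∧ par z' = x := by simpa using hz'
      refine huniq (f z) z z' hz1.1 hz2.1 ?_ ?_
      · have := hf z hz1
        rw [hz1.2]
        exact this
      · have := hf z' hz2
        rw [hz2.2, e]
        exact this
  obtain ⟨R, top, hrR, htop, hcnt, hR⟩ :=
    hCUT Z r par h (fun z => (W z ∩ W (par z)).card) D k hk hr (fun z hz => (hpar z hz).2) hch
  rw [← hn2] at hR
  have hRe : R ⊆ univ.erase r := fun z hz => by
    simp only [mem_erase, mem_univ, and_true]
    exact fun e => hrR (e ▸ hz)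
  have hsplit : ∑ z ∈ (univ.erase r) \ R, (W z ∩ W (par z)).card
      + ∑ z ∈ R, (W z ∩ W (par z)).card = n2 W F := by
    rw [hn2]
    exact Finset.sum_sdiff hRe
  set A1 : Finset V := univ.filter fun v => (univ.filter fun z => v ∈ W z).card = 1 with hA1
  set A2 : Finset V := ((univ.erase r) \ R).biUnion fun z => W z ∩ W (par z) with hA2
  have hA2c : A2.card = ∑ z ∈ (univ.erase r) \ R, (W z ∩ W (par z)).card := hdis _ (by simp)
  have hdis12 : Disjoint A1 A2 := by
    rw [Finset.disjoint_left]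
    intro v hv1 hv2
    rw [hA1, mem_filter] at hv1
    rw [hA2, mem_biUnion] at hv2
    obtain ⟨z, hz, hvz⟩ := hv2
    rw [mem_sdiff, mem_erase] at hz
    rw [mem_inter] at hvz
    have h2 : 1 < (univ.filter fun z => v ∈ W z).card := by
      rw [Finset.one_lt_card]
      exact ⟨z, by simp [hvz.1], par z, by simp [hvz.2], hne z hz.1.1⟩
    omega
  -- labels
  have hone : ∀ v, ∃ z, v ∈ W z := by
    intro v
    have h1 := hB.one v
    obtain ⟨z, hz⟩ := Finset.card_pos.1 (lt_of_lt_of_le Nat.zero_lt_one h1)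
    exact ⟨z, by simpa using hz⟩
  choose bl hbl using hone
  have hlab : ∀ v ∈ A1 ∪ A2, ∀ z, v ∈ W z → top (bl v) = top z := by
    intro v hv z hz
    rcases Finset.mem_union.1 hv with h1 | h1
    · rw [hA1, mem_filter, Finset.card_eq_one] at h1
      obtain ⟨-, a, ha⟩ := h1
      have e1 : bl v ∈ (univ.filter fun z => v ∈ W z) := by simp [hbl v]
      have e2 : z ∈ (univ.filter fun z => v ∈ W z) := by simp [hz]
      rw [ha, mem_singleton] at e1 e2
      rw [e1, e2]
    · rw [hA2, mem_biUnion] at h1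
      obtain ⟨y, hy, hvy⟩ := h1
      rw [mem_sdiff, mem_erase] at hy
      rw [mem_inter] at hvy
      have ht := htop y hy.1.1 hy.2
      have key : ∀ u, v ∈ W u → top u = top y := by
        intro u hu
        rcases three hB hvy.1 hvy.2 hu (hne y hy.1.1) with h2 | h2
        · rw [h2]
        · rw [h2, ht]
      rw [key _ (hbl v), key _ hz]
  refine ⟨A1 ∪ A2, ⟨Z, fun v => top (bl v), ?_, ?_⟩, ?_⟩
  · intro v hv w hw hadj
    obtain ⟨z, hvz, hwz⟩ := hB.edge v w hadj
    show top (bl v) = top (bl w)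
    rw [hlab v hv z hvz, hlab w hw z hwz]
  · intro t
    have hsub : ((A1 ∪ A2).filter fun v => top (bl v) = t) ⊆
        (univ.filter fun z => top z = t).biUnion W := by
      intro v hv
      rw [mem_filter] at hv
      rw [mem_biUnion]
      exact ⟨bl v, by simp [hv.2], hbl v⟩
    calc ((A1 ∪ A2).filter fun v => top (bl v) = t).card
        ≤ ((univ.filter fun z => top z = t).biUnion W).card := Finset.card_le_card hsub
      _ ≤ (univ.filter fun z => top z = t).card * D :=
          Finset.card_biUnion_le_card_mul _ _ _ fun z _ => hB.le z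
      _ ≤ (D + 1) ^ k * D := Nat.mul_le_mul_right _ (hcnt t)
      _ = D * (D + 1) ^ k := Nat.mul_comm _ _
  · rw [Finset.card_union_of_disjoint hdis12, hA2c]
    have h1 : A1.card = n1 W := rfl
    rw [h1, ← hsplit]
    have hR' : k * ∑ z ∈ R, (W z ∩ W (par z)).card ≤
        ∑ z ∈ (univ.erase r) \ R, (W z ∩ W (par z)).card
          + ∑ z ∈ R, (W z ∩ W (par z)).card := by
      rw [hsplit]; exact hR
    nlinarith [hR']

end FRGM

/-- **FRG**: cutting a block system along a tree. -/
theorem specFRG (hTRE : SpecTRE) (hCUT : SpecCUT) : SpecFRG := by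
  intro V Z _ _ G W F D k hk hB hF hFB
  obtain ⟨r⟩ := hF.1.nonempty
  obtain ⟨par, h, hr, hpar, hedge⟩ := hTRE Z F hF r
  exact FRGM.cut hCUT hk hB hFB hr hpar hedge

end Pool.Agent.Lib.MP4d044e
end

section
/-!
# MP_4d044e_co, module GIR: biregular systems of large girth
-/
open Classical Finset

namespace Pool.Agent.Lib.MP4d044e

theorem specGIR (hCOV : SpecCOV) : SpecGIR := by
  intro a b g ha hb
  induction g with
  | zero =>
    refine ⟨Fin a × Fin b, Fin b, Fin a, inferInstance, inferInstance, inferInstance, Prod.snd,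
      Prod.fst, ⟨(⟨0, ha⟩, ⟨0, hb⟩)⟩, ?_, ?_, ?_⟩
    · intro s _ m h1 h2
      omega
    · intro x
      have h2 : ((univ : Finset (Fin a)).map ⟨fun i => (i, x),
          fun i j h => (Prod.ext_iff.1 h).1⟩).card = a := by
        rw [Finset.card_map, Finset.card_univ, Fintype.card_fin]
      refine Eq.trans (congrArg Finset.card ?_) h2
      ext e
      simp only [Finset.mem_filter, Finset.mem_univ, true_and, Finset.mem_map]
      constructor
      · intro h
        exact ⟨e.1, Prod.ext rfl h.symm⟩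
      · rintro ⟨i, rfl⟩
        rfl
    · intro y
      have h2 : ((univ : Finset (Fin b)).map ⟨fun i => (y, i),
          fun i j h => (Prod.ext_iff.1 h).2⟩).card = b := by
        rw [Finset.card_map, Finset.card_univ, Fintype.card_fin]
      refine Eq.trans (congrArg Finset.card ?_) h2
      ext e
      simp only [Finset.mem_filter, Finset.mem_univ, true_and, Finset.mem_map]
      constructor
      · intro h
        exact ⟨e.2, Prod.ext h.symm rfl⟩
      · rintro ⟨i, rfl⟩
        rfl
  | succ g ih =>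
    obtain ⟨E, X, Y, _, _, _, A, B, hE, hG, hA, hB⟩ := ih
    obtain ⟨h1, h2, h3⟩ := hCOV E X Y A B a b g hG hA hB
    refine ⟨E × (E → ZMod 2), X × (E → ZMod 2), Y × (E → ZMod 2), inferInstance, inferInstance,
      inferInstance, cA A, cB B, ?_, h1, ?_, ?_⟩
    · obtain ⟨e⟩ := hE
      exact ⟨(e, 0)⟩
    · intro x
      refine Eq.trans (congrArg Finset.card ?_) (h2 x)
      ext e
      simp only [Finset.mem_filter]
    · intro y
      refine Eq.trans (congrArg Finset.card ?_) (h3 y)
      ext e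
      simp only [Finset.mem_filter]

end Pool.Agent.Lib.MP4d044e
end

section
/-!
# MP_4d044e_co, claw-free graphs: module GLU (gluing the components)
-/
open Classical Finset

namespace Pool.Agent.Lib.MP4d044e

namespace GLUM

theorem frag_mono {V : Type} [Fintype V] (G : SimpleGraph V) (S : Finset V) (C C' : ℕ)
    (h : C ≤ C') (hS : Frag G S C) : Frag G S C' := by
  obtain ⟨α, l, h1, h2⟩ := hS
  exact ⟨α, l, h1, fun x => (h2 x).trans h⟩

theorem clawFree_induce {V : Type} (G : SimpleGraph V) (s : Set V) (h : ClawFree G) :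
    ClawFree (G.induce s) := by
  intro v a b c h1 h2 h3 h4 h5 h6
  exact h v.1 a.1 b.1 c.1 h1 h2 h3 (fun e => h4 (Subtype.ext e)) (fun e => h5 (Subtype.ext e))
    (fun e => h6 (Subtype.ext e))

theorem dg_induce_le {V : Type} [Fintype V] (G : SimpleGraph V) (s : Set V) [Fintype ↥s]
    (v : ↥s) :
    dg (G.induce s) v ≤ dg G v.1 := by
  unfold dg
  apply card_le_card_of_injOn Subtype.val
  · intro w hw
    simp only [coe_filter, mem_univ, true_and, Set.mem_ofPred_eq] at hw ⊢
    exact hw
  · exact Subtype.val_injective.injOn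

theorem card_label_le {V β : Type} (S T : Finset V) (L : V → β) (x : β) (C : ℕ)
    (h : ∀ v ∈ S, L v = x → v ∈ T) (hT : T.card ≤ C) : (S.filter fun v => L v = x).card ≤ C := by
  refine (card_le_card ?_).trans hT
  intro v hv
  rw [mem_filter] at hv
  exact h v hv.1 hv.2

/-- Gluing sets and labels of the connected components. -/
theorem glue {V : Type} [Fintype V] (G : SimpleGraph V)
    [∀ c : G.ConnectedComponent, Fintype ↥c.supp] (C : ℕ) (a : ℝ)
    (h : ∀ c : G.ConnectedComponent, ∃ S : Finset ↥c.supp, Frag (G.induce c.supp) S C ∧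
      a * (Fintype.card ↥c.supp : ℝ) ≤ (S.card : ℝ)) :
    ∃ S : Finset V, Frag G S C ∧ a * (Fintype.card V : ℝ) ≤ (S.card : ℝ) := by
  choose T hT hcard using h
  choose α l hl hlC using hT
  set S : Finset V := univ.filter fun v =>
    ∃ h : v ∈ (G.connectedComponentMk v).supp, (⟨v, h⟩ : ↥(G.connectedComponentMk v).supp) ∈
      T (G.connectedComponentMk v) with hS
  set L : V → (Σ c : G.ConnectedComponent, α c) := fun v =>
    ⟨G.connectedComponentMk v, l _ ⟨v, rfl⟩⟩ with hL
  have hmemS : ∀ (c : G.ConnectedComponent) (v : V) (hv : v ∈ c.supp),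
      v ∈ S ↔ (⟨v, hv⟩ : ↥c.supp) ∈ T c := by
    intro c v hv
    have hv' : G.connectedComponentMk v = c := hv
    subst hv'
    rw [hS, mem_filter]
    exact ⟨fun h => h.2.2, fun h => ⟨mem_univ _, _, h⟩⟩
  have hLc : ∀ (c : G.ConnectedComponent) (v : V) (hv : v ∈ c.supp),
      L v = ⟨c, l c ⟨v, hv⟩⟩ := by
    intro c v hv
    have hv' : G.connectedComponentMk v = c := hv
    subst hv'
    rfl
  refine ⟨S, ⟨_, L, ?_, ?_⟩, ?_⟩
  · intro v hv w hw hvw
    have hvc : v ∈ (G.connectedComponentMk v).supp := rfl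
    have hwc : w ∈ (G.connectedComponentMk v).supp :=
      SimpleGraph.ConnectedComponent.sound hvw.symm.reachable
    rw [hLc _ v hvc, hLc _ w hwc]
    congr 1
    exact hl _ ⟨v, hvc⟩ ((hmemS _ v hvc).1 hv) ⟨w, hwc⟩ ((hmemS _ w hwc).1 hw) hvw
  · rintro ⟨c, y⟩
    refine card_label_le S (((T c).filter fun u => l c u = y).image Subtype.val) L ⟨c, y⟩ C ?_
      (card_image_le.trans (hlC c y))
    intro v hvS hv
    have hvc : v ∈ c.supp := by
      have h1 := congrArg Sigma.fst hv
      exact h1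
    rw [hLc c v hvc] at hv
    have h2 : l c ⟨v, hvc⟩ = y := by
      simpa using hv
    rw [mem_image]
    exact ⟨⟨v, hvc⟩, mem_filter.2 ⟨(hmemS c v hvc).1 hvS, h2⟩, rfl⟩
  · have h1 : (S.card : ℝ) = ∑ c : G.ConnectedComponent, ((T c).card : ℝ) := by
      rw [card_eq_sum_card_fiberwise (f := G.connectedComponentMk) (t := univ)
        (fun _ _ => mem_coe.2 (mem_univ _))]
      push_cast
      apply sum_congr rfl
      intro c _
      have h2 : (S.filter fun v => G.connectedComponentMk v = c) = (T c).image Subtype.val := by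
        ext v
        rw [mem_filter, mem_image]
        constructor
        · rintro ⟨hv, hvc⟩
          exact ⟨⟨v, hvc⟩, (hmemS c v hvc).1 hv, rfl⟩
        · rintro ⟨u, hu, rfl⟩
          exact ⟨(hmemS c u.1 u.2).2 hu, u.2⟩
      rw [h2, card_image_of_injective _ Subtype.val_injective]
    have h2 : (Fintype.card V : ℝ) = ∑ c : G.ConnectedComponent, (Fintype.card ↥c.supp : ℝ) := by
      rw [← card_univ, card_eq_sum_card_fiberwise (f := G.connectedComponentMk) (t := univ)
        (fun _ _ => mem_coe.2 (mem_univ _))]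
      push_cast
      apply sum_congr rfl
      intro c _
      have h3 : (univ.filter fun v => G.connectedComponentMk v = c) =
          (univ : Finset ↥c.supp).image Subtype.val := by
        ext v
        rw [mem_filter, mem_image]
        constructor
        · rintro ⟨_, hvc⟩
          exact ⟨⟨v, hvc⟩, mem_univ _, rfl⟩
        · rintro ⟨u, _, rfl⟩
          exact ⟨mem_univ _, u.2⟩
      rw [h3, card_image_of_injective _ Subtype.val_injective, card_univ]
    rw [h1, h2, mul_sum]
    exact sum_le_sum (fun c _ => hcard c)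

end GLUM

open GLUM in
theorem specGLU (hPHI : SpecPHI) (hCN1 : SpecCN1) : SpecGLU := by
  intro d hd ε hε
  obtain ⟨k, hk⟩ := exists_nat_ge (2 / ε)
  have hk0 : (0 : ℝ) < k := lt_of_lt_of_le (by positivity) hk
  have hk1 : 1 ≤ k := by
    have : 0 < k := by exact_mod_cast hk0
    omega
  refine ⟨max k (2 * d * (2 * d + 1) ^ k), ?_⟩
  intro V _ G hcf hdeg
  apply glue
  intro c
  have hphi : phi (d + 2) ≤ 1 := (hPHI.2.2.2.1 d hd).2.2.2.1
  rcases le_or_gt (Fintype.card ↥c.supp) k with hle | hlt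
  · refine ⟨univ, ⟨Unit, fun _ => (), fun _ _ _ _ _ => rfl, ?_⟩, ?_⟩
    · intro x
      exact ((card_le_univ _).trans hle).trans (le_max_left _ _)
    · rw [card_univ]
      have h0 : (0 : ℝ) ≤ (Fintype.card ↥c.supp : ℝ) := Nat.cast_nonneg _
      nlinarith [h0]
  · obtain ⟨S, hS, hSc⟩ := hCN1 ↥c.supp (G.induce c.supp) d k hd hk1
      (SimpleGraph.ConnectedComponent.connected_toSimpleGraph c) (clawFree_induce G _ hcf)
      (fun v => (dg_induce_le G _ v).trans (hdeg v.1))
    refine ⟨S, frag_mono _ _ _ _ (le_max_right _ _) hS, ?_⟩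
    refine le_trans ?_ hSc
    set N : ℝ := (Fintype.card ↥c.supp : ℝ) with hN
    have hlt' : (k : ℝ) < N := by rw [hN]; exact_mod_cast hlt
    have h1 : 2 ≤ ε * k := by
      have := (div_le_iff₀ hε).1 hk
      linarith
    have h2 : N / k ≤ ε / 2 * N := by
      rw [div_le_iff₀ hk0]
      have : 0 < N := hk0.trans hlt'
      nlinarith
    have h3 : 1 ≤ ε / 2 * N := by nlinarith
    linarith

end Pool.Agent.Lib.MP4d044e
end

section
/-!
# MP_4d044e_co, module INE: the main inequality
-/
open Classical Finset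

namespace Pool.Agent.Lib.MP4d044e

namespace INEM

variable {V : Type} [Fintype V] {G : SimpleGraph V} {I : Finset V} {d : ℕ}

omit [Fintype V] in
theorem le_sz {Z : Type} [Fintype Z] (W : Z → Finset V) {z y : Z} (h : y ≠ z) :
    (W z ∩ W y).card - 1 ≤ sz W z := by
  have h1 := Finset.le_sup (f := fun y => if y = z then 0 else (W z ∩ W y).card - 1) (mem_univ y)
  unfold sz
  simp only [if_neg h] at h1
  exact h1

/-- Double counting of the pairs `v`, `i ∈ inb v`. -/
theorem swap (g : V → V → ℝ) :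
    ∑ v : V, ∑ i ∈ inb G I v, g i v = ∑ i ∈ I, ∑ v ∈ univ.filter (fun v => G.Adj i v), g i v := by
  unfold inb
  simp only [Finset.sum_filter]
  rw [Finset.sum_comm]
  refine Finset.sum_congr rfl fun i _ => Finset.sum_congr rfl fun v _ => ?_
  by_cases h : G.Adj v i
  · rw [if_pos h, if_pos h.symm]
  · rw [if_neg h, if_neg (fun h' => h h'.symm)]

/-- The sum over one neighbourhood. -/
theorem loc (hPHI : SpecPHI) (hLOC : SpecLOC) (hcf : ClawFree G) (hd : ∀ v, dg G v ≤ d) (i : V) :
    ∑ v ∈ univ.filter (fun v => G.Adj i v), 1 / ((cm G i v : ℝ) + 2) ≤ 2 - phi (d + 2) := by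
  have h := hLOC V G (univ.filter fun v => G.Adj i v) (by
    intro a ha b hb c hc hab hac hbc
    simp only [mem_filter, mem_univ, true_and] at ha hb hc
    exact hcf i a b c ha hb hc hab hac hbc)
  have e : ∀ v, ((univ.filter fun v => G.Adj i v).filter fun w => G.Adj v w).card = cm G i v := by
    intro v
    unfold cm
    congr 1
    ext w
    simp only [mem_filter, mem_univ, true_and]
    tauto
  simp only [e] at h
  have h2 : phi (d + 2) ≤ phi (dg G i + 2) := (hPHI.2.1 (dg G i + 2) (d + 2) (by omega)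
    (by have := hd i; omega)).1
  have h3 : (univ.filter fun v => G.Adj i v).card = dg G i := rfl
  rw [h3] at h
  linarith

/-- The weight of an element of `I`. -/
noncomputable def sw (G : SimpleGraph V) (I : Finset V) (i : V) : ℝ :=
  if h : i ∈ I then (sz (W G I) (Sum.inl ⟨i, h⟩) : ℝ) else 0

theorem sw_nonneg (i : V) : 0 ≤ sw G I i := by
  unfold sw
  split_ifs
  · positivity
  · exact le_rfl

theorem le_sw {i j : V} (hi : i ∈ I) (hj : j ∈ I) (hij : i ≠ j)
    (hBLK : ∀ i j : {i // i ∈ I}, i ≠ j →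
      W G I (Sum.inl i) ∩ W G I (Sum.inl j) = univ.filter fun w => G.Adj w i.1 ∧ G.Adj w j.1)
    {l : ℕ} (hl : l + 1 ≤ (univ.filter fun w => G.Adj w i ∧ G.Adj w j).card) :
    (l : ℝ) ≤ sw G I i := by
  unfold sw
  rw [dif_pos hi]
  norm_cast
  have hne : (⟨i, hi⟩ : {i // i ∈ I}) ≠ ⟨j, hj⟩ := fun e => hij (congrArg Subtype.val e)
  have h1 := hBLK ⟨i, hi⟩ ⟨j, hj⟩ hne
  have h3 : (Sum.inl ⟨j, hj⟩ : Nd G I) ≠ Sum.inl ⟨i, hi⟩ := fun e => hne (Sum.inl.inj e).symm
  have h2 := le_sz (W G I) h3
  rw [h1] at h2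
  have h4 : l ≤ (univ.filter fun w => G.Adj w i ∧ G.Adj w j).card - 1 := by omega
  exact h4.trans h2

/-- The sum at an element of `V2`. -/
theorem two (hPHI : SpecPHI) (hDGR : SpecDGR) (h4 : 4 ≤ d) (hcf : ClawFree G) (hI : MaxInd G I)
    (hd : ∀ v, dg G v ≤ d)
    (hBLK : ∀ i j : {i // i ∈ I}, i ≠ j →
      W G I (Sum.inl i) ∩ W G I (Sum.inl j) = univ.filter fun w => G.Adj w i.1 ∧ G.Adj w j.1)
    {v : V} (hv : v ∈ V2 G I) :
    phi (d + 2) ≤ (∑ i ∈ inb G I v, 1 / ((cm G i v : ℝ) + 2))
      + dl d / 2 * ∑ i ∈ inb G I v, sw G I i := by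
  have hv' := hv
  unfold V2 at hv'
  rw [mem_filter, Finset.card_eq_two] at hv'
  obtain ⟨-, -, i, j, hij, he⟩ := hv'
  have hi : i ∈ inb G I v := by rw [he]; simp
  have hj : j ∈ inb G I v := by rw [he]; simp
  unfold inb at hi hj
  rw [mem_filter] at hi hj
  rw [he, Finset.sum_pair hij, Finset.sum_pair hij]
  obtain ⟨l, h1, h2⟩ := (hDGR V G I hcf hI).2.2.1 v hv i hi.1 j hj.1 hij hi.2 hj.2
  have a1 := le_sw hi.1 hj.1 hij hBLK h2
  have a2 : (l : ℝ) ≤ sw G I j := le_sw hj.1 hi.1 hij.symm hBLK (l := l) (by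
    have e : (univ.filter fun w => G.Adj w j ∧ G.Adj w i)
      = (univ.filter fun w => G.Adj w i ∧ G.Adj w j) := by
      ext w; simp only [mem_filter, mem_univ, true_and]; tauto
    rw [e]; exact h2)
  have b1 := hPHI.1 (cm G i v + 2) (cm G j v + 2) (by omega) (by omega)
  rw [h1] at b1
  have b2 := (hPHI.2.1 (dg G v + 2 + l) (d + 2 + l) (by omega) (by have := hd v; omega)).1
  have b3 := hPHI.2.2.1 (d + 2) l (by omega)
  have b4 : phi (d + 2) - phi (d + 2 + 1) = dl d := rfl
  rw [b4] at b3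
  have hdl := (hPHI.2.2.2.1 d h4).1
  push_cast at b1
  nlinarith [mul_nonneg hdl (sub_nonneg.2 a1), mul_nonneg hdl (sub_nonneg.2 a2)]

theorem V1_eq (hCMP : SpecCMP) (hcf : ClawFree G) (hI : MaxInd G I) :
    V1 G I = (UU G I).biUnion id := by
  ext p
  rw [mem_biUnion]
  constructor
  · intro hp
    refine ⟨cp G I p, Finset.mem_image_of_mem _ hp, ?_⟩
    show p ∈ cp G I p
    unfold cp
    simp
  · rintro ⟨X, hX, hp⟩
    exact (hCMP V G I hcf hI X hX).1.1 hp

theorem main (hPHI : SpecPHI) (hLOC : SpecLOC) (hDGR : SpecDGR) (hCMP : SpecCMP)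
    (hBLK : SpecBLK) (hDEF : SpecDEF) (h4 : 4 ≤ d) (hcf : ClawFree G) (hI : MaxInd G I)
    (hd : ∀ v, dg G v ≤ d) (M : ℝ)
    (hM1 : ∑ X : {X // X ∈ UU G I}, (sz (W G I) (Sum.inr X) : ℝ) ≤ M)
    (hM2 : ∑ z : Nd G I, (sz (W G I) z : ℝ) ≤ 2 * M) :
    phi (d + 2) * (Fintype.card V : ℝ) ≤ (I.card : ℝ) + (Fintype.card (Nd G I) : ℝ) + M := by
  have hB := (hBLK V G I d (by omega) hcf hI hd).2.2.2.1
  obtain ⟨hdl0, hdl1, -, hf1, -, -⟩ := hPHI.2.2.2.1 d h4
  have hf0 : 0 < phi (d + 2) := (hPHI.2.1 (d + 2) (d + 2) (by omega) le_rfl).2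
  set inn : V → ℝ := fun v => ∑ i ∈ inb G I v, 1 / ((cm G i v : ℝ) + 2) with hinn
  have hinn0 : ∀ v, 0 ≤ inn v := fun v => Finset.sum_nonneg fun i _ => by positivity
  -- total
  have hT : ∑ v, inn v ≤ (2 - phi (d + 2)) * (I.card : ℝ) := by
    have h1 : ∑ v, inn v = ∑ i ∈ I, ∑ v ∈ univ.filter (fun v => G.Adj i v),
        1 / ((cm G i v : ℝ) + 2) := swap (fun i v => 1 / ((cm G i v : ℝ) + 2))
    rw [h1]
    calc ∑ i ∈ I, ∑ v ∈ univ.filter (fun v => G.Adj i v), 1 / ((cm G i v : ℝ) + 2)
        ≤ ∑ i ∈ I, (2 - phi (d + 2)) := Finset.sum_le_sum fun i _ => loc hPHI hLOC hcf hd i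
      _ = (2 - phi (d + 2)) * (I.card : ℝ) := by rw [Finset.sum_const, nsmul_eq_mul]; ring
  -- partition
  have hd1 : Disjoint (V1 G I) (V2 G I) := by
    rw [Finset.disjoint_left]
    intro v h1 h2
    unfold V1 at h1
    unfold V2 at h2
    rw [mem_filter] at h1 h2
    omega
  have hd2 : Disjoint I (V1 G I ∪ V2 G I) := by
    rw [Finset.disjoint_left]
    intro v h0 h1
    rcases mem_union.1 h1 with h1 | h1
    · unfold V1 at h1
      rw [mem_filter] at h1
      exact h1.2.1 h0
    · unfold V2 at h1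
      rw [mem_filter] at h1
      exact h1.2.1 h0
  have huniv : (univ : Finset V) = I ∪ (V1 G I ∪ V2 G I) := by
    ext v
    simp only [mem_univ, true_iff, mem_union]
    by_cases hv : v ∈ I
    · exact Or.inl hv
    · exact Or.inr ((hDGR V G I hcf hI).1 v hv)
  have hcard : (Fintype.card V : ℝ) = (I.card : ℝ) + ((V1 G I).card : ℝ) + ((V2 G I).card : ℝ) := by
    rw [← Finset.card_univ, huniv, Finset.card_union_of_disjoint hd2,
      Finset.card_union_of_disjoint hd1]
    push_cast
    ring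
  have hsum : ∑ v ∈ V1 G I, inn v + ∑ v ∈ V2 G I, inn v ≤ ∑ v, inn v := by
    rw [huniv, Finset.sum_union hd2, Finset.sum_union hd1]
    have : 0 ≤ ∑ v ∈ I, inn v := Finset.sum_nonneg fun v _ => hinn0 v
    linarith
  -- V2
  have hV2 : phi (d + 2) * ((V2 G I).card : ℝ) ≤ ∑ v ∈ V2 G I, inn v
      + d * dl d / 2 * ∑ i : {i // i ∈ I}, (sz (W G I) (Sum.inl i) : ℝ) := by
    have h1 : ∑ v ∈ V2 G I, phi (d + 2) ≤ ∑ v ∈ V2 G I, (inn v
        + dl d / 2 * ∑ i ∈ inb G I v, sw G I i) :=
      Finset.sum_le_sum fun v hv => two hPHI hDGR h4 hcf hI hd hB hv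
    rw [Finset.sum_const, nsmul_eq_mul, Finset.sum_add_distrib, ← Finset.mul_sum] at h1
    have h2 : ∑ v ∈ V2 G I, ∑ i ∈ inb G I v, sw G I i ≤ ∑ v, ∑ i ∈ inb G I v, sw G I i :=
      Finset.sum_le_sum_of_subset_of_nonneg (Finset.subset_univ _)
        fun v _ _ => Finset.sum_nonneg fun i _ => sw_nonneg i
    have h3 : ∑ v, ∑ i ∈ inb G I v, sw G I i ≤ ∑ i ∈ I, (d : ℝ) * sw G I i := by
      rw [swap (fun i _ => sw G I i)]
      refine Finset.sum_le_sum fun i _ => ?_
      rw [Finset.sum_const, nsmul_eq_mul]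
      refine mul_le_mul_of_nonneg_right ?_ (sw_nonneg i)
      have : (univ.filter fun v => G.Adj i v).card ≤ d := hd i
      exact_mod_cast this
    have h5 : ∑ i ∈ I, (d : ℝ) * sw G I i
        = d * ∑ i : {i // i ∈ I}, (sz (W G I) (Sum.inl i) : ℝ) := by
      rw [← Finset.mul_sum]
      congr 1
      rw [← Finset.sum_coe_sort]
      refine Finset.sum_congr rfl fun i _ => ?_
      unfold sw
      rw [dif_pos i.2]
    have h6 : ∑ v ∈ V2 G I, ∑ i ∈ inb G I v, sw G I i
        ≤ d * ∑ i : {i // i ∈ I}, (sz (W G I) (Sum.inl i) : ℝ) := by linarith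
    have h7 := mul_le_mul_of_nonneg_left h6 (by linarith : 0 ≤ dl d / 2)
    nlinarith [h7, h1]
  -- V1
  have hV1 : phi (d + 2) * ((V1 G I).card : ℝ) ≤ ∑ v ∈ V1 G I, inn v
      + ((UU G I).card : ℝ) + (1 - d * dl d / 2) *
        ∑ X : {X // X ∈ UU G I}, (sz (W G I) (Sum.inr X) : ℝ) := by
    have hdisj : (↑(UU G I) : Set (Finset V)).PairwiseDisjoint id := by
      intro X hX Y hY hXY
      rw [Function.onFun, Finset.disjoint_iff_inter_eq_empty]
      exact (hCMP V G I hcf hI X hX).1.2.2.2 Y hY (Ne.symm hXY)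
    have e1 : ((V1 G I).card : ℝ) = ∑ X : {X // X ∈ UU G I}, (X.1.card : ℝ) := by
      rw [V1_eq hCMP hcf hI, Finset.card_biUnion hdisj]
      push_cast
      rw [← Finset.sum_coe_sort]
      rfl
    have e2 : ∑ v ∈ V1 G I, inn v = ∑ X : {X // X ∈ UU G I}, ∑ v ∈ X.1, inn v := by
      rw [V1_eq hCMP hcf hI, Finset.sum_biUnion hdisj, ← Finset.sum_coe_sort]
      rfl
    rw [e1, e2, Finset.mul_sum, Finset.mul_sum]
    have e3 : ((UU G I).card : ℝ) = ∑ X : {X // X ∈ UU G I}, (1 : ℝ) := by simp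
    rw [e3, ← Finset.sum_add_distrib, ← Finset.sum_add_distrib]
    exact Finset.sum_le_sum fun X _ => hDEF V G I d h4 hcf hI hd X
  -- end
  have hNd : (Fintype.card (Nd G I) : ℝ) = (I.card : ℝ) + ((UU G I).card : ℝ) := by
    rw [Fintype.card_sum]
    simp
  rw [Fintype.sum_sum_type] at hM2
  rw [hNd, hcard]
  set T := ∑ X : {X // X ∈ UU G I}, (sz (W G I) (Sum.inr X) : ℝ)
  set S := ∑ i : {i // i ∈ I}, (sz (W G I) (Sum.inl i) : ℝ)
  have k1 : (1 - d * dl d) * T ≤ (1 - d * dl d) * M :=
    mul_le_mul_of_nonneg_left hM1 (by linarith)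
  have k2 : (d * dl d / 2) * (S + T) ≤ (d * dl d / 2) * (2 * M) :=
    mul_le_mul_of_nonneg_left hM2 (by positivity)
  nlinarith [k1, k2, hV1, hV2, hsum, hT]

end INEM

/-- **INE**: the main inequality. -/
theorem specINE (hPHI : SpecPHI) (hLOC : SpecLOC) (hDGR : SpecDGR) (hCMP : SpecCMP)
    (hBLK : SpecBLK) (hDEF : SpecDEF) : SpecINE :=
  fun _ _ _ _ _ h4 hcf hI hd M hM1 hM2 =>
    INEM.main hPHI hLOC hDGR hCMP hBLK hDEF h4 hcf hI hd M hM1 hM2

end Pool.Agent.Lib.MP4d044e
end

section
/-!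
# Module LOC: the local inequality
-/
open Classical Finset

namespace Pool.Agent.Lib.MP4d044e

namespace LOCM

/-- the auxiliary function -/
noncomputable def Fx (n : ℕ) (κ x : ℝ) : ℝ := (1 / ((n : ℝ) + 1 - x) - κ) / x

theorem kap (hPHI : SpecPHI) {n : ℕ} (hn : 1 ≤ n) {κ : ℝ} (hκ : n * κ = 2 - phi (n + 2)) :
    1 / ((n : ℝ) + 1) ≤ κ := by
  have hn' : (1 : ℝ) ≤ n := by exact_mod_cast hn
  have h := hPHI.1 1 (n + 1) (le_refl _) (by omega)
  rw [show 1 + (n + 1) = n + 2 by ring] at h
  push_cast at h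
  have h1 : (n : ℝ) * (1 / ((n : ℝ) + 1)) = 1 - 1 / ((n : ℝ) + 1) := by
    field_simp
    ring
  have h2 : (n : ℝ) * (1 / ((n : ℝ) + 1)) ≤ n * κ := by
    rw [h1, hκ]
    have : (1 : ℝ) / 1 = 1 := by norm_num
    linarith
  exact le_of_mul_le_mul_left h2 (by linarith)

theorem mono {n : ℕ} {κ : ℝ} (hκ : 1 / ((n : ℝ) + 1) ≤ κ) {x y : ℝ} (hx : 0 < x) (hxy : x ≤ y)
    (hy : y < n + 1) : Fx n κ x ≤ Fx n κ y := by
  have hn : (0 : ℝ) ≤ n := Nat.cast_nonneg _
  have hy0 : 0 < y := by linarith
  have h1 : 0 < (n : ℝ) + 1 - x := by linarith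
  have h2 : 0 < (n : ℝ) + 1 - y := by linarith
  unfold Fx
  have key : (1 / ((n : ℝ) + 1 - y) - κ) / y - (1 / ((n : ℝ) + 1 - x) - κ) / x =
      (y - x) * (κ * (((n : ℝ) + 1 - x) * ((n : ℝ) + 1 - y)) - ((n : ℝ) + 1 - x - y)) /
        (x * y * ((n : ℝ) + 1 - x) * ((n : ℝ) + 1 - y)) := by
    field_simp
    ring
  have h3 : 0 ≤ κ * (((n : ℝ) + 1 - x) * ((n : ℝ) + 1 - y)) - ((n : ℝ) + 1 - x - y) := by
    have h4 : 1 / ((n : ℝ) + 1) * (((n : ℝ) + 1 - x) * ((n : ℝ) + 1 - y)) ≤
        κ * (((n : ℝ) + 1 - x) * ((n : ℝ) + 1 - y)) :=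
      mul_le_mul_of_nonneg_right hκ (by positivity)
    have h5 : (n : ℝ) + 1 - x - y ≤
        1 / ((n : ℝ) + 1) * (((n : ℝ) + 1 - x) * ((n : ℝ) + 1 - y)) := by
      rw [one_div, inv_mul_eq_div, le_div_iff₀ (by positivity)]
      nlinarith [mul_pos hx hy0]
    linarith
  have h6 : 0 ≤ (y - x) * (κ * (((n : ℝ) + 1 - x) * ((n : ℝ) + 1 - y)) - ((n : ℝ) + 1 - x - y)) /
        (x * y * ((n : ℝ) + 1 - x) * ((n : ℝ) + 1 - y)) := by
    apply div_nonneg (mul_nonneg (by linarith) h3) (by positivity)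
  linarith

theorem pair (hPHI : SpecPHI) {n c : ℕ} (hc : 1 ≤ c) (hcn : c + 1 ≤ n) {κ : ℝ}
    (hκ : n * κ = 2 - phi (n + 2)) : Fx n κ (c : ℝ) + Fx n κ ((n : ℝ) - c) ≤ 0 := by
  have hc' : (1 : ℝ) ≤ c := by exact_mod_cast hc
  have hcn' : (c : ℝ) + 1 ≤ n := by exact_mod_cast hcn
  have h := hPHI.1 (n + 1 - c) (c + 1) (by omega) (by omega)
  rw [show n + 1 - c + (c + 1) = n + 2 by omega] at h
  rw [Nat.cast_sub (by omega)] at h
  push_cast at h
  have h1 : 0 < (n : ℝ) - c := by linarith
  have h2 : 0 < (n : ℝ) + 1 - c := by linarith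
  have h3 : 0 < (c : ℝ) * ((n : ℝ) - c) := by positivity
  unfold Fx
  have key : (c : ℝ) * ((n : ℝ) - c) * ((1 / ((n : ℝ) + 1 - c) - κ) / c +
      (1 / ((n : ℝ) + 1 - ((n : ℝ) - c)) - κ) / ((n : ℝ) - c)) =
      2 - 1 / ((n : ℝ) + 1 - c) - 1 / ((c : ℝ) + 1) - n * κ := by
    have e : (n : ℝ) + 1 - ((n : ℝ) - c) = c + 1 := by ring
    rw [e]
    field_simp
    ring
  have h4 : (c : ℝ) * ((n : ℝ) - c) * ((1 / ((n : ℝ) + 1 - c) - κ) / c +
      (1 / ((n : ℝ) + 1 - ((n : ℝ) - c)) - κ) / ((n : ℝ) - c)) ≤ 0 := by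
    rw [key, hκ]
    linarith
  by_contra h5
  push Not at h5
  have := mul_pos h3 h5
  linarith

section
variable {V : Type} [Fintype V] (G : SimpleGraph V) (N : Finset V)

/-- the number of non-neighbours -/
noncomputable def cc (v : V) : ℕ := (N.filter fun w => w ≠ v ∧ ¬ G.Adj v w).card

omit [Fintype V] in
theorem count {v : V} (hv : v ∈ N) : (N.filter fun w => G.Adj v w).card + cc G N v + 1 = N.card := by
  have h1 : N = insert v ((N.filter fun w => G.Adj v w) ∪ (N.filter fun w => w ≠ v ∧ ¬ G.Adj v w)) := by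
    ext w
    simp only [mem_insert, mem_union, mem_filter]
    constructor
    · intro hw
      by_cases e : w = v
      · exact Or.inl e
      · by_cases a : G.Adj v w
        · exact Or.inr (Or.inl ⟨hw, a⟩)
        · exact Or.inr (Or.inr ⟨hw, e, a⟩)
    · rintro (rfl | h | h)
      · exact hv
      · exact h.1
      · exact h.1
  have h2 : v ∉ (N.filter fun w => G.Adj v w) ∪ (N.filter fun w => w ≠ v ∧ ¬ G.Adj v w) := by
    simp
  have h3 : Disjoint (N.filter fun w => G.Adj v w) (N.filter fun w => w ≠ v ∧ ¬ G.Adj v w) := by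
    rw [Finset.disjoint_left]
    intro w hw hw'
    rw [mem_filter] at hw hw'
    exact hw'.2.2 hw.2
  have h4 : N.card = (insert v ((N.filter fun w => G.Adj v w) ∪
      (N.filter fun w => w ≠ v ∧ ¬ G.Adj v w))).card := congrArg Finset.card h1
  rw [card_insert_of_notMem h2, card_union_of_disjoint h3] at h4
  unfold cc
  omega

omit [Fintype V] in
theorem two (hN : ∀ a ∈ N, ∀ b ∈ N, ∀ c ∈ N, a ≠ b → a ≠ c → b ≠ c →
    G.Adj a b ∨ G.Adj a c ∨ G.Adj b c) {v w : V} (hv : v ∈ N) (hw : w ∈ N) (hne : w ≠ v)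
    (ha : ¬ G.Adj v w) : 1 ≤ cc G N v ∧ 1 ≤ cc G N w ∧ cc G N v + cc G N w ≤ N.card := by
  refine ⟨?_, ?_, ?_⟩
  · apply card_pos.2
    exact ⟨w, mem_filter.2 ⟨hw, hne, ha⟩⟩
  · apply card_pos.2
    exact ⟨v, mem_filter.2 ⟨hv, hne.symm, fun h => ha h.symm⟩⟩
  · have h3 : Disjoint (N.filter fun x => x ≠ v ∧ ¬ G.Adj v x)
        (N.filter fun x => x ≠ w ∧ ¬ G.Adj w x) := by
      rw [Finset.disjoint_left]
      intro x hx hx'
      rw [mem_filter] at hx hx'
      rcases hN v hv w hw x hx.1 hne.symm hx.2.1.symm hx'.2.1.symm with h | h | h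
      · exact ha h
      · exact hx.2.2 h
      · exact hx'.2.2 h
    unfold cc
    rw [← card_union_of_disjoint h3]
    apply card_le_card
    intro x hx
    rw [mem_union, mem_filter, mem_filter] at hx
    rcases hx with h | h
    · exact h.1
    · exact h.1

end

end LOCM

open LOCM in
theorem specLOC (hPHI : SpecPHI) : SpecLOC := by
  intro V _ G N hN
  rcases Nat.eq_zero_or_pos N.card with h0 | hpos
  · rw [Finset.card_eq_zero] at h0
    subst h0
    have e1 : (2 : ℕ) / 2 = 1 := rfl
    simp only [sum_empty, card_empty, zero_add]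
    unfold phi
    rw [e1]
    norm_num
  obtain ⟨n, hn⟩ : ∃ n, n = N.card := ⟨_, rfl⟩
  rw [← hn] at hpos ⊢
  have hn1 : (1 : ℝ) ≤ n := by exact_mod_cast hpos
  obtain ⟨κ, hκ⟩ : ∃ κ : ℝ, n * κ = 2 - phi (n + 2) :=
    ⟨(2 - phi (n + 2)) / n, by field_simp⟩
  have hκ1 := kap hPHI hpos hκ
  have hcle : ∀ v ∈ N, cc G N v + 1 ≤ n := by
    intro v hv
    have := count G N hv
    omega
  -- the sum of the values at pairs
  have hS12 : ∑ v ∈ N, ∑ w ∈ N, (if w ≠ v ∧ ¬ G.Adj v w then Fx n κ (cc G N v) else 0) =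
      ∑ v ∈ N, ∑ w ∈ N, (if w ≠ v ∧ ¬ G.Adj v w then Fx n κ (cc G N w) else 0) := by
    rw [sum_comm]
    refine sum_congr rfl fun v _ => sum_congr rfl fun w _ => ?_
    have : (v ≠ w ∧ ¬ G.Adj w v) ↔ (w ≠ v ∧ ¬ G.Adj v w) := by
      rw [G.adj_comm, ne_comm]
    simp only [this]
  have hneg : ∑ v ∈ N, ∑ w ∈ N, (if w ≠ v ∧ ¬ G.Adj v w then Fx n κ (cc G N v) else 0) +
      ∑ v ∈ N, ∑ w ∈ N, (if w ≠ v ∧ ¬ G.Adj v w then Fx n κ (cc G N w) else 0) ≤ 0 := by
    rw [← sum_add_distrib]
    apply sum_nonpos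
    intro v hv
    rw [← sum_add_distrib]
    apply sum_nonpos
    intro w hw
    split_ifs with h
    · obtain ⟨h1, h2, h3⟩ := two G N hN hv hw h.1 h.2
      have h4 := hcle v hv
      have h5 := hcle w hw
      have h1' : (1 : ℝ) ≤ cc G N v := by exact_mod_cast h1
      have h2' : (1 : ℝ) ≤ cc G N w := by exact_mod_cast h2
      have h3' : (cc G N v : ℝ) + cc G N w ≤ n := by rw [hn]; exact_mod_cast h3
      have g1 := mono (n := n) hκ1 (x := (cc G N v : ℝ)) (y := (n : ℝ) - cc G N w) (by linarith)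
        (by linarith) (by linarith)
      have g2 := pair hPHI h2 h5 hκ
      linarith
    · simp
  have hS : ∀ v ∈ N, 1 / (((N.filter fun w => G.Adj v w).card : ℝ) + 2) - κ ≤
      ∑ w ∈ N, (if w ≠ v ∧ ¬ G.Adj v w then Fx n κ (cc G N v) else 0) := by
    intro v hv
    rw [← sum_filter, sum_const, nsmul_eq_mul]
    change _ ≤ (cc G N v : ℝ) * Fx n κ (cc G N v)
    have h1 := count G N hv
    rw [← hn] at h1
    have h2 : ((N.filter fun w => G.Adj v w).card : ℝ) + 2 = (n : ℝ) + 1 - cc G N v := by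
      have : ((N.filter fun w => G.Adj v w).card : ℝ) + cc G N v + 1 = n := by exact_mod_cast h1
      linarith
    rw [h2]
    unfold Fx
    rcases Nat.eq_zero_or_pos (cc G N v) with h3 | h3
    · rw [h3]
      simp only [Nat.cast_zero, sub_zero, zero_mul]
      linarith
    · have h3' : (0 : ℝ) < cc G N v := by exact_mod_cast h3
      rw [mul_div_cancel₀ _ h3'.ne']
  have h1 := sum_le_sum hS
  rw [sum_sub_distrib, sum_const, nsmul_eq_mul, ← hn, hκ] at h1
  linarith

end Pool.Agent.Lib.MP4d044e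
end

section
/-!
# MP_4d044e_co, claw-free graphs: module LOW (the lower bound)
-/
set_option autoImplicit false

open Classical Finset

namespace Pool.Agent.Lib.MP4d044e

namespace LOWM

variable {E X Y : Type}

/-- transport of the line graph to `Fin n` -/
def tG {n : ℕ} (A : E → X) (B : E → Y) (e : E ≃ Fin n) : SimpleGraph (Fin n) :=
  (LG A B).comap e.symm

theorem tG_adj {n : ℕ} (A : E → X) (B : E → Y) (e : E ≃ Fin n) (x y : Fin n) :
    (tG A B e).Adj x y ↔ e.symm x ≠ e.symm y ∧
      (A (e.symm x) = A (e.symm y) ∨ B (e.symm x) = B (e.symm y)) := Iff.rfl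

theorem claw {n : ℕ} (A : E → X) (B : E → Y) (e : E ≃ Fin n) : ClawFree (tG A B e) := by
  intro v a b c ha hb hc hab hac hbc
  rw [tG_adj] at ha hb hc
  simp only [tG_adj]
  have nab : e.symm a ≠ e.symm b := fun h => hab (e.symm.injective h)
  have nac : e.symm a ≠ e.symm c := fun h => hac (e.symm.injective h)
  have nbc : e.symm b ≠ e.symm c := fun h => hbc (e.symm.injective h)
  rcases ha.2 with a1 | a1 <;> rcases hb.2 with b1 | b1 <;> rcases hc.2 with c1 | c1
  · exact Or.inl ⟨nab, Or.inl (a1.symm.trans b1)⟩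
  · exact Or.inl ⟨nab, Or.inl (a1.symm.trans b1)⟩
  · exact Or.inr (Or.inl ⟨nac, Or.inl (a1.symm.trans c1)⟩)
  · exact Or.inr (Or.inr ⟨nbc, Or.inr (b1.symm.trans c1)⟩)
  · exact Or.inr (Or.inr ⟨nbc, Or.inl (b1.symm.trans c1)⟩)
  · exact Or.inr (Or.inl ⟨nac, Or.inr (a1.symm.trans c1)⟩)
  · exact Or.inl ⟨nab, Or.inr (a1.symm.trans b1)⟩
  · exact Or.inl ⟨nab, Or.inr (a1.symm.trans b1)⟩

theorem degr {n : ℕ} [Fintype E] (A : E → X) (B : E → Y) (e : E ≃ Fin n) (a b : ℕ)
    (hA : ∀ x, (univ.filter fun e => A e = x).card = a)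
    (hB : ∀ y, (univ.filter fun e => B e = y).card = b) (v : Fin n) :
    ((tG A B e).neighborSet v).ncard ≤ (a - 1) + (b - 1) := by
  have e1 : (tG A B e).neighborSet v =
      ((univ.filter fun w => (tG A B e).Adj v w : Finset (Fin n)) : Set (Fin n)) := by
    ext w
    simp [SimpleGraph.mem_neighborSet]
  rw [e1, Set.ncard_coe_finset]
  have h1 : (univ.filter fun w => (tG A B e).Adj v w).card ≤
      (((univ.filter fun x => A x = A (e.symm v)).erase (e.symm v)) ∪
        ((univ.filter fun x => B x = B (e.symm v)).erase (e.symm v))).card := by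
    apply Finset.card_le_card_of_injOn e.symm
    · intro w hw
      rw [Finset.mem_coe, mem_filter, tG_adj] at hw
      rw [Finset.mem_coe, mem_union, mem_erase, mem_erase, mem_filter, mem_filter]
      rcases hw.2.2 with h | h
      · exact Or.inl ⟨hw.2.1.symm, mem_univ _, h.symm⟩
      · exact Or.inr ⟨hw.2.1.symm, mem_univ _, h.symm⟩
    · exact e.symm.injective.injOn
  refine h1.trans ((Finset.card_union_le _ _).trans (le_of_eq ?_))
  rw [Finset.card_erase_of_mem (by simp), Finset.card_erase_of_mem (by simp), hA, hB]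

theorem cnt [Fintype E] [Fintype X] (A : E → X) (a : ℕ)
    (hA : ∀ x, (univ.filter fun e => A e = x).card = a) :
    Fintype.card E = a * Fintype.card X := by
  have h := Finset.card_eq_sum_card_fiberwise (f := A) (s := (univ : Finset E))
    (t := (univ : Finset X)) (fun x _ => mem_coe.2 (mem_univ _))
  rw [← Finset.card_univ, h, Finset.sum_congr rfl (fun x _ => hA x)]
  simp [mul_comm]

/-- the label of a vertex: its component -/
noncomputable def lb {n : ℕ} (G : SimpleGraph (Fin n)) (X' : Finset (Fin n)) (y : Fin n) :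
    Option (G.induce ((↑X' : Set (Fin n))ᶜ)).ConnectedComponent :=
  if h : y ∉ X' then some ((G.induce ((↑X' : Set (Fin n))ᶜ)).connectedComponentMk
    ⟨y, by simpa using h⟩) else none

theorem lb_pos {n : ℕ} (G : SimpleGraph (Fin n)) (X' : Finset (Fin n)) (y : Fin n) (h : y ∉ X') :
    lb G X' y = some ((G.induce ((↑X' : Set (Fin n))ᶜ)).connectedComponentMk
      ⟨y, by simpa using h⟩) := dif_pos h

end LOWM

open LOWM in
theorem specLOW (hGIR : SpecGIR) (hCOR : SpecCOR) : SpecLOW := by
  intro d hd ε hF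
  obtain ⟨C, hC⟩ := hF
  set a := (d + 2) / 2 with ha
  set b := (d + 2 + 1) / 2 with hb
  have hab : (a - 1) + (b - 1) = d := by omega
  have ha1 : 1 ≤ a := by omega
  have hb1 : 1 ≤ b := by omega
  obtain ⟨E, X, Y, iE, iX, iY, A, B, hE, hGir, hA, hB⟩ := hGIR a b C ha1 hb1
  let e : E ≃ Fin (Fintype.card E) := Fintype.equivFin E
  have hcl : ClassCF d (Fintype.card E) (tG A B e) := by
    refine ⟨claw A B e, fun v => ?_⟩
    have := degr A B e a b hA hB v
    rwa [hab] at this
  obtain ⟨X', hX1, hX2⟩ := hC (Fintype.card E) (tG A B e) hcl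
  -- the set
  let S : Finset E := univ.filter fun x => e x ∉ X'
  have hScard : S.card + X'.card = Fintype.card E := by
    have h1 : S.card = (X'ᶜ).card := by
      apply Finset.card_bij (fun x _ => e x)
      · intro x hx
        rw [mem_compl]
        exact (mem_filter.1 hx).2
      · intro x _ y _ h
        exact e.injective h
      · intro y hy
        refine ⟨e.symm y, ?_, by simp⟩
        rw [mem_filter]
        refine ⟨mem_univ _, ?_⟩
        rw [Equiv.apply_symm_apply]
        exact mem_compl.1 hy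
    rw [h1, Finset.card_compl_add_card, Fintype.card_fin]
  have hfrag : Frag (LG A B) S C := by
    refine ⟨_, fun v => lb (tG A B e) X' (e v), ?_, ?_⟩
    · intro v hv w hw hvw
      have hv' : e v ∉ X' := (mem_filter.1 hv).2
      have hw' : e w ∉ X' := (mem_filter.1 hw).2
      change lb (tG A B e) X' (e v) = lb (tG A B e) X' (e w)
      rw [lb_pos _ _ _ hv', lb_pos _ _ _ hw']
      congr 1
      rw [SimpleGraph.ConnectedComponent.eq]
      apply SimpleGraph.Adj.reachable
      change (tG A B e).Adj (e v) (e w)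
      rw [tG_adj, Equiv.symm_apply_apply, Equiv.symm_apply_apply]
      exact hvw
    · intro x
      suffices key : (S.filter fun v => lb (tG A B e) X' (e v) = x).card ≤ C by
        refine le_trans (Finset.card_le_card ?_) key
        intro v hv
        exact (@Finset.mem_filter _ _ (_) _ _).2 ((@Finset.mem_filter _ _ (_) _ _).1 hv)
      rcases x with _ | c
      · have h0 : (S.filter fun v => lb (tG A B e) X' (e v) = none) = ∅ := by
          rw [Finset.filter_eq_empty_iff]
          intro v hv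
          have hv' : e v ∉ X' := (mem_filter.1 hv).2
          rw [lb_pos _ _ _ hv']
          simp
        rw [h0]
        simp
      · refine le_trans ?_ (hX2 c)
        rw [← Set.ncard_coe_finset]
        -- image under e
        have h3 : ∀ v ∈ (S.filter fun v => lb (tG A B e) X' (e v) = some c),
            ∃ h : e v ∉ X', (⟨e v, by simpa using h⟩ :
              ((↑X' : Set (Fin (Fintype.card E)))ᶜ : Set _)) ∈ c.supp := by
          intro v hv
          rw [mem_filter] at hv
          have hv' : e v ∉ X' := (mem_filter.1 hv.1).2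
          refine ⟨hv', ?_⟩
          have h4 := hv.2
          rw [lb_pos _ _ _ hv'] at h4
          rw [SimpleGraph.ConnectedComponent.mem_supp_iff]
          exact Option.some.inj h4
        have h5 : (Subtype.val '' c.supp : Set (Fin (Fintype.card E))).ncard = c.supp.ncard :=
          Set.ncard_image_of_injective _ Subtype.val_injective
        rw [← h5]
        rw [← Set.ncard_image_of_injective _ e.injective]
        apply Set.ncard_le_ncard _ (Set.toFinite _)
        rintro y ⟨v, hv, rfl⟩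
        obtain ⟨h6, h7⟩ := h3 v (by exact_mod_cast hv)
        exact ⟨_, h7, rfl⟩
  have hcor := hCOR E X Y A B C C hGir (by omega) S hfrag
  have hXE := cnt A a hA
  have hYE := cnt B b hB
  have hn : (0 : ℝ) < (Fintype.card E : ℝ) := by
    exact_mod_cast Fintype.card_pos_iff.2 hE
  have hphi : phi (d + 2) = 1 / (a : ℝ) + 1 / (b : ℝ) := rfl
  have ha0 : (0 : ℝ) < (a : ℝ) := by exact_mod_cast ha1
  have hb0 : (0 : ℝ) < (b : ℝ) := by exact_mod_cast hb1
  have hX' : (Fintype.card X : ℝ) = (Fintype.card E : ℝ) * (1 / (a : ℝ)) := by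
    rw [hXE]
    push_cast
    field_simp
  have hY' : (Fintype.card Y : ℝ) = (Fintype.card E : ℝ) * (1 / (b : ℝ)) := by
    rw [hYE]
    push_cast
    field_simp
  have h8 : (S.card : ℝ) + (X'.card : ℝ) = (Fintype.card E : ℝ) := by exact_mod_cast hScard
  have h9 : (S.card : ℝ) ≤ (Fintype.card X : ℝ) + (Fintype.card Y : ℝ) := by exact_mod_cast hcor
  rw [hX', hY', ← mul_add, ← hphi] at h9
  have h10 : (Fintype.card E : ℝ) * (1 - phi (d + 2)) ≤ (Fintype.card E : ℝ) * ε := by
    have := hX1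
    nlinarith
  exact le_of_mul_le_mul_left h10 hn

end Pool.Agent.Lib.MP4d044e
end

section
/-!
# MP_4d044e_co, claw-free graphs: the coefficient
-/
open Classical Finset

namespace Pool.Agent.Lib.MP4d044e

theorem specMAI (hPHI : SpecPHI) (hUPP : SpecUPP) (hLOW : SpecLOW) : SpecMAI := by
  intro d hd
  obtain ⟨-, -, -, h4, h5, h6⟩ := hPHI
  have hle : phi (d + 2) ≤ 1 := (h4 d hd).2.2.2.1
  have hmem : ∀ ε : ℝ, 1 - phi (d + 2) < ε → ε ∈ {ε : ℝ | 0 ≤ ε ∧ Fragmentable (ClassCF d) ε} :=
    fun ε hε => ⟨by linarith, hUPP d hd ε hε⟩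
  have hlb : ∀ ε ∈ {ε : ℝ | 0 ≤ ε ∧ Fragmentable (ClassCF d) ε}, 1 - phi (d + 2) ≤ ε :=
    fun ε hε => hLOW d hd ε hε.2
  have hbdd : BddBelow {ε : ℝ | 0 ≤ ε ∧ Fragmentable (ClassCF d) ε} := ⟨0, fun ε hε => hε.1⟩
  have hcoef : coef (ClassCF d) = 1 - phi (d + 2) := by
    unfold coef
    refine le_antisymm ?_ ?_
    · refine le_of_forall_gt_imp_ge_of_dense fun ε hε => ?_
      exact csInf_le hbdd (hmem ε hε)
    · exact le_csInf ⟨1 - phi (d + 2) + 1, hmem _ (by linarith)⟩ hlb
  have hd0 : (0 : ℝ) < (d : ℝ) + 2 := by positivity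
  refine ⟨fun he => ?_, fun ho => ⟨?_, ?_⟩, fun ε hε => hUPP d hd ε (by rw [← hcoef]; exact hε)⟩
  · rw [hcoef, h5 d he]
    field_simp
    ring
  · rw [hcoef, (h6 d ho).1]
  · have h := (h6 d ho).2
    have e : ((d : ℝ) - 2) / ((d : ℝ) + 2) = 1 - 4 / ((d : ℝ) + 2) := by
      field_simp
      ring
    rw [hcoef, e]
    linarith

end Pool.Agent.Lib.MP4d044e
end

section
/-!
# MP_4d044e_co, row 215, module MST: a spanning tree containing a heaviest edge at every vertex
-/
open Classical Finset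

namespace Pool.Agent.Lib.MP4d044e

namespace MSTM

variable {Z : Type}

/-- The graph of the edges of weight at least `t`. -/
def Gt (Γ : SimpleGraph Z) (μ : Z → Z → ℕ) (hμ : ∀ x y, μ x y = μ y x) (t : ℕ) : SimpleGraph Z where
  Adj x y := Γ.Adj x y ∧ t ≤ μ x y
  symm := ⟨fun x y h => ⟨h.1.symm, by rw [hμ y x]; exact h.2⟩⟩
  loopless := ⟨fun x h => Γ.loopless.irrefl x h.1⟩

theorem main [Fintype Z] (Γ : SimpleGraph Z) (μ : Z → Z → ℕ) (hμ : ∀ x y, μ x y = μ y x) (T : ℕ)
    (hT : ∀ x y, μ x y < T) : ∀ k : ℕ, ∃ F : SimpleGraph Z, F ≤ Gt Γ μ hμ (T - k) ∧ F.IsAcyclic ∧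
      ∀ t', T - k ≤ t' → ∀ x y, (Gt Γ μ hμ t').Reachable x y → (F ⊓ Gt Γ μ hμ t').Reachable x y := by
  intro k
  induction k with
  | zero =>
    refine ⟨⊥, bot_le, SimpleGraph.isAcyclic_bot, ?_⟩
    intro t' ht' x y h
    have h0 : Gt Γ μ hμ t' = ⊥ := by
      ext a b
      simp only [Gt, SimpleGraph.bot_adj, iff_false]
      rintro ⟨-, h2⟩
      have := hT a b
      omega
    rw [h0] at h ⊢
    rw [inf_bot_eq]
    exact h
  | succ k ih =>
    obtain ⟨F, hF1, hF2, hF3⟩ := ih
    have hle : Gt Γ μ hμ (T - k) ≤ Gt Γ μ hμ (T - (k + 1)) := by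
      intro a b hab
      exact ⟨hab.1, le_trans (by omega) hab.2⟩
    obtain ⟨F', h1, h2, h3, h4⟩ :=
      SimpleGraph.exists_isAcyclic_reachable_eq_le_of_le_of_isAcyclic (hF1.trans hle) hF2
    refine ⟨F', h2, h3, ?_⟩
    intro t' ht' x y h
    rcases Nat.lt_or_ge t' (T - k) with hlt | hge
    · have he : t' = T - (k + 1) := by omega
      subst he
      have h5 : F'.Reachable x y := by
        rw [h4]
        exact h
      rwa [inf_eq_left.2 h2]
    · exact (hF3 t' hge x y h).mono (inf_le_inf_right _ h1)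

end MSTM

open MSTM in
theorem specMST : SpecMST := by
  intro Z _ Γ μ hΓ hμ
  obtain ⟨T, hT⟩ : ∃ T : ℕ, ∀ x y, μ x y < T := by
    refine ⟨(univ.sup fun x => univ.sup fun y => μ x y) + 1, fun x y => ?_⟩
    have h1 : μ x y ≤ univ.sup fun y => μ x y := le_sup (f := fun y => μ x y) (mem_univ y)
    have h2 : (univ.sup fun y => μ x y) ≤ univ.sup fun x => univ.sup fun y => μ x y :=
      le_sup (f := fun x => univ.sup fun y => μ x y) (mem_univ x)
    omega
  obtain ⟨F, hF1, hF2, hF3⟩ := main Γ μ hμ T hT T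
  rw [Nat.sub_self] at hF1 hF3
  have h0 : Gt Γ μ hμ 0 = Γ := by
    ext a b
    simp [Gt]
  rw [h0] at hF1
  haveI := hΓ.nonempty
  refine ⟨F, hF1, ⟨⟨?_⟩, hF2⟩, ?_⟩
  · intro x y
    have h1 := hF3 0 le_rfl x y (by rw [h0]; exact hΓ.preconnected x y)
    exact h1.mono inf_le_left
  · intro z y hzy
    have h1 : (Gt Γ μ hμ (μ z y)).Reachable z y :=
      SimpleGraph.Adj.reachable (show (Gt Γ μ hμ (μ z y)).Adj z y from ⟨hzy, le_rfl⟩)
    have h2 := hF3 (μ z y) (Nat.zero_le _) z y h1
    obtain ⟨p⟩ := h2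
    cases p with
    | nil => exact absurd hzy (Γ.loopless.irrefl z)
    | cons h q =>
      rename_i w
      exact ⟨w, h.1, h.2.2⟩

end Pool.Agent.Lib.MP4d044e
end

section
/-!
# Module PHI: the numbers
-/
open Classical Finset

namespace Pool.Agent.Lib.MP4d044e

namespace PHIM

theorem phi_even (h : ℕ) : phi (2 * h) = 2 / (h : ℝ) := by
  have e1 : (2 * h) / 2 = h := by omega
  have e2 : (2 * h + 1) / 2 = h := by omega
  unfold phi
  rw [e1, e2]
  ring

theorem phi_odd (h : ℕ) : phi (2 * h + 1) = 1 / (h : ℝ) + 1 / ((h : ℝ) + 1) := by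
  have e1 : (2 * h + 1) / 2 = h := by omega
  have e2 : (2 * h + 1 + 1) / 2 = h + 1 := by omega
  unfold phi
  rw [e1, e2]
  push_cast
  ring

theorem diff (s : ℕ) : phi s - phi (s + 1) =
    1 / ((s / 2 : ℕ) : ℝ) - 1 / (((s / 2 : ℕ) : ℝ) + 1) := by
  rcases Nat.even_or_odd' s with ⟨h, rfl | rfl⟩
  · rw [phi_even, phi_odd]
    have e1 : (2 * h) / 2 = h := by omega
    rw [e1]
    ring
  · have e : 2 * h + 1 + 1 = 2 * (h + 1) := by ring
    rw [e, phi_even, phi_odd]
    have e1 : (2 * h + 1) / 2 = h := by omega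
    rw [e1]
    push_cast
    ring

theorem diff_anti {s t : ℕ} (hs : 2 ≤ s) (h : s ≤ t) : phi t - phi (t + 1) ≤ phi s - phi (s + 1) := by
  rw [diff, diff]
  have h1 : 1 ≤ s / 2 := by omega
  have h2 : s / 2 ≤ t / 2 := by omega
  generalize s / 2 = a at *
  generalize t / 2 = b at *
  have ha : (1 : ℝ) ≤ a := by exact_mod_cast h1
  have hab : (a : ℝ) ≤ b := by exact_mod_cast h2
  have ha0 : (0 : ℝ) < a := by linarith
  have hb0 : (0 : ℝ) < b := by linarith
  have e1 : 1 / (b : ℝ) - 1 / ((b : ℝ) + 1) = 1 / ((b : ℝ) * ((b : ℝ) + 1)) := by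
    field_simp
    ring
  have e2 : 1 / (a : ℝ) - 1 / ((a : ℝ) + 1) = 1 / ((a : ℝ) * ((a : ℝ) + 1)) := by
    field_simp
    ring
  rw [e1, e2]
  apply one_div_le_one_div_of_le (by positivity)
  nlinarith

theorem dle (e : ℕ) : dl (2 * e) = 1 / (((e : ℝ) + 1) * ((e : ℝ) + 2)) := by
  unfold dl
  rw [show 2 * e + 3 = 2 * e + 2 + 1 by ring, diff]
  have e1 : (2 * e + 2) / 2 = e + 1 := by omega
  rw [e1]
  push_cast
  have : (0 : ℝ) ≤ e := Nat.cast_nonneg _
  field_simp
  ring

theorem dlo (e : ℕ) : dl (2 * e + 1) = 1 / (((e : ℝ) + 1) * ((e : ℝ) + 2)) := by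
  unfold dl
  rw [show 2 * e + 1 + 3 = 2 * e + 1 + 2 + 1 by ring, diff]
  have e1 : (2 * e + 1 + 2) / 2 = e + 1 := by omega
  rw [e1]
  push_cast
  have : (0 : ℝ) ≤ e := Nat.cast_nonneg _
  field_simp
  ring

theorem phe (e : ℕ) : phi (2 * e + 2) = 2 / ((e : ℝ) + 1) := by
  rw [show 2 * e + 2 = 2 * (e + 1) by ring, phi_even]
  push_cast
  ring

theorem pho (e : ℕ) : phi (2 * e + 1 + 2) = 1 / ((e : ℝ) + 1) + 1 / ((e : ℝ) + 2) := by
  rw [show 2 * e + 1 + 2 = 2 * (e + 1) + 1 by ring, phi_odd]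
  push_cast
  ring

theorem four (d : ℕ) (hd : 4 ≤ d) : 0 ≤ dl d ∧ d * dl d ≤ 1 ∧ 1 / (d : ℝ) ≤ phi (d + 2) ∧
    phi (d + 2) ≤ 1 ∧ 2 * (phi (d + 2) - 1 / d) ≤ 1 - d * dl d / 2 ∧
    3 / 2 * ((d : ℝ) - 1) * dl d ≤ 1 - d * dl d / 2 := by
  rcases Nat.even_or_odd' d with ⟨e, rfl | rfl⟩
  · have he : 2 ≤ e := by omega
    have he' : (2 : ℝ) ≤ e := by exact_mod_cast he
    have h0 : (0 : ℝ) < e := by linarith
    rw [dle, phe]
    push_cast
    refine ⟨by positivity, ?_, ?_, ?_, ?_, ?_⟩
    · rw [mul_one_div, div_le_one (by positivity)]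
      nlinarith
    · rw [div_le_div_iff₀ (by positivity) (by positivity)]
      nlinarith
    · rw [div_le_one (by positivity)]
      linarith
    · have key : 1 - 2 * (e : ℝ) * (1 / (((e : ℝ) + 1) * ((e : ℝ) + 2))) / 2 -
          2 * (2 / ((e : ℝ) + 1) - 1 / (2 * (e : ℝ))) =
          ((e : ℝ) ^ 3 - (e : ℝ) ^ 2 - 3 * (e : ℝ) + 2) / ((e : ℝ) * ((e : ℝ) + 1) * ((e : ℝ) + 2)) := by
        field_simp
        ring
      have h2 : 0 ≤ ((e : ℝ) ^ 3 - (e : ℝ) ^ 2 - 3 * (e : ℝ) + 2) /
          ((e : ℝ) * ((e : ℝ) + 1) * ((e : ℝ) + 2)) := by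
        apply div_nonneg _ (by positivity)
        nlinarith [mul_nonneg h0.le (sub_nonneg.2 he'), sq_nonneg ((e : ℝ) - 2),
          mul_nonneg (mul_nonneg h0.le h0.le) (sub_nonneg.2 he')]
      linarith
    · have key : 1 - 2 * (e : ℝ) * (1 / (((e : ℝ) + 1) * ((e : ℝ) + 2))) / 2 -
          3 / 2 * (2 * (e : ℝ) - 1) * (1 / (((e : ℝ) + 1) * ((e : ℝ) + 2))) =
          ((e : ℝ) ^ 2 - (e : ℝ) + 7 / 2) / (((e : ℝ) + 1) * ((e : ℝ) + 2)) := by
        field_simp
        ring
      have h2 : 0 ≤ ((e : ℝ) ^ 2 - (e : ℝ) + 7 / 2) / (((e : ℝ) + 1) * ((e : ℝ) + 2)) := by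
        apply div_nonneg _ (by positivity)
        nlinarith
      linarith
  · have he : 2 ≤ e := by omega
    have he' : (2 : ℝ) ≤ e := by exact_mod_cast he
    have h0 : (0 : ℝ) < e := by linarith
    rw [dlo, pho]
    push_cast
    refine ⟨by positivity, ?_, ?_, ?_, ?_, ?_⟩
    · rw [mul_one_div, div_le_one (by positivity)]
      nlinarith
    · have : 1 / (2 * (e : ℝ) + 1) ≤ 1 / ((e : ℝ) + 1) :=
        one_div_le_one_div_of_le (by positivity) (by linarith)
      have h3 : 0 ≤ 1 / ((e : ℝ) + 2) := by positivity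
      linarith
    · have h1 : 1 / ((e : ℝ) + 1) ≤ 1 / 3 := one_div_le_one_div_of_le (by norm_num) (by linarith)
      have h3 : 1 / ((e : ℝ) + 2) ≤ 1 / 4 := one_div_le_one_div_of_le (by norm_num) (by linarith)
      linarith
    · have key : 1 - (2 * (e : ℝ) + 1) * (1 / (((e : ℝ) + 1) * ((e : ℝ) + 2))) / 2 -
          2 * (1 / ((e : ℝ) + 1) + 1 / ((e : ℝ) + 2) - 1 / (2 * (e : ℝ) + 1)) =
          (2 * (e : ℝ) ^ 3 - (e : ℝ) ^ 2 - 5 * (e : ℝ) - 1 / 2) /
            ((2 * (e : ℝ) + 1) * ((e : ℝ) + 1) * ((e : ℝ) + 2)) := by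
        field_simp
        ring
      have h2 : 0 ≤ (2 * (e : ℝ) ^ 3 - (e : ℝ) ^ 2 - 5 * (e : ℝ) - 1 / 2) /
            ((2 * (e : ℝ) + 1) * ((e : ℝ) + 1) * ((e : ℝ) + 2)) := by
        apply div_nonneg _ (by positivity)
        nlinarith [mul_nonneg h0.le (sub_nonneg.2 he'), sq_nonneg ((e : ℝ) - 2),
          mul_nonneg (mul_nonneg h0.le h0.le) (sub_nonneg.2 he')]
      linarith
    · have key : 1 - (2 * (e : ℝ) + 1) * (1 / (((e : ℝ) + 1) * ((e : ℝ) + 2))) / 2 -
          3 / 2 * (2 * (e : ℝ) + 1 - 1) * (1 / (((e : ℝ) + 1) * ((e : ℝ) + 2))) =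
          ((e : ℝ) ^ 2 - (e : ℝ) + 3 / 2) / (((e : ℝ) + 1) * ((e : ℝ) + 2)) := by
        field_simp
        ring
      have h2 : 0 ≤ ((e : ℝ) ^ 2 - (e : ℝ) + 3 / 2) / (((e : ℝ) + 1) * ((e : ℝ) + 2)) := by
        apply div_nonneg _ (by positivity)
        nlinarith
      linarith

end PHIM

open PHIM in
theorem specPHI : SpecPHI := by
  refine ⟨?_, ?_, ?_, four, ?_, ?_⟩
  · intro a b ha hb
    have ha' : (1 : ℝ) ≤ a := by exact_mod_cast ha
    have hb' : (1 : ℝ) ≤ b := by exact_mod_cast hb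
    unfold phi
    obtain ⟨p, hp⟩ : ∃ p, p = (a + b) / 2 := ⟨_, rfl⟩
    obtain ⟨q, hq⟩ : ∃ q, q = (a + b + 1) / 2 := ⟨_, rfl⟩
    rw [← hp, ← hq]
    have hp1 : 1 ≤ p := by omega
    have hq1 : 1 ≤ q := by omega
    have hs : p + q = a + b := by omega
    have hc : a ≤ p ∨ q ≤ a := by omega
    have hpq : p ≤ q := by omega
    have hp' : (1 : ℝ) ≤ p := by exact_mod_cast hp1
    have hq' : (1 : ℝ) ≤ q := by exact_mod_cast hq1
    have hs' : (p : ℝ) + q = a + b := by exact_mod_cast hs
    have hpq' : (p : ℝ) ≤ q := by exact_mod_cast hpq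
    have hc' : (a : ℝ) ≤ p ∨ (q : ℝ) ≤ a := by
      rcases hc with h | h
      · left; exact_mod_cast h
      · right; exact_mod_cast h
    have hm : (a : ℝ) * b ≤ p * q := by
      have e : (p : ℝ) * q - a * b = (a - p) * (a - q) := by
        have : (b : ℝ) = p + q - a := by linarith
        rw [this]
        ring
      have : 0 ≤ ((a : ℝ) - p) * (a - q) := by
        rcases hc' with h | h
        · exact mul_nonneg_of_nonpos_of_nonpos (by linarith) (by linarith)
        · exact mul_nonneg (by linarith) (by linarith)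
      linarith
    have e1 : 1 / (p : ℝ) + 1 / (q : ℝ) = (a + b) / (p * q) := by
      rw [← hs']
      field_simp
      ring
    have e2 : 1 / (a : ℝ) + 1 / (b : ℝ) = (a + b) / (a * b) := by
      field_simp
      ring
    rw [e1, e2]
    exact div_le_div_of_nonneg_left (by linarith) (by positivity) hm
  · intro s t hs hst
    have h1 : 1 ≤ s / 2 := by omega
    have h2 : s / 2 ≤ t / 2 := by omega
    have h3 : 1 ≤ (s + 1) / 2 := by omega
    have h4 : (s + 1) / 2 ≤ (t + 1) / 2 := by omega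
    unfold phi
    have h1' : (1 : ℝ) ≤ ((s / 2 : ℕ) : ℝ) := by exact_mod_cast h1
    have h2' : ((s / 2 : ℕ) : ℝ) ≤ ((t / 2 : ℕ) : ℝ) := by exact_mod_cast h2
    have h3' : (1 : ℝ) ≤ (((s + 1) / 2 : ℕ) : ℝ) := by exact_mod_cast h3
    have h4' : (((s + 1) / 2 : ℕ) : ℝ) ≤ (((t + 1) / 2 : ℕ) : ℝ) := by exact_mod_cast h4
    constructor
    · exact add_le_add (one_div_le_one_div_of_le (by linarith) h2')
        (one_div_le_one_div_of_le (by linarith) h4')
    · have : 0 < 1 / ((s / 2 : ℕ) : ℝ) := by apply one_div_pos.2; linarith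
      have : 0 < 1 / (((s + 1) / 2 : ℕ) : ℝ) := by apply one_div_pos.2; linarith
      linarith
  · intro s l hs
    induction l with
    | zero => simp
    | succ l ih =>
      have h := diff_anti hs (show s ≤ s + l by omega)
      rw [show s + (l + 1) = s + l + 1 by ring]
      push_cast
      linarith
  · intro d hd
    obtain ⟨e, he⟩ := hd
    have : d = 2 * e := by omega
    subst this
    rw [phe]
    push_cast
    have : (0 : ℝ) ≤ e := Nat.cast_nonneg _
    field_simp
    ring
  · intro d hd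
    obtain ⟨e, rfl⟩ := hd
    rw [pho]
    push_cast
    have h0 : (0 : ℝ) ≤ e := Nat.cast_nonneg _
    constructor
    · field_simp
      ring
    · have key : 1 / ((e : ℝ) + 1) + 1 / ((e : ℝ) + 2) - 4 / (2 * (e : ℝ) + 1 + 2) =
          1 / (((e : ℝ) + 1) * ((e : ℝ) + 2) * (2 * (e : ℝ) + 3)) := by
        have : (2 * (e : ℝ) + 1 + 2) = 2 * (e : ℝ) + 3 := by ring
        rw [this]
        field_simp
        ring
      have : 0 < 1 / (((e : ℝ) + 1) * ((e : ℝ) + 2) * (2 * (e : ℝ) + 3)) := by positivity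
      linarith

end Pool.Agent.Lib.MP4d044e
end

section
/-!
# MP_4d044e_co, module RED: a repetition gives a closed walk
-/
open Classical Finset

namespace Pool.Agent.Lib.MP4d044e

/-- a closed alternating walk with `2 m` steps -/
theorem RED_closed {E X Y : Type} {A : E → X} {B : E → Y} {g : ℕ} (hG : Gir A B g) (u : ℕ → E)
    (m c : ℕ) (hm : 1 ≤ m) (hmg : m ≤ g)
    (h1 : ∀ r, r + 1 < 2 * m → u r ≠ u (r + 1) ∧ (Even (r + c) → A (u r) = A (u (r + 1))) ∧
      (Odd (r + c) → B (u r) = B (u (r + 1))))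
    (h2 : u (2 * m - 1) ≠ u 0 ∧ (Even (2 * m - 1 + c) → A (u (2 * m - 1)) = A (u 0)) ∧
      (Odd (2 * m - 1 + c) → B (u (2 * m - 1)) = B (u 0))) : False := by
  have hpos : 0 < 2 * m := by omega
  refine hG (fun k => u ((k + c) % (2 * m))) ?_ m hm hmg ?_
  · intro k
    have hr := Nat.mod_lt (k + c) hpos
    have hdiv := Nat.div_add_mod (k + c) (2 * m)
    set r := (k + c) % (2 * m) with hrdef
    obtain ⟨w, hw⟩ : ∃ w, k + c = 2 * w + r := ⟨m * ((k + c) / (2 * m)), by
      rw [← Nat.mul_assoc]; exact hdiv.symm⟩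
    have hnext : (k + 1 + c) % (2 * m) = (r + 1) % (2 * m) := by
      have : k + 1 + c = 2 * m * ((k + c) / (2 * m)) + (r + 1) := by omega
      rw [this, Nat.mul_add_mod]
    have hE : Even k ↔ Even (r + c) := by
      rw [Nat.even_iff, Nat.even_iff]
      omega
    have hO : Odd k ↔ Odd (r + c) := by
      rw [Nat.odd_iff, Nat.odd_iff]
      omega
    show u r ≠ u ((k + 1 + c) % (2 * m)) ∧ (Even k → A (u r) = A (u ((k + 1 + c) % (2 * m)))) ∧
      (Odd k → B (u r) = B (u ((k + 1 + c) % (2 * m))))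
    rw [hnext, hE, hO]
    rcases Nat.lt_or_ge (r + 1) (2 * m) with hlt | hge
    · rw [Nat.mod_eq_of_lt hlt]
      exact h1 r hlt
    · have hr' : r = 2 * m - 1 := by omega
      have h0 : (r + 1) % (2 * m) = 0 := by
        rw [show r + 1 = 2 * m by omega, Nat.mod_self]
      rw [h0, hr']
      exact h2
  · intro i
    show u ((i + 2 * m + c) % (2 * m)) = u ((i + c) % (2 * m))
    rw [show i + 2 * m + c = i + c + 2 * m by ring, Nat.add_mod_right]

theorem RED_core {E X Y : Type} {A : E → X} {B : E → Y} {g : ℕ} (hG : Gir A B g) {s : ℕ → E}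
    (hs : RW A B s) : ∀ n i : ℕ, 1 ≤ n → n ≤ 2 * g → s i ≠ s (i + n) := by
  intro n
  induction n using Nat.strong_induction_on with
  | _ n ih =>
    intro i hn hng heq
    rcases Nat.even_or_odd n with ⟨m, hm⟩ | ⟨m, hm⟩
    · have hnm : n = 2 * m := by omega
      refine RED_closed hG (fun r => s (i + r)) m i (by omega) (by omega) ?_ ?_
      · intro r _
        have h := hs (i + r)
        refine ⟨h.1, fun hE => h.2.1 ?_, fun hO => h.2.2 ?_⟩
        · rwa [Nat.add_comm] at hE
        · rwa [Nat.add_comm] at hO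
      · have h := hs (i + (2 * m - 1))
        have e1 : i + (2 * m - 1) + 1 = i + n := by omega
        rw [e1, ← heq] at h
        refine ⟨h.1, fun hE => h.2.1 ?_, fun hO => h.2.2 ?_⟩
        · rwa [Nat.add_comm] at hE
        · rwa [Nat.add_comm] at hO
    · rcases Nat.eq_zero_or_pos m with hm0 | hm0
      · have : n = 1 := by omega
        subst this
        exact (hs i).1 heq
      · by_cases hp : s (i + 1) = s (i + 1 + (n - 2))
        · exact ih (n - 2) (by omega) (i + 1) (by omega) (by omega) hp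
        · refine RED_closed hG (fun r => s (i + 1 + r)) m (i + 1) (by omega) (by omega) ?_ ?_
          · intro r _
            have h := hs (i + 1 + r)
            refine ⟨h.1, fun hE => h.2.1 ?_, fun hO => h.2.2 ?_⟩
            · rwa [Nat.add_comm] at hE
            · rwa [Nat.add_comm] at hO
          · have e1 : i + 1 + (2 * m - 1) = i + 1 + (n - 2) := by omega
            have e2 : i + 1 + (n - 2) + 1 = i + n := by omega
            have h := hs (i + 1 + (n - 2))
            rw [e2, ← heq] at h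
            have h' := hs i
            show s (i + 1 + (2 * m - 1)) ≠ s (i + 1 + 0) ∧
              (Even (2 * m - 1 + (i + 1)) → A (s (i + 1 + (2 * m - 1))) = A (s (i + 1 + 0))) ∧
              (Odd (2 * m - 1 + (i + 1)) → B (s (i + 1 + (2 * m - 1))) = B (s (i + 1 + 0)))
            rw [e1, Nat.add_zero]
            refine ⟨fun hh => hp hh.symm, fun hE => ?_, fun hO => ?_⟩
            · have hi : Even i := by
                rw [Nat.even_iff] at hE ⊢
                omega
              rw [h.2.1 (by rw [Nat.even_iff] at hE ⊢; omega)]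
              exact h'.2.1 hi
            · have hi : Odd i := by
                rw [Nat.odd_iff] at hO ⊢
                omega
              rw [h.2.2 (by rw [Nat.odd_iff] at hO ⊢; omega)]
              exact h'.2.2 hi

theorem specRED : SpecRED := by
  intro E X Y A B g hG s hs i j hij hj
  have := RED_core hG hs (j - i) i (by omega) (by omega)
  rwa [show i + (j - i) = j by omega] at this

end Pool.Agent.Lib.MP4d044e
end

section
/-!
# MP_4d044e_co, module SUM: the weight of the tree
-/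
open Classical Finset

namespace Pool.Agent.Lib.MP4d044e

theorem specSUM (hTRE : SpecTRE) : SpecSUM := by
  intro V Z _ _ G W F D hBS hF hFB hheavy
  obtain ⟨r⟩ : Nonempty Z := hF.connected.nonempty
  obtain ⟨par, h, hr, hpar, hedge⟩ := hTRE Z F hF r
  -- weights
  set m : Z → ℕ := fun z => (W z ∩ W (par z)).card with hm
  have hm1 : ∀ z, z ≠ r → 1 ≤ m z := by
    intro z hz
    exact Finset.card_pos.2 (hFB (hpar z hz).1).2
  have hne : ∀ z, z ≠ r → par z ≠ z := fun z hz => (hpar z hz).1.ne'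
  -- a vertex in three different blocks is impossible
  have hthree : ∀ v x y z, v ∈ W x → v ∈ W y → v ∈ W z → x ≠ y → x ≠ z → y ≠ z → False := by
    intro v x y z hx hy hz hxy hxz hyz
    have h1 : ({x, y, z} : Finset Z) ⊆ univ.filter fun z => v ∈ W z := by
      intro t ht
      simp only [Finset.mem_insert, Finset.mem_singleton] at ht
      rw [Finset.mem_filter]
      rcases ht with rfl | rfl | rfl
      · exact ⟨Finset.mem_univ _, hx⟩
      · exact ⟨Finset.mem_univ _, hy⟩
      · exact ⟨Finset.mem_univ _, hz⟩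
    have h2 := (Finset.card_le_card h1).trans (hBS.two v)
    rw [Finset.card_eq_three.2 ⟨x, y, z, hxy, hxz, hyz, rfl⟩] at h2
    omega
  have hn2 : n2 W F = ∑ z ∈ univ.erase r, m z := by
    unfold n2
    have hset : (univ.filter fun v => ∃ x y, F.Adj x y ∧ v ∈ W x ∧ v ∈ W y) =
        (univ.erase r).biUnion fun z => W z ∩ W (par z) := by
      ext v
      simp only [Finset.mem_filter, Finset.mem_univ, true_and, Finset.mem_biUnion,
        Finset.mem_erase, Finset.mem_inter, and_true]
      constructor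
      · rintro ⟨x, y, hxy, hx, hy⟩
        rcases hedge x y hxy with ⟨h1, h2⟩ | ⟨h1, h2⟩
        · exact ⟨x, h1, hx, h2 ▸ hy⟩
        · exact ⟨y, h1, hy, h2 ▸ hx⟩
      · rintro ⟨z, hz, h1, h2⟩
        exact ⟨z, par z, (hpar z hz).1, h1, h2⟩
    rw [hset, Finset.card_biUnion]
    intro z hz z' hz' hzz'
    rw [Finset.mem_coe, Finset.mem_erase] at hz hz'
    show Disjoint (W z ∩ W (par z)) (W z' ∩ W (par z'))
    rw [Finset.disjoint_left]
    intro v hv hv'
    rw [Finset.mem_inter] at hv hv'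
    have a1 := (hpar z hz.1).2
    have a2 := (hpar z' hz'.1).2
    by_cases c1 : par z = z'
    · by_cases c2 : par z' = z
      · rw [c1] at a1
        rw [c2] at a2
        omega
      · exact hthree v z z' (par z') hv.1 hv'.1 hv'.2 hzz' (fun hh => c2 hh.symm)
          (hne z' hz'.1).symm
    · exact hthree v z (par z) z' hv.1 hv.2 hv'.1 (hne z hz.1).symm hzz' c1
  set M : ℕ := ∑ z ∈ univ.erase r, (m z - 1) with hM
  have hsum : ∑ z ∈ univ.erase r, m z = M + (univ.erase r : Finset Z).card := by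
    rw [hM, Finset.card_eq_sum_ones, ← Finset.sum_add_distrib]
    refine Finset.sum_congr rfl fun z hz => ?_
    have := hm1 z (Finset.ne_of_mem_erase hz)
    omega
  -- the choice of the edge
  have hc : ∀ z, 0 < sz W z → ∃ c, c ≠ r ∧ (z = c ∨ z = par c) ∧ sz W z ≤ m c - 1 := by
    intro z hz
    obtain ⟨y, -, hy⟩ := Finset.exists_mem_eq_sup (univ : Finset Z) ⟨z, Finset.mem_univ z⟩
      (fun y => if y = z then 0 else (W z ∩ W y).card - 1)
    have hsz : sz W z = if y = z then 0 else (W z ∩ W y).card - 1 := hy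
    have hyz : y ≠ z := by
      intro hh
      rw [if_pos hh] at hsz
      omega
    rw [if_neg hyz] at hsz
    have hadj : (BG W).Adj z y := by
      refine ⟨fun hh => hyz hh.symm, ?_⟩
      rw [← Finset.card_pos]
      omega
    obtain ⟨w, hzw, hle⟩ := hheavy z y hadj
    rcases hedge z w hzw with ⟨h1, h2⟩ | ⟨h1, h2⟩
    · refine ⟨z, h1, Or.inl rfl, ?_⟩
      have : m z = (W z ∩ W w).card := by
        simp only [hm, h2]
      omega
    · refine ⟨w, h1, Or.inr h2.symm, ?_⟩
      have : m w = (W z ∩ W w).card := by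
        simp only [hm, h2, Finset.inter_comm]
      omega
  choose! c hc1 hc2 hc3 using hc
  -- sums over sets on which `c` is injective
  have hkey : ∀ T : Finset Z, (∀ z ∈ T, 0 < sz W z) →
      (∀ z ∈ T, ∀ z' ∈ T, c z = c z' → z = z') → ∑ z ∈ T, sz W z ≤ M := by
    intro T hT hinj
    calc ∑ z ∈ T, sz W z ≤ ∑ z ∈ T, (m (c z) - 1) :=
          Finset.sum_le_sum fun z hz => hc3 z (hT z hz)
      _ = ∑ z ∈ T.image c, (m z - 1) := by
          rw [Finset.sum_image]
          intro z hz z' hz' hh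
          exact hinj z hz z' hz' hh
      _ ≤ M := by
          refine Finset.sum_le_sum_of_subset ?_
          intro z hz
          obtain ⟨y, hy, rfl⟩ := Finset.mem_image.1 hz
          exact Finset.mem_erase.2 ⟨hc1 y (hT y hy), Finset.mem_univ _⟩
  refine ⟨M, ?_, ?_, ?_⟩
  · rw [hn2, hsum, Finset.card_erase_of_mem (Finset.mem_univ r), Finset.card_univ]
    have : 0 < Fintype.card Z := Fintype.card_pos_iff.2 ⟨r⟩
    omega
  · have hsplit : ∑ z, sz W z ≤
        ∑ z ∈ univ.filter (fun z => 0 < sz W z ∧ z = c z), sz W z +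
        ∑ z ∈ univ.filter (fun z => 0 < sz W z ∧ z ≠ c z), sz W z := by
      rw [Finset.sum_filter, Finset.sum_filter, ← Finset.sum_add_distrib]
      refine Finset.sum_le_sum fun z _ => ?_
      by_cases h1 : 0 < sz W z
      · by_cases h2 : z = c z
        · rw [if_pos ⟨h1, h2⟩]
          omega
        · rw [if_neg (fun hh => h2 hh.2), if_pos ⟨h1, h2⟩]
          omega
      · omega
    have b1 := hkey (univ.filter (fun z => 0 < sz W z ∧ z = c z))
      (fun z hz => (Finset.mem_filter.1 hz).2.1) (by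
        intro z hz z' hz' hh
        rw [(Finset.mem_filter.1 hz).2.2, (Finset.mem_filter.1 hz').2.2, hh])
    have b2 := hkey (univ.filter (fun z => 0 < sz W z ∧ z ≠ c z))
      (fun z hz => (Finset.mem_filter.1 hz).2.1) (by
        intro z hz z' hz' hh
        have c1 := (Finset.mem_filter.1 hz).2
        have c2 := (Finset.mem_filter.1 hz').2
        rw [(hc2 z c1.1).resolve_left c1.2, (hc2 z' c2.1).resolve_left c2.2, hh])
    omega
  · intro A hA
    have hfil : ∑ z ∈ A, sz W z = ∑ z ∈ A.filter (fun z => 0 < sz W z), sz W z := by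
      rw [Finset.sum_filter]
      refine Finset.sum_congr rfl fun z _ => ?_
      split_ifs with h1
      · rfl
      · omega
    rw [hfil]
    refine hkey _ (fun z hz => (Finset.mem_filter.1 hz).2) ?_
    intro z hz z' hz' hh
    rw [Finset.mem_filter] at hz hz'
    by_contra hzz'
    have hadj : (BG W).Adj (c z) (par (c z)) := hFB (hpar (c z) (hc1 z hz.2)).1
    have q1 := hc2 z hz.2
    have q2 := hc2 z' hz'.2
    rw [← hh] at q2
    rcases q1 with q1 | q1
    · rcases q2 with q2 | q2
      · exact hzz' (q1.trans q2.symm)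
      · refine hA z hz.1 z' hz'.1 ?_
        have := hadj
        rw [← q2, ← q1] at this
        exact this
    · rcases q2 with q2 | q2
      · refine hA z hz.1 z' hz'.1 ?_
        have := hadj.symm
        rw [← q1, ← q2] at this
        exact this
      · exact hzz' (q1.trans q2.symm)

end Pool.Agent.Lib.MP4d044e
end

section
/-!
# MP_4d044e_co, claw-free graphs: TRE (rooted trees)
-/
open Classical Finset

namespace Pool.Agent.Lib.MP4d044e

theorem specTRE : SpecTRE := by
  intro Z _ F hT r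
  choose P hP hU using fun z => hT.existsUnique_path r z
  have huniq : ∀ z (p : F.Walk r z), p.IsPath → p = P z := fun z p hp => hU z p hp
  refine ⟨fun z => (P z).penultimate, fun z => (P z).length, ?_, ?_, ?_⟩
  · have h := huniq r SimpleGraph.Walk.nil SimpleGraph.Walk.IsPath.nil
    change (P r).length = 0
    rw [← h]; rfl
  · intro z hz
    have hnil : ¬ (P z).Nil := SimpleGraph.Walk.not_nil_of_ne (Ne.symm hz)
    refine ⟨((P z).adj_penultimate hnil).symm, ?_⟩
    have h1 := huniq _ (P z).dropLast (hP z).dropLast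
    have h2 := SimpleGraph.Walk.length_dropLast_add_one hnil
    change (P z).length = (P (P z).penultimate).length + 1
    rw [← h1, h2]
  · intro x y hxy
    -- if `y` is not on the path to `x`, the path to `y` passes through `x`
    have key : ∀ x y, F.Adj x y → y ∉ (P x).support → y ≠ r ∧ (P y).penultimate = x := by
      intro x y hxy hy
      constructor
      · rintro rfl
        exact hy (P x).start_mem_support
      · have h := huniq y ((P x).concat hxy) ((hP x).concat hy hxy)
        rw [← h]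
        exact SimpleGraph.Walk.penultimate_concat _ _
    by_cases hy : y ∈ (P x).support
    · left
      apply key y x hxy.symm
      intro hx
      have h1 : (P x).takeUntil y hy = P y := huniq y _ ((hP x).takeUntil hy)
      have h2 : (P y).takeUntil x hx = P x := huniq x _ ((hP y).takeUntil hx)
      have l1 := (P x).length_takeUntil_le_length hy
      have l2 := (P y).length_takeUntil_le_length hx
      rw [h1] at l1
      rw [h2] at l2
      have h3 := congrArg SimpleGraph.Walk.length ((P x).take_spec hy)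
      rw [SimpleGraph.Walk.length_append, h1] at h3
      have h4 : ((P x).dropUntil y hy).length = 0 := by omega
      exact hxy.ne (SimpleGraph.Walk.eq_of_length_eq_zero h4).symm
    · right
      exact key x y hxy hy

end Pool.Agent.Lib.MP4d044e
end

section
/-!
# MP_4d044e_co, claw-free graphs: module UPP
-/
open Classical Finset

namespace Pool.Agent.Lib.MP4d044e

namespace UPPM

theorem dg_eq {n : ℕ} (G : SimpleGraph (Fin n)) (v : Fin n) :
    dg G v = (G.neighborSet v).ncard := by
  unfold dg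
  rw [← Set.ncard_coe_finset]
  congr 1
  ext w
  simp

/-- Reachable vertices have the same label. -/
theorem label_eq {V α : Type} (H : SimpleGraph V) (l : V → α)
    (hl : ∀ v w, H.Adj v w → l v = l w) (v w : V) (h : H.Reachable v w) : l v = l w := by
  obtain ⟨p⟩ := h
  induction p with
  | nil => rfl
  | cons h _ ih => exact (hl _ _ h).trans ih

end UPPM

open UPPM in
theorem specUPP (hGLU : SpecGLU) : SpecUPP := by
  intro d hd ε hε
  obtain ⟨C, hC⟩ := hGLU d hd (ε - (1 - phi (d + 2))) (by linarith)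
  refine ⟨C, ?_⟩
  intro n G hG
  obtain ⟨S, ⟨α, l, hl, hlC⟩, hS⟩ := hC (Fin n) G hG.1 (fun v => by
    rw [dg_eq]; exact hG.2 v)
  refine ⟨Sᶜ, ?_, ?_⟩
  · have h1 : S.card ≤ n := by
      have := Finset.card_le_univ S
      simpa using this
    rw [Finset.card_compl, Fintype.card_fin, Nat.cast_sub h1]
    rw [Fintype.card_fin] at hS
    nlinarith [hS]
  · intro c
    obtain ⟨v0, hv0⟩ := c.exists_rep
    have hsub : (Subtype.val '' c.supp) ⊆ (↑(S.filter fun v => l v = l v0.1) : Set (Fin n)) := by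
      rintro _ ⟨v, hv, rfl⟩
      have hvS : v.1 ∈ S := by
        have := v.2
        simpa using this
      have hreach : ((G.induce ((↑(Sᶜ) : Set (Fin n))ᶜ))).Reachable v v0 := by
        have h1 : (G.induce ((↑(Sᶜ) : Set (Fin n))ᶜ)).connectedComponentMk v = c := hv
        rw [← hv0] at h1
        exact SimpleGraph.ConnectedComponent.exact h1
      have h2 := label_eq (G.induce ((↑(Sᶜ) : Set (Fin n))ᶜ)) (fun u => l u.1) (by
        intro a b hab
        have ha : a.1 ∈ S := by have := a.2; simpa using this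
        have hb : b.1 ∈ S := by have := b.2; simpa using this
        exact hl a.1 ha b.1 hb hab) v v0 hreach
      simp only [Finset.coe_filter, Set.mem_ofPred_eq]
      exact ⟨hvS, h2⟩
    calc c.supp.ncard = (Subtype.val '' c.supp).ncard :=
          (Set.ncard_image_of_injective _ Subtype.val_injective).symm
      _ ≤ (↑(S.filter fun v => l v = l v0.1) : Set (Fin n)).ncard :=
          Set.ncard_le_ncard hsub (Finset.finite_toSet _)
      _ = (S.filter fun v => l v = l v0.1).card := Set.ncard_coe_finset _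
      _ ≤ C := hlC _

end Pool.Agent.Lib.MP4d044e
end

section
/-!
# MP_4d044e_co, claw-free graphs: assembly
-/
namespace Pool.Agent.Lib.MP4d044e

theorem mainCF : MainCF := by
  have hPHI := specPHI
  have hLOC := specLOC hPHI
  have hDGR := specDGR
  have hCMP := specCMP
  have hBLK := specBLK hDGR hCMP
  have hDEF := specDEF hPHI hDGR hCMP hBLK
  have hINE := specINE hPHI hLOC hDGR hCMP hBLK hDEF
  have hMST := specMST
  have hTRE := specTRE
  have hCUT := specCUT
  have hFRG := specFRG hTRE hCUT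
  have hSUM := specSUM hTRE
  have hCON := specCON
  have hCN1 := specCN1 hBLK hINE hMST hFRG hSUM hCON
  have hGLU := specGLU hPHI hCN1
  have hUPP := specUPP hGLU
  have hRED := specRED
  have hCOV := specCOV hRED
  have hGIR := specGIR hCOV
  have hCOR := specCOR hRED
  have hLOW := specLOW hGIR hCOR
  exact specMAI hPHI hUPP hLOW

end Pool.Agent.Lib.MP4d044e
end
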