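import Pool.Agent.Lib.MP_4d044e_co.CF.Stmt

/-!
# MP_4d044e_co: the coefficient of fragmentability of claw-free graphs: definitions

The definitions used in the statement of the main theorem are in `Stmt.lean`.
-/

open Classical Finset

namespace Pool.Agent.Lib.MP4d044e

/-! ## 1. The main statement -/

/-- The main theorem. The coefficient of fragmentability of the claw-free graphs of maximum degree at
most `d` is `(d-2)/(d+2)` for even `d ≥ 4` and `1 - 4(d+2)/((d+1)(d+3)) < (d-2)/(d+2)` for odd `d ≥ 5`;
for every larger `ε` the class is `ε`-fragmentable. -/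
def MainCF : Prop :=
  ∀ d : ℕ, 4 ≤ d →
    (Even d → coef (ClassCF d) = ((d : ℝ) - 2) / ((d : ℝ) + 2)) ∧
    (Odd d → coef (ClassCF d) = 1 - 4 * ((d : ℝ) + 2) / (((d : ℝ) + 1) * ((d : ℝ) + 3)) ∧
      coef (ClassCF d) < ((d : ℝ) - 2) / ((d : ℝ) + 2)) ∧
    (∀ ε : ℝ, coef (ClassCF d) < ε → Fragmentable (ClassCF d) ε)

/-! ## 2. Numbers -/

/-- `φ(s) = 1/⌊s/2⌋ + 1/⌈s/2⌉`. -/
noncomputable def phi (s : ℕ) : ℝ := 1 / ((s / 2 : ℕ) : ℝ) + 1 / (((s + 1) / 2 : ℕ) : ℝ)

/-- `δ = φ(d+2) - φ(d+3)`. -/
noncomputable def dl (d : ℕ) : ℝ := phi (d + 2) - phi (d + 3)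

/-! ## 3. Fragments with labels -/

section
variable {V : Type} [Fintype V]

/-- `S` can be labelled such that adjacent vertices of `S` have the same label and every label is used
at most `C` times in `S`. -/
def Frag (G : SimpleGraph V) (S : Finset V) (C : ℕ) : Prop :=
  ∃ (α : Type) (l : V → α), (∀ v ∈ S, ∀ w ∈ S, G.Adj v w → l v = l w) ∧
    ∀ x : α, (S.filter fun v => l v = x).card ≤ C

/-- The degree. -/
noncomputable def dg (G : SimpleGraph V) (v : V) : ℕ := (univ.filter fun w => G.Adj v w).card

/-- The number of common neighbours. -/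
noncomputable def cm (G : SimpleGraph V) (i v : V) : ℕ :=
  (univ.filter fun w => G.Adj v w ∧ G.Adj i w).card

/-! ## 4. Block systems -/

/-- A block system: every vertex is in one or two blocks, every edge of `G` is inside a block, the
blocks are not empty and have at most `D` elements. -/
structure BS {Z : Type} [Fintype Z] (G : SimpleGraph V) (W : Z → Finset V) (D : ℕ) : Prop where
  one : ∀ v, 1 ≤ (univ.filter fun z => v ∈ W z).card
  two : ∀ v, (univ.filter fun z => v ∈ W z).card ≤ 2
  edge : ∀ v w, G.Adj v w → ∃ z, v ∈ W z ∧ w ∈ W z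
  ne : ∀ z, (W z).Nonempty
  le : ∀ z, (W z).card ≤ D

/-- The block graph. -/
def BG {Z : Type} [Fintype Z] (W : Z → Finset V) : SimpleGraph Z where
  Adj x y := x ≠ y ∧ (W x ∩ W y).Nonempty
  symm := ⟨fun x y h => ⟨h.1.symm, by rw [Finset.inter_comm]; exact h.2⟩⟩
  loopless := ⟨fun x h => h.1 rfl⟩

/-- The number of vertices in exactly one block. -/
noncomputable def n1 {Z : Type} [Fintype Z] (W : Z → Finset V) : ℕ :=
  (univ.filter fun v => (univ.filter fun z => v ∈ W z).card = 1).card

/-- The number of vertices which are in two blocks joined by an edge of `F`. -/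
noncomputable def n2 {Z : Type} [Fintype Z] (W : Z → Finset V) (F : SimpleGraph Z) : ℕ :=
  (univ.filter fun v => ∃ x y, F.Adj x y ∧ v ∈ W x ∧ v ∈ W y).card

/-- The largest cardinality of an intersection of `W z` with another block, minus one. -/
noncomputable def sz {Z : Type} [Fintype Z] (W : Z → Finset V) (z : Z) : ℕ :=
  univ.sup fun y => if y = z then 0 else (W z ∩ W y).card - 1

/-! ## 5. The block system of a maximal independent set of a claw-free graph -/

/-- `I` is a maximal independent set. -/
def MaxInd (G : SimpleGraph V) (I : Finset V) : Prop :=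
  (∀ v ∈ I, ∀ w ∈ I, ¬ G.Adj v w) ∧ ∀ v, v ∉ I → ∃ i ∈ I, G.Adj v i

/-- The neighbours of `v` in `I`. -/
noncomputable def inb (G : SimpleGraph V) (I : Finset V) (v : V) : Finset V :=
  I.filter fun i => G.Adj v i

/-- The vertices outside `I` with exactly one neighbour in `I`. -/
noncomputable def V1 (G : SimpleGraph V) (I : Finset V) : Finset V :=
  univ.filter fun v => v ∉ I ∧ (inb G I v).card = 1

/-- The vertices outside `I` with exactly two neighbours in `I`. -/
noncomputable def V2 (G : SimpleGraph V) (I : Finset V) : Finset V :=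
  univ.filter fun v => v ∉ I ∧ (inb G I v).card = 2

/-- The graph of the edges between vertices of `V1` with different neighbours in `I`. -/
def G1 (G : SimpleGraph V) (I : Finset V) : SimpleGraph V where
  Adj p q := p ∈ V1 G I ∧ q ∈ V1 G I ∧ G.Adj p q ∧ inb G I p ≠ inb G I q
  symm := ⟨fun _ _ h => ⟨h.2.1, h.1, h.2.2.1.symm, h.2.2.2.symm⟩⟩
  loopless := ⟨fun _ h => h.2.2.2 rfl⟩

/-- The component of `p` in `G1`. -/
noncomputable def cp (G : SimpleGraph V) (I : Finset V) (p : V) : Finset V :=
  univ.filter fun q => (G1 G I).Reachable p q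

/-- The components of `G1` inside `V1`. -/
noncomputable def UU (G : SimpleGraph V) (I : Finset V) : Finset (Finset V) :=
  (V1 G I).image (cp G I)

/-- The index set of the blocks. -/
abbrev Nd (G : SimpleGraph V) (I : Finset V) : Type := {i // i ∈ I} ⊕ {X // X ∈ UU G I}

/-- The blocks: the closed neighbourhoods of the elements of `I` and the components of `G1`. -/
noncomputable def W (G : SimpleGraph V) (I : Finset V) : Nd G I → Finset V
  | Sum.inl i => univ.filter fun v => v = i.1 ∨ G.Adj i.1 v
  | Sum.inr X => X.1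

end

/-! ## 6. Alternating walks (lower bound) -/

section
variable {E X Y : Type}

/-- A reduced alternating walk for the two maps `A`, `B` on `E`: consecutive elements are different and
have the same image under `A` (even steps) or `B` (odd steps). -/
def RW (A : E → X) (B : E → Y) (s : ℕ → E) : Prop :=
  ∀ i, s i ≠ s (i + 1) ∧ (Even i → A (s i) = A (s (i + 1))) ∧ (Odd i → B (s i) = B (s (i + 1)))

/-- There is no closed reduced alternating walk of length `2 m`, `1 ≤ m ≤ g`. -/
def Gir (A : E → X) (B : E → Y) (g : ℕ) : Prop :=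
  ∀ s : ℕ → E, RW A B s → ∀ m, 1 ≤ m → m ≤ g → ¬ ∀ i, s (i + 2 * m) = s i

/-- The graph on `E` in which different elements with the same image under `A` or `B` are adjacent. -/
def LG (A : E → X) (B : E → Y) : SimpleGraph E where
  Adj x y := x ≠ y ∧ (A x = A y ∨ B x = B y)
  symm := ⟨fun _ _ h => ⟨h.1.symm, h.2.imp Eq.symm Eq.symm⟩⟩
  loopless := ⟨fun _ h => h.1 rfl⟩

/-- The first map of the cover. -/
def cA (A : E → X) (x : E × (E → ZMod 2)) : X × (E → ZMod 2) := (A x.1, x.2)

/-- The second map of the cover. -/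
noncomputable def cB (B : E → Y) (x : E × (E → ZMod 2)) : Y × (E → ZMod 2) :=
  (B x.1, x.2 + Pi.single x.1 1)

end

end Pool.Agent.Lib.MP4d044e
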