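import Pool.Agent.Lib.MP_4d044e_co.CF.Defs

/-!
# MP_4d044e_co, claw-free graphs: Specs of all modules (proofs in the docstrings)

`f = phi (d+2)`, `δ = dl d`. Everything is over finite types in `Type`, classical decidability.

Overview. Upper bound: `G` claw-free, maximum degree `≤ d`, `I` a maximal independent set. Every `v ∉ I`
has one (`V1`) or two (`V2`) neighbours in `I`. Blocks: the closed neighbourhoods `N[i]`, `i ∈ I`, and the
components `X` of the graph `G1` on `V1` (edges of `G` between vertices with different `I`-neighbours).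
Every `v ∈ I` is in one block, every `v ∉ I` in two, and every edge of `G` is inside a block. For a spanning
tree `F` of the block graph, the set `S = I ∪ {v : F joins the two blocks of v}` is tree-like and can be
cut into bounded pieces at small cost; `|S| ≥ f n - 1` if `F` contains a heaviest edge at every block.
Lower bound: line graphs of biregular bipartite graphs of large girth (Haxell, Pikhurko, Thomason).
-/

open Classical Finset

namespace Pool.Agent.Lib.MP4d044e

/-! ## I. Numbers -/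

/-- **PHI** [120]. (1) Let `a ≤ b`, `a + b = s`: if `b ≤ a + 1` these are the two halves; otherwise
`1/a + 1/b ≥ 1/(a+1) + 1/(b-1)`, induction on `b - a` (or: `1/a + 1/b = s/(a b)` and `a b ≤ ⌊s/2⌋⌈s/2⌉`, as
`4 a b = s² - (b-a)²`). (2) and (3): `phi s - phi (s+1) = 1/(h (h+1))`, `h = ⌊s/2⌋` (parity), which is `≥ 0` and does not increase
with `s`; (3) by induction on `l`. (4) With `d = 2 e` or `d = 2 e + 1`: `phi (d+2) = 2/(e+1)` or `1/(e+1) + 1/(e+2)`,
`dl d = 1/((e+1)(e+2))` in both cases; clear denominators (the third inequality is `d³ - 2d² - 12 d + 16 ≥ 0`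
for even `d` and `d³ - 4d² - 5 d + 6 ≥ 0` for odd `d`; the fourth is `2 d - 3/2 ≤ (e+1)(e+2)`). -/
def SpecPHI : Prop :=
  (∀ a b : ℕ, 1 ≤ a → 1 ≤ b → phi (a + b) ≤ 1 / (a : ℝ) + 1 / (b : ℝ)) ∧
  (∀ s t : ℕ, 2 ≤ s → s ≤ t → phi t ≤ phi s ∧ 0 < phi s) ∧
  (∀ s l : ℕ, 2 ≤ s → phi s - l * (phi s - phi (s + 1)) ≤ phi (s + l)) ∧
  (∀ d : ℕ, 4 ≤ d → 0 ≤ dl d ∧ d * dl d ≤ 1 ∧ 1 / (d : ℝ) ≤ phi (d + 2) ∧ phi (d + 2) ≤ 1 ∧
    2 * (phi (d + 2) - 1 / d) ≤ 1 - d * dl d / 2 ∧
    3 / 2 * ((d : ℝ) - 1) * dl d ≤ 1 - d * dl d / 2) ∧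
  (∀ d : ℕ, Even d → phi (d + 2) = 4 / ((d : ℝ) + 2)) ∧
  (∀ d : ℕ, Odd d → phi (d + 2) = 4 * ((d : ℝ) + 2) / (((d : ℝ) + 1) * ((d : ℝ) + 3)) ∧
    4 / ((d : ℝ) + 2) < phi (d + 2))

/-- **LOC** [150], from PHI. The local inequality. Let `n = #N`, `c_v` the number of `w ∈ N`, `w ≠ v`, not adjacent to
`v`, so the number of neighbours in `N` is `n - 1 - c_v` and the term of `v` is `1/(n + 1 - c_v)`. Let
`B = 2 - phi (n+2)`, `κ = B/n` (`n = 0`: `0 ≤ 2 - phi 2 = 0`). For `v, w ∈ N` different and not adjacent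
`c_v + c_w ≤ n` (no vertex is non-adjacent to both, as three pairwise non-adjacent vertices are excluded; count: the
non-neighbours of `v` and the non-neighbours of `w` are disjoint). For `1 ≤ c` let `F(c) = (1/(n+1-c) - κ)/c`. (i) `F(x) ≤ F(x')` for
`1 ≤ x ≤ x' < n`: clearing, `(x'-x)(n+1-x-x')/((n+1-x)(n+1-x')) ≤ κ (x'-x)`, true as `(n+1-x)(n+1-x') ≥
(n+1)(n+1-x-x')` and `1/(n+1) ≤ κ` [as `n/(n+1) ≤ 2 - phi(n+2)`, i.e. `phi (n+2) ≤ 1 + 1/(n+1)`, PHI (1)].
(ii) `F(c) + F(n-c) ≤ 0` for `1 ≤ c ≤ n - 1`: times `c (n-c)` it is `2 - 1/(n+1-c) - 1/(c+1) ≤ B`, PHI (1). So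
`F(c_v) + F(c_w) ≤ F(n-c_w) + F(c_w) ≤ 0` for every pair of different non-adjacent `v, w`. Sum over all ordered pairs:
`2 ∑_{v : c_v ≥ 1} c_v F(c_v) ≤ 0`, i.e. `∑_{c_v ≥ 1} (1/(n+1-c_v) - κ) ≤ 0`; the vertices with `c_v = 0` have
`1/(n+1) - κ ≤ 0`. -/
def SpecLOC : Prop := ∀ (V : Type) [Fintype V] (G : SimpleGraph V) (N : Finset V),
  (∀ a ∈ N, ∀ b ∈ N, ∀ c ∈ N, a ≠ b → a ≠ c → b ≠ c → G.Adj a b ∨ G.Adj a c ∨ G.Adj b c) →
  ∑ v ∈ N, 1 / (((N.filter fun w => G.Adj v w).card : ℝ) + 2) ≤ 2 - phi (N.card + 2)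

/-! ## II. The structure of claw-free graphs -/

/-- **DGR** [150]. Neighbourhoods. (1) `1 ≤ #inb` by maximality, `#inb ≤ 2` as three elements of `I` give a claw.
(2) for `v ∈ V2`, `inb v = {i,j}`, every neighbour `w ≠ i, j` of `v` is adjacent to `i` or `j` (claw `v; i, j, w`,
`i, j` not adjacent), so `dg v = 2 + cm i v + cm j v - l`, `l` the number of `w` adjacent to `v, i, j`. (3) These `w` are in `V2`
with `inb w = {i,j}` (`w ∉ I` and `#inb w ≤ 2`), as is `v` itself; so `l + 1 ≤ #(N[i] ∩ N[j])`. (4) `p ∈ V1`, `inb p = {i}`: a neighbour `w`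
of `p` is `i`, or `w ∉ I` and: if `w ∈ V2`, `inb w = {j,k}`, then `p` is adjacent to `j` or `k` (claw at `w`), so `w` is adjacent
to `i`; if `w ∈ V1` then `inb w = {i}`, `w` adjacent to `i`, or `G1.Adj p w`. These cases exclude each other. -/
def SpecDGR : Prop := ∀ (V : Type) [Fintype V] (G : SimpleGraph V) (I : Finset V),
  ClawFree G → MaxInd G I →
  (∀ v, v ∉ I → v ∈ V1 G I ∨ v ∈ V2 G I) ∧
  (∀ v, v ∉ I → ∀ w, w ∉ I → G.Adj v w →
    (∃ i ∈ I, G.Adj v i ∧ G.Adj w i) ∨ (G1 G I).Adj v w) ∧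
  (∀ v ∈ V2 G I, ∀ i ∈ I, ∀ j ∈ I, i ≠ j → G.Adj v i → G.Adj v j →
    ∃ l : ℕ, (cm G i v + 2) + (cm G j v + 2) = dg G v + 2 + l ∧
      l + 1 ≤ (univ.filter fun w => G.Adj w i ∧ G.Adj w j).card) ∧
  (∀ p ∈ V1 G I, ∀ i ∈ I, G.Adj p i →
    dg G p = 1 + cm G i p + (univ.filter fun q => (G1 G I).Adj p q).card)

/-- **CMP** [250]. The components of `G1`. Write `p ~ q` for `G1.Adj p q`; the class of `p` is `inb p = {i(p)}`. (a) The
`G1`-neighbours of `p` are pairwise equal or `G`-adjacent: claw `p; i(p), q, q'` (`q, q'` are not adjacent to `i(p)`). So (*): if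
`q ~ p`, `q' ~ p`, `q ≠ q'` then `inb q = inb q'` or `q ~ q'`. First part: clear (`X = cp p`; adjacent vertices are in `V1`).
If `#X ≥ 2` then every `p ∈ X` has a `G1`-neighbour (connected). If `X` meets at most two classes, we are in the second case
(both `i`, `j` occur as a neighbour has another class). Let `X` meet three classes. Then (b) some `z ∈ X` has neighbours
in two different classes: otherwise, starting with `p ~ q`, along every walk from `p` only the classes of `p` and `q` occur.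
(c) Let `M` be the set of `z ∈ X` with neighbours in two different classes; if `z ∈ M`, `q, r` its neighbours of
different classes and `t ~ z`, then `t` differs in class from `q` or from `r`, say `q`, so `t = q` or `t ~ q` by (*) (if `t = q` use `r`):
`t` has the neighbours `z` and `q` (or `r`) of different classes, so `t ∈ M`; so `M = X`. (d) If `p ~ z` and `z ~ w ~ t` with `p, t` of
different classes and `p ≠ t`: claim `p ~ t`. If `inb p ≠ inb w` then `p ~ w` or `p = w`, and (*) at `w` (or directly) gives the claim.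
If `inb p = inb w`: `z` has, by `M = X`, a neighbour `y` with `inb y ≠ inb p`; if `inb z ≠ inb t` similarly done by (*) (`z ~ t` or `z = t`), so let
`inb z = inb t`; `y ~ p` and `y ~ w` by (*) at `z`; (*) at `w`: `y` and `t` are neighbours of `w`, `inb y ≠ inb z = inb t`,
so `y ~ t`; (*) at `y`: `p ~ t`. (e) So by induction along walks any `p, q ∈ X` of different classes are adjacent: the distance cannot
be `≥ 3` (first four vertices of a shortest walk: the first and fourth are adjacent by (d) or of the same class; argue by induction on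
the length of the walk: every `q` reachable from `p` is adjacent to `p`, or has the class of `p`, and in that case `q = p` or `q` has a common
neighbour with `p`). -/
def SpecCMP : Prop := ∀ (V : Type) [Fintype V] (G : SimpleGraph V) (I : Finset V),
  ClawFree G → MaxInd G I → ∀ X ∈ UU G I,
  (X ⊆ V1 G I ∧ X.Nonempty ∧ (∀ p ∈ X, ∀ q, (G1 G I).Adj p q → q ∈ X) ∧ ∀ Y ∈ UU G I, Y ≠ X → X ∩ Y = ∅) ∧
  (X.card = 1 ∨
    (2 ≤ X.card ∧ (∃ i ∈ I, ∃ j ∈ I, i ≠ j ∧ ∀ p ∈ X, inb G I p = {i} ∨ inb G I p = {j}) ∧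
      ∀ p ∈ X, ∃ q, (G1 G I).Adj p q) ∨
    ((∀ p ∈ X, ∀ q ∈ X, inb G I p ≠ inb G I q → (G1 G I).Adj p q) ∧
      ∃ p ∈ X, ∃ q ∈ X, ∃ r ∈ X, inb G I p ≠ inb G I q ∧ inb G I p ≠ inb G I r ∧ inb G I q ≠ inb G I r))

/-- **BLK** [200], from DGR, CMP. The block system. A vertex `v ∈ I` is in `N[v]` only (`X ⊆ V1`); `v ∈ V2` is in `N[i], N[j]`
only; `p ∈ V1` in `N[i(p)]` and in `cp p` only. Edges: DGR (2), (`G1`-adjacent vertices are in the same component), and edges
at `i ∈ I` are in `N[i]`. Sizes: `#N[i] ≤ d + 1`; for `X`: first case `1`; second: every `p ∈ X` is adjacent to `i` or `j`: `≤ 2 d`; third: the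
`p, q, r` of three different classes, every element of `X` is `G`-adjacent to `p` or to `q` (it differs in class from one of the two): `≤ 2 d`.
The intersections: for `i ≠ j`, `v ∈ N[i] ∩ N[j]` iff adjacent to both (`i, j` not adjacent);
`N[i] ∩ X = {p ∈ X : inb p = {i}}`. -/
def SpecBLK : Prop := ∀ (V : Type) [Fintype V] (G : SimpleGraph V) (I : Finset V) (d : ℕ),
  1 ≤ d → ClawFree G → MaxInd G I → (∀ v, dg G v ≤ d) →
  BS G (W G I) (2 * d) ∧ n1 (W G I) = I.card ∧
  (∀ X Y : {X // X ∈ UU G I}, ¬ (BG (W G I)).Adj (Sum.inr X) (Sum.inr Y)) ∧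
  (∀ i j : {i // i ∈ I}, i ≠ j →
    W G I (Sum.inl i) ∩ W G I (Sum.inl j) = univ.filter fun w => G.Adj w i.1 ∧ G.Adj w j.1) ∧
  (∀ (i : {i // i ∈ I}) (X : {X // X ∈ UU G I}),
    W G I (Sum.inr X) ∩ W G I (Sum.inl i) = X.1.filter fun p => inb G I p = {i.1})

/-- **DEF** [250], from PHI, DGR, CMP, BLK. The deficit of a component. Let `s = sz (W G I) X`, so every class of `X` (the `p ∈ X` with
`inb p = {i}`) has at most `s + 1` elements. For `p ∈ X`, `inb p = {i}`, let `u(p)` be the number of `G1`-neighbours of `p` (all in `X`);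
DGR (4): `cm i p + 2 = dg p + 1 - u(p)`. The inner sum is `1/(cm i p + 2)`. (A) `#X = 1`: `u = 0`, `1/(cm+2) + 1/1 ≥ phi (dg p + 2) ≥ f`, PHI
(1), (2). (B) `u(p) ≥ 1`, so `cm i p + 2 ≤ d` and the sum is `≥ #X/d`; `#X ≤ 2 (s+1)`, and
`#X (f - 1/d) ≤ 2 (s+1)(f - 1/d) ≤ (s+1)(1 - dδ/2) ≤ (1 - dδ/2) s + 1`. (C) `u(p) = #X - (class of p)`, so `(cm i p + 2) + #X = dg p + 2 + l(p)`,
`l(p) = (class of p) - 1 ≤ s`; by PHI (1), (2), (3) `1/(cm+2) + 1/#X ≥ phi (dg p + 2 + l) ≥ phi (d + 2 + l) ≥ f - l δ ≥ f - s δ`;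
sum over `X`: `∑ 1/(cm+2) + 1 ≥ f #X - s δ #X`. The smallest of the three classes of `p, q, r` has at most `#X/3` elements, so for its
element `2/3 #X ≤ u ≤ d - 1`, `#X ≤ 3/2 (d-1)`, and `s δ #X ≤ (1 - dδ/2) s`, PHI (4). -/
def SpecDEF : Prop := ∀ (V : Type) [Fintype V] (G : SimpleGraph V) (I : Finset V) (d : ℕ),
  4 ≤ d → ClawFree G → MaxInd G I → (∀ v, dg G v ≤ d) → ∀ X : {X // X ∈ UU G I},
  phi (d + 2) * (X.1.card : ℝ) ≤ (∑ p ∈ X.1, ∑ i ∈ inb G I p, 1 / ((cm G i p : ℝ) + 2)) + 1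
    + (1 - d * dl d / 2) * (sz (W G I) (Sum.inr X) : ℝ)

/-- **INE** [250], from PHI, LOC, DGR, CMP, BLK, DEF. The main inequality. `f = phi (d+2)`, `δ = dl d`. LOC for `N = N(i)`,
`i ∈ I` (claw-free at `i`; the neighbours of `v` in `N(i)` are counted by `cm i v`): `∑_{v ∈ N(i)} 1/(cm i v + 2) ≤ 2 - phi (dg i + 2) ≤ 2 - f`.
Sum over `i` and exchange: `∑_{v ∉ I} ∑_{i ∈ inb v} 1/(cm i v + 2) ≤ (2 - f) #I`. For `v ∈ V2` the inner sum is, by PHI (1) and DGR (3),
`≥ phi (dg v + 2 + l) ≥ phi (d + 2 + l) ≥ f - l δ` where `l ≤ sz (N[i])` and `l ≤ sz (N[j])`, so it is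
`≥ f - δ/2 (sz N[i] + sz N[j])`; the sum over `V2` is `≥ f #V2 - (d δ/2) ∑_i sz N[i]`, as every `i` has at most `d` neighbours.
`V1` is the disjoint union of the `X`; DEF: the sum over `V1` is `≥ f #V1 - #UU - (1 - dδ/2) ∑_X sz X`. So
`f n = f (#I + #V1 + #V2) ≤ 2 #I + #UU + (dδ/2) ∑_i sz N[i] + (1 - dδ/2) ∑_X sz X`, and the last two terms are
`(1 - dδ) ∑_X sz X + (dδ/2) ∑_z sz z ≤ (1 - dδ) M + (dδ/2) 2 M = M`. -/
def SpecINE : Prop := ∀ (V : Type) [Fintype V] (G : SimpleGraph V) (I : Finset V) (d : ℕ),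
  4 ≤ d → ClawFree G → MaxInd G I → (∀ v, dg G v ≤ d) → ∀ M : ℝ,
  ∑ X : {X // X ∈ UU G I}, (sz (W G I) (Sum.inr X) : ℝ) ≤ M →
  ∑ z : Nd G I, (sz (W G I) z : ℝ) ≤ 2 * M →
  phi (d + 2) * (Fintype.card V : ℝ) ≤ (I.card : ℝ) + (Fintype.card (Nd G I) : ℝ) + M

/-! ## III. Trees -/

/-- **MST** [100]. A spanning tree containing a heaviest edge at every vertex. Let `Γ_t` be the graph of the edges `x y` of
`Γ` with `μ x y ≥ t`. By downward induction on `t` (start with `t` larger than all `μ`): there is an acyclic `F_t ≤ Γ_t` such that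
for all `t' ≥ t` and all `x, y` reachable in `Γ_{t'}` the vertices `x, y` are reachable in `F_t ⊓ Γ_{t'}`. Step:
`SimpleGraph.exists_isAcyclic_reachable_eq_le_of_le_of_isAcyclic` with `F_{t+1} ≤ Γ_t`. `F = F_0` (`Γ_0 = Γ`) is a tree. For
`Γ.Adj z y`, `t' = μ z y`: `z ≠ y` are reachable in `F ⊓ Γ_{t'}`, so `z` has a neighbour `w` there. -/
def SpecMST : Prop := ∀ (Z : Type) [Fintype Z] (Γ : SimpleGraph Z) (μ : Z → Z → ℕ),
  Γ.Connected → (∀ x y, μ x y = μ y x) →
  ∃ F : SimpleGraph Z, F ≤ Γ ∧ F.IsTree ∧ ∀ z y, Γ.Adj z y → ∃ w, F.Adj z w ∧ μ z y ≤ μ z w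

/-- **TRE** [150]. A rooted tree: `h z` is the length of the unique path from `r` to `z`, `par z` its penultimate vertex. For an edge
`x y` the path to `x` passes through `y`, and then `y` is its penultimate vertex, or not, and then the path to `y` is the path to
`x` followed by `y` (`SimpleGraph.IsTree.existsUnique_path`, `SimpleGraph.IsAcyclic.path_unique`). -/
def SpecTRE : Prop := ∀ (Z : Type) [Fintype Z] (F : SimpleGraph Z), F.IsTree → ∀ r : Z,
  ∃ (par : Z → Z) (h : Z → ℕ), h r = 0 ∧ (∀ z, z ≠ r → F.Adj z (par z) ∧ h z = h (par z) + 1) ∧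
    ∀ x y, F.Adj x y → (x ≠ r ∧ par x = y) ∨ (y ≠ r ∧ par y = x)

/-- **CUT** [200]. Cutting a rooted tree. For a residue `ρ < k` let `R_ρ = {z ≠ r : h z % k = ρ}`; the sum over all `ρ` of `∑_{R_ρ} m` is the
right side, so some `ρ` has `k ∑_{R_ρ} m ≤ ∑ m`. Let `j(z) = min (h z) ((h z + k - ρ) % k)` and `top z = par^[j(z)] z`. For `z ≠ r`,
`z ∉ R_ρ`: `(h z + k - ρ) % k ≥ 1` and for `par z` (of height `h z - 1`) both terms of the minimum are smaller by one, so
`top z = par^[j(z) - 1] (par z) = top (par z)`. Size: if `top z = t` then `par^[j] z = t` with `j < k`, `j ≤ h z`; the number of `z` with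
`j ≤ h z` and `par^[j] z = t` is at most `D^j` by induction on `j` (`z ≠ r` if `j ≥ 1`; `par z` is one of the `≤ D^{j-1}` elements for `j - 1`, and each
has at most `D` children); `∑_{j<k} D^j ≤ (D+1)^k`. -/
def SpecCUT : Prop := ∀ (Z : Type) [Fintype Z] (r : Z) (par : Z → Z) (h : Z → ℕ) (m : Z → ℕ) (D k : ℕ),
  1 ≤ k → h r = 0 → (∀ z, z ≠ r → h z = h (par z) + 1) →
  (∀ x, (univ.filter fun z => z ≠ r ∧ par z = x).card ≤ D) →
  ∃ (R : Finset Z) (top : Z → Z), r ∉ R ∧ (∀ z, z ≠ r → z ∉ R → top z = top (par z)) ∧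
    (∀ t, (univ.filter fun z => top z = t).card ≤ (D + 1) ^ k) ∧
    k * ∑ z ∈ R, m z ≤ ∑ z ∈ univ.erase r, m z

/-- **FRG** [250], from TRE, CUT. Cutting a block system along a tree. Root `r` (trees are nonempty), `par`, `h` from TRE,
`m z = #(W z ∩ W (par z))`; `n2 W F = ∑_{z ≠ r} m z` (a vertex is in at most two blocks, so it is counted once; edges of `F` are the
pairs `z, par z`). The children `z` of `x`: the sets `W z ∩ W x` are not empty and disjoint for different `z`, subsets of `W x`: at most `D`. CUT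
gives `R`, `top`. `S` = vertices in one block, and vertices in `W z ∩ W (par z)`, `z ≠ r`, `z ∉ R`: `#S = n1 + n2 - ∑_R m`. Label: `l v = top z` for a
chosen block `z ∋ v`; for `v ∈ S` it does not depend on the choice; adjacent `v, w ∈ S` share a block. The vertices `v ∈ S` with label
`t` are in the union of the `W z`, `top z = t`: at most `D (D+1)^k`. -/
def SpecFRG : Prop := ∀ (V Z : Type) [Fintype V] [Fintype Z] (G : SimpleGraph V) (W : Z → Finset V)
  (F : SimpleGraph Z) (D k : ℕ), 1 ≤ k → BS G W D → F.IsTree → F ≤ BG W →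
  ∃ S : Finset V, Frag G S (D * (D + 1) ^ k) ∧ k * (n1 W + n2 W F) ≤ k * S.card + n2 W F

/-- **SUM** [150], from TRE. The weight of the tree. As in FRG `n2 W F = ∑_{z ≠ r} m z`, `m z = #(W z ∩ W (par z)) ≥ 1`; let
`M = ∑_{z ≠ r} (m z - 1)`, `n2 = M + #Z - 1`. For every `z` with `sz W z > 0` there is a `y ≠ z` with `sz W z = #(W z ∩ W y) - 1`, so
`BG.Adj z y` and, by hypothesis, `c(z) ≠ r` with `z = c` or `z = par c` and `m(c) - 1 ≥ sz W z`. For `z` in the set `A`, independent in `BG`,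
the `c(z)` are different; in general at most two `z` have the same `c(z)`. -/
def SpecSUM : Prop := ∀ (V Z : Type) [Fintype V] [Fintype Z] (G : SimpleGraph V) (W : Z → Finset V)
  (F : SimpleGraph Z) (D : ℕ), BS G W D → F.IsTree → F ≤ BG W →
  (∀ z y, (BG W).Adj z y → ∃ w, F.Adj z w ∧ (W z ∩ W y).card ≤ (W z ∩ W w).card) →
  ∃ M : ℕ, n2 W F + 1 = M + Fintype.card Z ∧ ∑ z, sz W z ≤ 2 * M ∧
    ∀ A : Finset Z, (∀ x ∈ A, ∀ y ∈ A, ¬ (BG W).Adj x y) → ∑ z ∈ A, sz W z ≤ M

/-- **CON** [80]. The block graph is connected: along a walk of `G` consecutive vertices are in a common block, and the blocks of a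
vertex are equal or adjacent. -/
def SpecCON : Prop := ∀ (V Z : Type) [Fintype V] [Fintype Z] (G : SimpleGraph V) (W : Z → Finset V) (D : ℕ),
  G.Connected → BS G W D → (BG W).Connected

/-- **CN1** [150], from BLK, INE, MST, FRG, SUM, CON. The connected case: a maximal independent set `I` exists. `F` from MST with
`Γ = BG W`, `μ x y = #(W x ∩ W y)`. SUM with `A` = all components `X` (BLK) and INE: `f n ≤ #I + #Z + M = n1 + n2 + 1`; FRG:
`k #S ≥ k (n1 + n2) - n2`, `n2 ≤ n`. -/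
def SpecCN1 : Prop := ∀ (V : Type) [Fintype V] (G : SimpleGraph V) (d k : ℕ),
  4 ≤ d → 1 ≤ k → G.Connected → ClawFree G → (∀ v, dg G v ≤ d) →
  ∃ S : Finset V, Frag G S (2 * d * (2 * d + 1) ^ k) ∧
    phi (d + 2) * (Fintype.card V : ℝ) - 1 - (Fintype.card V : ℝ) / k ≤ (S.card : ℝ)

/-- **GLU** [150], from CN1, PHI. All graphs. Choose `k ≥ 2/ε`, `C = max (2/ε) (2d (2d+1)^k)`. For every connected component `c` of `G` take the
induced graph on `c.supp` (connected, claw-free, degrees `≤ d`): if it has at most `2/ε` vertices take all of them with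
a constant label (`phi (d+2) ≤ 1`), otherwise CN1, `1 + #/k ≤ ε #`. The union, labelled by the pair (component, label). -/
def SpecGLU : Prop := ∀ d : ℕ, 4 ≤ d → ∀ ε : ℝ, 0 < ε → ∃ C : ℕ, ∀ (V : Type) [Fintype V] (G : SimpleGraph V),
  ClawFree G → (∀ v, dg G v ≤ d) →
  ∃ S : Finset V, Frag G S C ∧ (phi (d + 2) - ε) * (Fintype.card V : ℝ) ≤ (S.card : ℝ)

/-- **UPP** [120], from GLU. `X` = complement of `S`; the vertices of a connected component of `G - X` have the same label. -/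
def SpecUPP : Prop := ∀ d : ℕ, 4 ≤ d → ∀ ε : ℝ, 1 - phi (d + 2) < ε → Fragmentable (ClassCF d) ε

/-! ## IV. The lower bound -/

/-- **RED** [150]. A repetition gives a closed walk. Strong induction on `j - i`. Let `s i = s j`. If `j - i = 2 m` is even, the walk with period
`2 m` which repeats `s i, ..., s (j-1)` (shifted by one step if `i` is odd, so that it starts with an `A`-step) is a closed reduced
alternating walk (`s (j-1) ≠ s j = s i`). If `j - i = 1`: contradiction. If `j - i ≥ 3` is odd: the steps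
`i, i+1` and `j-1, j` are of the same kind, so `s (i+1)` and `s (j-1)` have the same image under the map of this kind. If
`s (i+1) = s (j-1)`: induction (`j - 1 - (i + 1)` is odd, so `≥ 1`). Otherwise repeat `s (i+1), ..., s (j-1)` with period `j - i - 1` (even),
the closing step `s (j-1), s (i+1)` is of the kind of step `i`, the kinds alternate; shift by one if necessary. -/
def SpecRED : Prop := ∀ (E X Y : Type) (A : E → X) (B : E → Y) (g : ℕ), Gir A B g →
  ∀ s : ℕ → E, RW A B s → ∀ i j : ℕ, i < j → j ≤ i + 2 * g → s i ≠ s j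

/-- **COV** [200], from RED. The cover. Let `s'` be a closed reduced alternating walk of length `2 m`, `1 ≤ m ≤ g + 1`, of the cover, `s = fst ∘ s'`,
`h = snd ∘ s'`. `s` is reduced: if `s i = s (i+1)` then `h i = h (i+1)` (both kinds). So `m = g + 1` by `Gir A B g`. The elements
`s 1, ..., s (2m)` are different: RED, and for the difference `2m - 1` use `s (2m + 1) = s 1 ≠ s (2m)` and the reducedness. Let `e = s (2m)`. The coordinate
`φ i = h i e`: `φ (i+1) = φ i` for even `i`, `φ (i+1) = φ i + [s i = e] + [s (i+1) = e]` for odd `i` (in `ZMod 2`). So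
`φ (2m) = φ 0 + ∑_{i=1}^{2m} [s i = e] = φ 0 + 1`, a contradiction to `φ (2m) = φ 0`. Fibres: `e ↦ (e, h)` and `e ↦ (e, h' - 1_e)`. -/
def SpecCOV : Prop := ∀ (E X Y : Type) [Fintype E] (A : E → X) (B : E → Y) (a b g : ℕ), Gir A B g →
  (∀ x, (univ.filter fun e => A e = x).card = a) → (∀ y, (univ.filter fun e => B e = y).card = b) →
  Gir (cA A) (cB B) (g + 1) ∧
  (∀ x, (univ.filter fun e => cA A e = x).card = a) ∧ (∀ y, (univ.filter fun e => cB B e = y).card = b)

/-- **GIR** [60], from COV. Biregular systems of large girth: start with `E = Fin a × Fin b`, `A` = second and `B` = first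
coordinate, `Gir A B 0` is trivial; iterate COV. -/
def SpecGIR : Prop := ∀ a b g : ℕ, 1 ≤ a → 1 ≤ b →
  ∃ (E X Y : Type) (_ : Fintype E) (_ : Fintype X) (_ : Fintype Y) (A : E → X) (B : E → Y),
    Nonempty E ∧ Gir A B g ∧ (∀ x, (univ.filter fun e => A e = x).card = a) ∧
    (∀ y, (univ.filter fun e => B e = y).card = b)

/-- **COR** [150], from RED. Counting. Show `#S ≤ #(S.image A) + #(S.image B)` by strong induction on `#S`. If some `e ∈ S` is the only
element of `S` in its `A`-fibre (or `B`-fibre), remove it. Otherwise every `e ∈ S` has another element of `S` in its `A`-fibre and one in its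
`B`-fibre; if `S` is not empty this gives a reduced alternating walk `s : ℕ → S`; all `s i` have the same label, so two of
`s 0, ..., s C` are equal, a contradiction to RED (`C ≤ 2 g`). -/
def SpecCOR : Prop := ∀ (E X Y : Type) [Fintype E] [Fintype X] [Fintype Y] (A : E → X) (B : E → Y) (g C : ℕ),
  Gir A B g → C ≤ 2 * g → ∀ S : Finset E, Frag (LG A B) S C → S.card ≤ Fintype.card X + Fintype.card Y

/-- **LOW** [200], from GIR, COR, PHI. Let `a = ⌊(d+2)/2⌋`, `b = ⌈(d+2)/2⌉`, `C` the constant of `ε`, `E` from GIR with `g = C`,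
`n = #E`, transported to `Fin n`. `LG A B` is claw-free (two of three neighbours of `v` are in the same fibre as `v` of the same map), its degrees are
`≤ (a-1) + (b-1) = d`; `n = a #X = b #Y`. If `X'` is the deleted set, the complement `S` is labelled by the components of
`G - X'`, so `#S ≤ n/a + n/b = phi (d+2) n`, and `n - #S ≤ ε n`. -/
def SpecLOW : Prop := ∀ d : ℕ, 4 ≤ d → ∀ ε : ℝ, Fragmentable (ClassCF d) ε → 1 - phi (d + 2) ≤ ε

/-- **MAI** [60], from UPP, LOW, PHI. `coef = 1 - phi (d+2)`. -/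
def SpecMAI : Prop := MainCF

end Pool.Agent.Lib.MP4d044e
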