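import Mathlib

/-!
# MP_4d044e_co: the coefficient of fragmentability of claw-free graphs: definitions of the statement
-/

namespace Pool.Agent.Lib.MP4d044e

/-- `G` has no induced `K_{1,3}`: among three different neighbours of a vertex two are adjacent. -/
def ClawFree {V : Type} (G : SimpleGraph V) : Prop :=
  ∀ v a b c : V, G.Adj v a → G.Adj v b → G.Adj v c → a ≠ b → a ≠ c → b ≠ c →
    G.Adj a b ∨ G.Adj a c ∨ G.Adj b c

/-- The class `P` of finite graphs is `ε`-fragmentable: there is a constant `C` such that every graph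
`G` of the class, with `n` vertices, has a set `X` of at most `ε n` vertices such that all connected
components of `G - X` have at most `C` vertices. -/
def Fragmentable (P : ∀ n : ℕ, SimpleGraph (Fin n) → Prop) (ε : ℝ) : Prop :=
  ∃ C : ℕ, ∀ (n : ℕ) (G : SimpleGraph (Fin n)), P n G →
    ∃ X : Finset (Fin n), (X.card : ℝ) ≤ ε * (n : ℝ) ∧
      ∀ c : (G.induce ((↑X : Set (Fin n))ᶜ)).ConnectedComponent, c.supp.ncard ≤ C

/-- The coefficient of fragmentability of the class `P`. -/
noncomputable def coef (P : ∀ n : ℕ, SimpleGraph (Fin n) → Prop) : ℝ :=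
  sInf {ε : ℝ | 0 ≤ ε ∧ Fragmentable P ε}

/-- The class of the claw-free graphs of maximum degree at most `d`. -/
def ClassCF (d : ℕ) (n : ℕ) (G : SimpleGraph (Fin n)) : Prop :=
  ClawFree G ∧ ∀ v : Fin n, (G.neighborSet v).ncard ≤ d

end Pool.Agent.Lib.MP4d044e
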